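import Pool.Agent.H36.LG.FdB
import Pool.Agent.H36.LF.GqF

/-!
# THEOREM L without s (MP_187c26_nt): the theorem in any field `Ω` of characteristic 0

Proof as for `thmL_adjoin2` in `Pool/Agent/H36/LF/GqF.lean`, from `thmL_all0`.
-/

set_option autoImplicit false

open NumberField IntermediateField

namespace Pool.Agent.H36.LG

open Pool.Agent.H36.LF Pool.Agent.H72.BE

/-- a number field which contains the three elements, with an embedding in the algebraic closure of `ℚ` -/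
private theorem ex_E {Ω : Type} [Field Ω] [CharZero Ω] (ξ x α : Ω) (hξ : IsIntegral ℚ ξ)
    (hx : IsIntegral ℚ x) (hα : IsIntegral ℚ α) :
    ∃ (E : Type) (_ : Field E) (_ : NumberField E) (ψ : E →+* Ω) (_ : E →+* AlgebraicClosure ℚ)
      (ξ' x' α' : E), ψ ξ' = ξ ∧ ψ x' = x ∧ ψ α' = α := by
  have hfin : Finite ({ξ, x, α} : Set Ω) := (Set.toFinite _).to_subtype
  have hfd : FiniteDimensional ℚ (IntermediateField.adjoin ℚ ({ξ, x, α} : Set Ω)) := by
    refine IntermediateField.finiteDimensional_adjoin (S := ({ξ, x, α} : Set Ω)) ?_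
    rintro y (rfl | rfl | rfl)
    · exact hξ
    · exact hx
    · exact hα
  have hnf : NumberField (IntermediateField.adjoin ℚ ({ξ, x, α} : Set Ω)) := {}
  let φ : IntermediateField.adjoin ℚ ({ξ, x, α} : Set Ω) →ₐ[ℚ] AlgebraicClosure ℚ := IsAlgClosed.lift
  refine ⟨IntermediateField.adjoin ℚ ({ξ, x, α} : Set Ω), inferInstance, hnf,
    (IntermediateField.adjoin ℚ ({ξ, x, α} : Set Ω)).val.toRingHom, φ.toRingHom,
    ⟨ξ, IntermediateField.subset_adjoin ℚ _ (by simp)⟩, ⟨x, IntermediateField.subset_adjoin ℚ _ (by simp)⟩,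
    ⟨α, IntermediateField.subset_adjoin ℚ _ (by simp)⟩, rfl, rfl, rfl⟩

private theorem deg_ring {Ω Ω' : Type} [Field Ω] [CharZero Ω] [Field Ω'] [CharZero Ω'] (σ : Ω →+* Ω')
    (ξ x α : Ω) : (minpoly (FF (σ ξ) ![σ x]) (σ α)).natDegree = (minpoly (FF ξ ![x]) α).natDegree := by
  have h := degree_map σ.toRatAlgHom ξ ![x] α
  have h2 : (fun i => σ.toRatAlgHom ((![x] : Fin 1 → Ω) i)) = ![σ x] := by
    funext i
    rw [Subsingleton.elim i 0]
    rfl
  rw [h2] at h
  exact h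

private theorem minpoly_ring {Ω Ω' : Type} [Field Ω] [CharZero Ω] [Field Ω'] [CharZero Ω'] (σ : Ω →+* Ω')
    (x : Ω) : minpoly ℚ (σ x) = minpoly ℚ x :=
  minpoly.algHom_eq σ.toRatAlgHom σ.injective x

private theorem FF_pair {Ω : Type} [Field Ω] [CharZero Ω] (ξ x : Ω) :
    FF ξ ![x] = IntermediateField.adjoin ℚ ({ξ, x} : Set Ω) := by
  unfold FF
  congr 1
  rw [Set.insert_eq]
  congr 1
  ext y
  rw [Set.mem_range, Set.mem_singleton_iff]
  constructor
  · rintro ⟨i, rfl⟩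
    rw [Subsingleton.elim i 0]
    rfl
  · rintro rfl
    exact ⟨0, rfl⟩

private theorem deg_congr {Ω : Type} [Field Ω] [CharZero Ω] (α : Ω) (K K' : IntermediateField ℚ Ω)
    (h : K = K') : (minpoly K α).natDegree = (minpoly K' α).natDegree := by
  subst h
  rfl

/-- THEOREM L without a condition on the prime factors of `m`. -/
theorem thmL_all (b : ℕ) (hb : 2 ≤ b) (ι : ℝ) (hι : 0 ≤ ι) : ∃ c : ℝ, 0 < c ∧
    ∀ (Ω : Type) [Field Ω] [CharZero Ω] (m n d : ℕ) (ξ x α : Ω), 1 ≤ m → 1 ≤ n →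
      n.Coprime (m * b) → ξ ^ n = 1 → x ^ m = (b : Ω) → Module.finrank ℚ ℚ⟮x⟯ = m →
      Real.log (Pool.Agent.H69.BD.idxZ x) ≤ ι * m → IsIntegral ℚ α →
      (minpoly (IntermediateField.adjoin ℚ ({ξ, x} : Set Ω)) α).natDegree ≤ d → α ≠ 0 →
      (∀ k : ℕ, 1 ≤ k → ∀ j : ℤ, α ^ k ≠ (b : Ω) ^ j) →
      c ≤ (d : ℝ) ^ 2000 * absLogHeight₁ α := by
  obtain ⟨c, hc, H⟩ := thmL_all0 b hb ι hι
  refine ⟨c, hc, ?_⟩
  intro Ω _ _ m n d ξ x α hm hn hcop hξ hx hdeg hidx hα hd hα0 hk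
  have hξi : IsIntegral ℚ ξ := by
    refine IsIntegral.of_pow (Nat.pos_of_ne_zero (by omega) : 0 < n) ?_
    rw [hξ]
    exact isIntegral_one
  have hxi : IsIntegral ℚ x := by
    refine IsIntegral.of_pow (Nat.pos_of_ne_zero (by omega) : 0 < m) ?_
    rw [hx]
    have h1 : ((b : ℕ) : Ω) = algebraMap ℚ Ω (b : ℚ) := by simp
    rw [h1]
    exact isIntegral_algebraMap
  obtain ⟨E, _, _, ψ, φ, ξ', x', α', hξ', hx', hα'⟩ := ex_E ξ x α hξi hxi hα
  have hAlg : @Algebra.IsAlgebraic ℚ (AlgebraicClosure ℚ) _ _ DivisionRing.toRatAlgebra := by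
    have h1 := AlgebraicClosure.isAlgebraic ℚ
    rwa [Subsingleton.elim (DivisionRing.toRatAlgebra : Algebra ℚ (AlgebraicClosure ℚ))
      (AlgebraicClosure.instAlgebra ℚ)]
  have hord : orderOf ξ ∣ n := orderOf_dvd_of_pow_eq_one hξ
  have hord0 : 1 ≤ orderOf ξ := Nat.pos_of_dvd_of_pos hord hn
  have hprim : IsPrimitiveRoot ξ' (orderOf ξ) := by
    have h1 : IsPrimitiveRoot ξ (orderOf ξ) := IsPrimitiveRoot.orderOf ξ
    rw [← hξ'] at h1 ⊢
    exact IsPrimitiveRoot.of_map_of_injective h1 ψ.injective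
  have hxE : x' ^ m = (b : E) := by
    apply ψ.injective
    rw [map_pow, hx', hx, map_natCast]
  have hD : DatG b m (orderOf ξ) (φ ξ') (φ x') := by
    refine ⟨hb, hm, hord0, Nat.Coprime.coprime_dvd_left hord hcop,
      hprim.map_of_injective φ.injective, ?_, ?_⟩
    · rw [← map_pow, hxE, map_natCast]
    · have h1 : IsIntegral ℚ (φ x') := by
        have h2 : IsIntegral ℚ x' := Algebra.IsIntegral.isIntegral x'
        exact h2.map φ.toRatAlgHom
      rw [adjoin.finrank h1, minpoly_ring φ x', ← minpoly_ring ψ x', hx', ← adjoin.finrank hxi]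
      exact hdeg
  have hidx' : Real.log (Pool.Agent.H69.BD.idxZ (φ x')) ≤ ι * m := by
    rw [idxZ_hom φ x', ← idxZ_hom ψ x', hx']
    exact hidx
  have hd' : (minpoly (FF (φ ξ') ![φ x']) (φ α')).natDegree ≤ d := by
    rw [deg_ring φ, ← deg_ring ψ, hξ', hx', hα', deg_congr α _ _ (FF_pair ξ x)]
    exact hd
  have hα'0 : α' ≠ 0 := by
    rintro rfl
    rw [map_zero] at hα'
    exact hα0 hα'.symm
  have hh : absLogHeight₁ (φ α') = absLogHeight₁ α := by
    have h1 := Pool.Agent.H4.RR.absLogHeight_eq E (AlgebraicClosure ℚ) φ α'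
    have h2 := Pool.Agent.H4.RR.absLogHeight_eq E Ω ψ α'
    rw [hα'] at h2
    rw [h1, h2]
  have key := H (AlgebraicClosure ℚ) m (orderOf ξ) d (φ ξ') (φ x') (φ α') hD hidx' hd'
    ((map_ne_zero φ).2 hα'0) (by
      intro k hk1 j h
      apply hk k hk1 j
      have h1 : α' ^ k = (b : E) ^ j := by
        apply φ.injective
        rw [map_pow, h, map_zpow₀, map_natCast]
      have h2 := congrArg ψ h1
      rw [map_pow, hα', map_zpow₀, map_natCast] at h2
      exact h2)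
  rw [hh] at key
  exact key

end Pool.Agent.H36.LG
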