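import Pool.Agent.H36.LE.Mp
import Pool.Agent.H69.BD.Vmain
import Pool.Agent.H69.BD.Vidx

/-!
# THEOREM L without s (MP_187c26_nt): the index of `ℤ[x^r]`

PROOFS. `deg_div`: `m = [ℚ(x) : ℚ] ≤ r [ℚ(x^r) : ℚ]` (`x` is a root of `X^r - x^r` over `ℚ(x^r)`) and `[ℚ(x^r) : ℚ] ≤ m/r` (`x^r` is a root of `X^(m/r) - b`).
`idx_div`: all in `Ω`. `S₀ = ℤ[x^r]`, `O₀` = the integers of `ℚ(x^r)`, `S = ℤ[x]`, `O` = the integers of `ℚ(x)`. `1, x, …, x^(r-1)` are independent over `ℚ(x^r)` (`[ℚ(x) : ℚ(x^r)] = r` by `deg_div` and `ℚ(x) = ℚ(x^r)(x)`), and `S = ⊕_(i<r) S₀ x^i` (monomials `x^(r u + i)`). The homomorphism `O₀^r → O`, `(w_i) ↦ ∑ w_i x^i` is injective and the preimage of `S` is `S₀^r`. So `O₀^r/S₀^r`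
embeds into `O/S`: `[O₀ : S₀]^r = [O₀^r : S₀^r] ≤ [O : S]` (both are finite: `idxZ_eq_ordIdx` and `Pool.Agent.H11.FR.ordIdx_ne_zero`, or from the discriminant: `m b^..` kills `O/S`; if the index `idxZ x` were infinite (`= 0`) the statement would need care, so prove `idxZ x ≠ 0` first; `AddSubgroup.relIndex` for products: `AddSubgroup.pi`, see `spn_idx` in
`Pool/Agent/H72/BE/DatC.lean` for the same kind of argument). Take logarithms.
-/

set_option autoImplicit false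

open NumberField IntermediateField

namespace Pool.Agent.H36.LG

open Pool.Agent.H69.BD (idxZ)

theorem deg_div {Ω : Type} [Field Ω] [CharZero Ω] (b m r : ℕ) (hb : 1 ≤ b) (hm : 1 ≤ m) (x : Ω)
    (hx : x ^ m = (b : Ω)) (hdeg : Module.finrank ℚ ℚ⟮x⟯ = m) (hr : r ∣ m) :
    Module.finrank ℚ ℚ⟮x ^ r⟯ = m / r := by
  obtain ⟨d, hd⟩ := hr
  have hr0 : 0 < r := by
    rcases Nat.eq_zero_or_pos r with h | h
    · rw [h, zero_mul] at hd
      omega
    · exact h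
  have hd0 : 0 < d := by
    rcases Nat.eq_zero_or_pos d with h | h
    · rw [h, mul_zero] at hd
      omega
    · exact h
  have hi : IsIntegral ℚ x := Pool.Agent.H69.BD.integral_rad b m hm x hx
  have hi0 : IsIntegral ℚ (x ^ r) := hi.pow r
  rw [adjoin.finrank hi] at hdeg
  rw [adjoin.finrank hi0, hd, Nat.mul_div_cancel_left d hr0]
  apply le_antisymm
  · have h1 : minpoly ℚ (x ^ r) ∣ Polynomial.X ^ d - Polynomial.C (b : ℚ) := by
      refine minpoly.dvd _ _ ?_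
      rw [map_sub, map_pow, Polynomial.aeval_X, Polynomial.aeval_C, ← pow_mul, ← hd, hx, map_natCast,
        sub_self]
    have h2 := Polynomial.natDegree_le_of_dvd h1 (Polynomial.X_pow_sub_C_ne_zero hd0 _)
    rwa [Polynomial.natDegree_X_pow_sub_C] at h2
  · have h1 : minpoly ℚ x ∣ Polynomial.expand ℚ r (minpoly ℚ (x ^ r)) := by
      refine minpoly.dvd _ _ ?_
      rw [Polynomial.expand_aeval, minpoly.aeval]
    have h2 := Polynomial.natDegree_le_of_dvd h1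
      ((Polynomial.expand_ne_zero hr0).2 (minpoly.ne_zero hi0))
    rw [hdeg, Polynomial.natDegree_expand, mul_comm, hd] at h2
    exact Nat.le_of_mul_le_mul_left h2 hr0

/-- elements of `ℤ[x]` -/
private theorem id_dec {Ω : Type} [Field Ω] (r : ℕ) (hr : 0 < r) (x : Ω) :
    ∀ y ∈ Algebra.adjoin ℤ ({x} : Set Ω), ∃ s : Fin r → Ω,
      (∀ i, s i ∈ Algebra.adjoin ℤ ({x ^ r} : Set Ω)) ∧ y = ∑ i, s i * x ^ (i : ℕ) := by
  intro y hy
  rw [Algebra.adjoin_singleton_eq_range_aeval] at hy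
  obtain ⟨p, rfl⟩ := hy
  change ∃ s : Fin r → Ω, (∀ i, s i ∈ Algebra.adjoin ℤ ({x ^ r} : Set Ω)) ∧
    Polynomial.aeval x p = ∑ i, s i * x ^ (i : ℕ)
  induction p using Polynomial.induction_on' with
  | add p q hp hq =>
    obtain ⟨s, h1, h2⟩ := hp
    obtain ⟨t, h3, h4⟩ := hq
    refine ⟨fun i => s i + t i, fun i => Subalgebra.add_mem _ (h1 i) (h3 i), ?_⟩
    rw [map_add, h2, h4, ← Finset.sum_add_distrib]
    exact Finset.sum_congr rfl fun i _ => by ring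
  | monomial n a =>
    refine ⟨fun i => if (i : ℕ) = n % r then algebraMap ℤ Ω a * (x ^ r) ^ (n / r) else 0,
      fun i => ?_, ?_⟩
    · dsimp only
      split_ifs
      · exact Subalgebra.mul_mem _ (Subalgebra.algebraMap_mem _ _)
          (Subalgebra.pow_mem _ (Algebra.self_mem_adjoin_singleton ℤ _) _)
      · exact Subalgebra.zero_mem _
    · rw [Finset.sum_eq_single (⟨n % r, Nat.mod_lt _ hr⟩ : Fin r)]
      · dsimp only
        rw [if_pos rfl, Polynomial.aeval_monomial, ← pow_mul, mul_assoc, ← pow_add,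
          Nat.div_add_mod]
      · intro i _ hi
        dsimp only
        rw [if_neg, zero_mul]
        intro h
        exact hi (Fin.ext h)
      · intro h
        exact absurd (Finset.mem_univ _) h

/-- the powers of `x` are independent over `ℚ(x^r)` -/
private theorem id_ind {Ω : Type} [Field Ω] [CharZero Ω] (b m r : ℕ) (hb : 1 ≤ b) (hm : 1 ≤ m)
    (x : Ω) (hx : x ^ m = (b : Ω)) (hdeg : Module.finrank ℚ ℚ⟮x⟯ = m) (hr : r ∣ m) :
    LinearIndependent ℚ⟮x ^ r⟯ (fun i : Fin r => x ^ (i : ℕ)) := by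
  have hdd := deg_div b m r hb hm x hx hdeg hr
  have hi : IsIntegral ℚ x := Pool.Agent.H69.BD.integral_rad b m hm x hx
  have hi1 : IsIntegral ℚ⟮x ^ r⟯ x := hi.tower_top
  have h1 : Module.finrank ℚ ℚ⟮x ^ r⟯ * Module.finrank ℚ⟮x ^ r⟯ (ℚ⟮x ^ r⟯)⟮x⟯ =
      Module.finrank ℚ (ℚ⟮x ^ r⟯)⟮x⟯ := Module.finrank_mul_finrank _ _ _
  have h2 : ((ℚ⟮x ^ r⟯)⟮x⟯).restrictScalars ℚ = ℚ⟮x⟯ := by
    refine (adjoin_simple_adjoin_simple ℚ (x ^ r) x).trans ?_
    apply le_antisymm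
    · rw [adjoin_le_iff]
      rintro y (hy | hy)
      · rw [hy]
        exact pow_mem (mem_adjoin_simple_self ℚ x) r
      · rw [Set.mem_singleton_iff] at hy
        rw [hy]
        exact mem_adjoin_simple_self ℚ x
    · rw [adjoin_simple_le_iff]
      exact subset_adjoin ℚ _ (Set.mem_insert_of_mem _ (Set.mem_singleton x))
  have h3 : Module.finrank ℚ (ℚ⟮x ^ r⟯)⟮x⟯ = m := by
    have h4 : Module.finrank ℚ (((ℚ⟮x ^ r⟯)⟮x⟯).restrictScalars ℚ : IntermediateField ℚ Ω) =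
        Module.finrank ℚ (ℚ⟮x ^ r⟯)⟮x⟯ := rfl
    rw [← h4, h2, hdeg]
  rw [h3, hdd, adjoin.finrank hi1] at h1
  obtain ⟨d, hd⟩ := hr
  have hr0 : 0 < r := by
    rcases Nat.eq_zero_or_pos r with h | h
    · rw [h, zero_mul] at hd
      omega
    · exact h
  have hd0 : 0 < d := by
    rcases Nat.eq_zero_or_pos d with h | h
    · rw [h, mul_zero] at hd
      omega
    · exact h
  rw [hd, Nat.mul_div_cancel_left d hr0, mul_comm r d] at h1
  have h5 : (minpoly ℚ⟮x ^ r⟯ x).natDegree = r := Nat.eq_of_mul_eq_mul_left hd0 h1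
  have h6 := linearIndependent_pow (K := ℚ⟮x ^ r⟯) x
  exact h6.comp (Fin.cast h5.symm) (Fin.cast_injective _)

theorem idx_div {Ω : Type} [Field Ω] [CharZero Ω] [Algebra.IsAlgebraic ℚ Ω] (b m r : ℕ)
    (hb : 1 ≤ b) (hm : 1 ≤ m) (x : Ω)
    (hx : x ^ m = (b : Ω)) (hdeg : Module.finrank ℚ ℚ⟮x⟯ = m) (hr : r ∣ m) :
    (r : ℝ) * Real.log (idxZ (x ^ r)) ≤ Real.log (idxZ x) := by
  have hr0 : 0 < r := Nat.pos_of_dvd_of_pos hr hm
  have hS := id_dec r hr0 x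
  have hI := id_ind b m r hb hm x hx hdeg hr
  have hxi : IsIntegral ℤ x := by
    refine IsIntegral.of_pow (by omega : 0 < m) ?_
    rw [hx]
    have h1 : (b : Ω) = algebraMap ℤ Ω (b : ℤ) := by simp
    rw [h1]
    exact isIntegral_algebraMap
  -- the index is finite
  have hne : idxZ x ≠ 0 := by
    rw [Pool.Agent.H69.BD.idxZ_eq_ordIdx]
    refine Pool.Agent.H11.FR.ordIdx_ne_zero (K := ℚ) (b := ((b : ℕ) : 𝓞 ℚ)) hm ?_ ?_
    · have : b ≠ 0 := by omega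
      exact_mod_cast this
    · rw [hx, map_natCast]
  obtain ⟨O₀, hO₀⟩ : ∃ O₀ : AddSubgroup Ω, O₀ =
    (ℚ⟮x ^ r⟯.toSubalgebra.toSubring ⊓ (integralClosure ℤ Ω).toSubring).toAddSubgroup := ⟨_, rfl⟩
  obtain ⟨S₀, hS₀⟩ : ∃ S₀ : AddSubgroup Ω, S₀ =
    (Algebra.adjoin ℤ ({x ^ r} : Set Ω)).toSubring.toAddSubgroup := ⟨_, rfl⟩
  obtain ⟨O, hO⟩ : ∃ O : AddSubgroup Ω, O =
    (ℚ⟮x⟯.toSubalgebra.toSubring ⊓ (integralClosure ℤ Ω).toSubring).toAddSubgroup := ⟨_, rfl⟩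
  obtain ⟨S, hS'⟩ : ∃ S : AddSubgroup Ω, S =
    (Algebra.adjoin ℤ ({x} : Set Ω)).toSubring.toAddSubgroup := ⟨_, rfl⟩
  have hi1 : idxZ x = S.relIndex O := by
    unfold idxZ
    rw [hS', hO]
  have hi2 : idxZ (x ^ r) = S₀.relIndex O₀ := by
    unfold idxZ
    rw [hS₀, hO₀]
  have hmO₀ : ∀ z ∈ O₀, z ∈ ℚ⟮x ^ r⟯ ∧ IsIntegral ℤ z := by
    intro z hz
    rw [hO₀] at hz
    exact ⟨hz.1, hz.2⟩
  have hmS : ∀ z ∈ S, z ∈ Algebra.adjoin ℤ ({x} : Set Ω) := by
    intro z hz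
    rw [hS'] at hz
    exact hz
  have hmS₀ : ∀ z ∈ Algebra.adjoin ℤ ({x ^ r} : Set Ω), z ∈ S₀ := by
    intro z hz
    rw [hS₀]
    exact hz
  let φ : (Fin r → O₀) →+ Ω :=
    { toFun := fun w => ∑ i : Fin r, (w i : Ω) * x ^ (i : ℕ)
      map_zero' := by simp
      map_add' := fun v w => by
        rw [← Finset.sum_add_distrib]
        refine Finset.sum_congr rfl fun t _ => ?_
        simp only [Pi.add_apply, AddSubgroup.coe_add]
        ring }
  have hφ : ∀ w : Fin r → O₀, φ w = ∑ i : Fin r, (w i : Ω) * x ^ (i : ℕ) := fun w => rfl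
  have hrange : φ.range ≤ O := by
    rintro _ ⟨w, rfl⟩
    rw [hφ, hO]
    refine AddSubgroup.sum_mem _ fun i _ => ?_
    obtain ⟨h1, h2⟩ := hmO₀ (w i) (w i).2
    refine ⟨?_, ?_⟩
    · have h3 : ℚ⟮x ^ r⟯ ≤ ℚ⟮x⟯ := by
        rw [adjoin_simple_le_iff]
        exact pow_mem (mem_adjoin_simple_self ℚ x) r
      exact ℚ⟮x⟯.mul_mem (h3 h1) (pow_mem (mem_adjoin_simple_self ℚ x) _)
    · exact IsIntegral.mul h2 (hxi.pow _)
  let P : AddSubgroup (Fin r → O₀) :=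
    AddSubgroup.pi Set.univ (fun _ => S₀.addSubgroupOf O₀)
  have hPidx : P.index = S₀.relIndex O₀ ^ r := by
    rw [AddSubgroup.index_pi, Finset.prod_const, Finset.card_univ, Fintype.card_fin]
    rfl
  have hle : S.comap φ ≤ P := by
    intro w hw
    have hw1 : φ w ∈ S := hw
    obtain ⟨s, hs1, hs2⟩ := hS _ (hmS _ hw1)
    rw [hφ] at hs2
    have hsK : ∀ i, s i ∈ ℚ⟮x ^ r⟯ := by
      intro i
      have h1 : Algebra.adjoin ℤ ({x ^ r} : Set Ω) ≤
          (ℚ⟮x ^ r⟯.toSubalgebra.restrictScalars ℤ) := by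
        rw [Algebra.adjoin_le_iff]
        rintro y hy
        rw [Set.mem_singleton_iff] at hy
        rw [hy]
        exact mem_adjoin_simple_self ℚ (x ^ r)
      exact h1 (hs1 i)
    have hz : ∀ i : Fin r, (⟨(w i : Ω) - s i,
        ℚ⟮x ^ r⟯.sub_mem (hmO₀ (w i) (w i).2).1 (hsK i)⟩ : ℚ⟮x ^ r⟯) = 0 := by
      refine (Fintype.linearIndependent_iff.1 hI) _ ?_
      have h1 : ∀ i : Fin r, (⟨(w i : Ω) - s i,
          ℚ⟮x ^ r⟯.sub_mem (hmO₀ (w i) (w i).2).1 (hsK i)⟩ : ℚ⟮x ^ r⟯) • x ^ (i : ℕ) =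
          (w i : Ω) * x ^ (i : ℕ) - s i * x ^ (i : ℕ) := by
        intro i
        rw [Algebra.smul_def, ← sub_mul]
        rfl
      rw [Finset.sum_congr rfl fun i _ => h1 i, Finset.sum_sub_distrib, hs2, sub_self]
    rw [AddSubgroup.mem_pi]
    intro i _
    have h2 := congrArg (fun z : ℚ⟮x ^ r⟯ => (z : Ω)) (hz i)
    have h3 : (w i : Ω) = s i := sub_eq_zero.1 h2
    rw [AddSubgroup.mem_addSubgroupOf, h3]
    exact hmS₀ _ (hs1 i)
  have hcomap : (S.comap φ).index = S.relIndex φ.range := AddSubgroup.index_comap S φ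
  have hSO : S.relIndex O ≠ 0 := by rw [← hi1]; exact hne
  have hne2 : (S.comap φ).index ≠ 0 := by
    rw [hcomap]
    intro h
    exact hSO (AddSubgroup.relIndex_eq_zero_of_le_right hrange h)
  have hmain : idxZ (x ^ r) ^ r ≤ idxZ x := by
    rw [hi2, ← hPidx, hi1]
    calc P.index ≤ (S.comap φ).index :=
          Nat.le_of_dvd (Nat.pos_of_ne_zero hne2) (AddSubgroup.index_dvd_of_le hle)
      _ = S.relIndex φ.range := hcomap
      _ ≤ S.relIndex O := AddSubgroup.relIndex_le_of_le_right hrange hSO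
  rcases Nat.eq_zero_or_pos (idxZ (x ^ r)) with h0 | h0
  · rw [h0, Nat.cast_zero, Real.log_zero, mul_zero]
    exact Real.log_nonneg (by exact_mod_cast Nat.pos_of_ne_zero hne)
  · rw [← Real.log_pow]
    apply Real.log_le_log
    · have : (0 : ℝ) < (idxZ (x ^ r) : ℝ) := by exact_mod_cast h0
      positivity
    · exact_mod_cast hmain

end Pool.Agent.H36.LG
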