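import Pool.Agent.H36.LG.MnA

/-!
# THEOREM L without s (MP_187c26_nt): number fields for `thmLB`, the orbit condition

PROOFS. Imports may be sorried. `rdA_over`: the same as `rdA_of_datG` in `Pool/Agent/H36/LF/GqE.lean` (see the header and proof there; copy), with `A = AA ξ`, `E := adjoin (AA ξ) {x, α}` (an intermediate field of `Ω / AA ξ`, finite over `AA ξ`, so a number field) and `f` the inclusion: `[E : A(x)] = natDegree (minpoly (FF ξ ![x]) α)` (`nd_FF`), `[A(x) : A] = m` (`degG`), and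
`A⟮x'⟯ ≃ FF ξ ![x]` for the discriminant (`discG`).
`orb_map`: `f` is injective and `AA ξ`-linear: `(adjoin A {u, v}).map f = adjoin A {f u, f v}` (`IntermediateField.adjoin_map`), `finrank` is preserved (`IntermediateField.equivMap`).
`round_rel`: `Rel b α z`, `x^m = b`, `b ≥ 2`: `α^M = b^j z^M`; choose `i ∈ ℤ` with `|j m - i M| ≤ M` (`i = j m / M`, floor), `z' := z x^i`: `z'^(M m) = z^(M m) b^(i M) = α^(M m) b^(i M - j m)`. So `M m h(z') ≤ M m h(α) + M log b` (`absLogHeight_pow`, `absLogHeight_mul_le`, `h(b^k) = |k| log b`), `h(z') ≤ h(α) + log b / m`. `Rel b α z'`: `α^(M m) = b^(j m - i M) z'^(M m)`.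
`adj_round`: `(z x^i)^q = z^q (x^q)^i`, so the two fields are equal. `nd_round`: `x ∈ FF ξ ![x]`, `x ≠ 0`: `z` and `z x^i` generate the same field over `FF ξ ![x]` (or `scaleRoots`).
-/

set_option autoImplicit false

open NumberField IntermediateField

namespace Pool.Agent.H36.LG

open Pool.Agent.H36.LE Pool.Agent.H36.LF Pool.Agent.H72.BE

private theorem mnb_top {Ω : Type} [Field Ω] [CharZero Ω] (ξ x : Ω) :
    IntermediateField.adjoin (AA ξ) {xF ξ ![x] 0} = (⊤ : IntermediateField (AA ξ) (FF ξ ![x])) := by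
  rw [eq_top_iff]
  intro z _
  obtain ⟨g, hg⟩ : ∃ g : FF ξ ![x] →ₐ[AA ξ] Ω, ∀ z, g z = (z : Ω) :=
    ⟨IsScalarTower.toAlgHom (AA ξ) (FF ξ ![x]) Ω, fun z => rfl⟩
  obtain ⟨B, hB⟩ : ∃ B : IntermediateField ℚ Ω, ∀ w : Ω, w ∈ B ↔
      w ∈ (IntermediateField.adjoin (AA ξ) {xF ξ ![x] 0}).map g :=
    ⟨IntermediateField.restrictScalars ℚ ((IntermediateField.adjoin (AA ξ) {xF ξ ![x] 0}).map g),
      fun w => Iff.rfl⟩
  have h1 : IntermediateField.adjoin ℚ ({ξ} ∪ Set.range ![x]) ≤ B := by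
    rw [IntermediateField.adjoin_le_iff]
    rintro y (rfl | ⟨i, rfl⟩)
    · rw [SetLike.mem_coe, hB]
      exact ⟨algebraMap (AA y) (FF y ![x]) (ξA y), IntermediateField.algebraMap_mem _ _, hg _⟩
    · rw [SetLike.mem_coe, hB]
      obtain rfl : i = 0 := Subsingleton.elim _ _
      exact ⟨xF ξ ![x] 0, IntermediateField.mem_adjoin_simple_self _ _, hg _⟩
  obtain ⟨w, hw, hwz⟩ := (hB _).1 (h1 z.2)
  have h2 : w = z := Subtype.ext ((hg w).symm.trans hwz)
  exact h2 ▸ hw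

private theorem mnb_rd {A F Ω : Type} [Field A] [NumberField A] [Field F] [NumberField F] [Field Ω]
    [CharZero Ω] [Algebra A F] [Algebra F Ω] [Algebra A Ω] [IsScalarTower A F Ω] (b m : ℕ) (hb : 1 ≤ b)
    (hm : 1 ≤ m) (ι : ℝ) (y : F) (hy : y ^ m = b) (htop : IntermediateField.adjoin A {y} = ⊤)
    (hdeg : Module.finrank A F = m)
    (hdisc : (m : ℝ) * dA A + Module.finrank ℚ A * (m * Real.log m - 2 * ι * m) ≤ dA F)
    (α : Ω) (hα : IsIntegral F α) [NumberField F⟮α⟯] :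
    RdA A b m (minpoly F α).natDegree ι (algebraMap F F⟮α⟯ y) := by
  obtain ⟨f, hf⟩ : ∃ f : F →ₐ[A] F⟮α⟯, ∀ z, f z = algebraMap F F⟮α⟯ z :=
    ⟨IsScalarTower.toAlgHom A F F⟮α⟯, fun z => rfl⟩
  have hmap : (IntermediateField.adjoin A {y}).map f =
      IntermediateField.adjoin A {algebraMap F F⟮α⟯ y} := by
    rw [adjoin_map, Set.image_singleton, hf]
  let e : F ≃ₐ[A] IntermediateField.adjoin A {algebraMap F F⟮α⟯ y} :=
    (IntermediateField.topEquiv.symm.trans (IntermediateField.equivOfEq htop.symm)).trans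
      ((IntermediateField.equivMap _ f).trans (IntermediateField.equivOfEq hmap))
  refine ⟨hb, hm, ?_, ?_, ?_, ?_⟩
  · rw [← map_pow, hy, map_natCast]
  · rw [← e.toLinearEquiv.finrank_eq, hdeg]
  · have : FiniteDimensional F F⟮α⟯ := adjoin.finiteDimensional hα
    rw [← adjoin.finrank hα, ← hdeg, Module.finrank_mul_finrank]
  · have h1 : NumberField.discr F =
        NumberField.discr (IntermediateField.adjoin A {algebraMap F F⟮α⟯ y}) :=
      NumberField.discr_eq_discr_of_algEquiv _ (e.restrictScalars ℚ)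
    have h2 : dA (IntermediateField.adjoin A {algebraMap F F⟮α⟯ y}) = dA F := by
      unfold dA
      rw [h1]
    rw [h2]
    exact hdisc

private theorem mnb_hb {Ω : Type} [Field Ω] [CharZero Ω] (b : ℕ) (hb : 2 ≤ b) (k : ℕ) :
    absLogHeight₁ (((b : Ω) ^ k)⁻¹) = k * Real.log b := by
  have h1 := Pool.Agent.H4.RR.absLogHeight_eq ℚ Ω (algebraMap ℚ Ω) (((b : ℚ) ^ k)⁻¹)
  rw [Module.finrank_self, Nat.cast_one, div_one, Height.logHeight₁_inv, Height.logHeight₁_pow] at h1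
  have h2 : Height.logHeight₁ (b : ℚ) = Real.log b := by
    rw [Rat.logHeight₁_eq_log_max]
    have h3 : max ((b : ℚ).num.natAbs) (b : ℚ).den = b := by
      rw [Rat.num_natCast, Rat.den_natCast, Int.natAbs_natCast]
      omega
    rw [h3]
  rw [h2] at h1
  rw [← h1, map_inv₀, map_pow, map_natCast]

variable {Ω : Type} [Field Ω] [CharZero Ω] [Algebra.IsAlgebraic ℚ Ω] {b m n : ℕ} {ξ x : Ω}

theorem rdA_over (h : DatG b m n ξ x) [NumberField (AA ξ)] (ι : ℝ)
    (hι : Real.log (Pool.Agent.H69.BD.idxZ x) ≤ ι * m) (α : Ω) :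
    ∃ (E : Type) (_ : Field E) (_ : NumberField E) (_ : Algebra (AA ξ) E) (x' a : E)
      (f : E →ₐ[AA ξ] Ω), f x' = x ∧ f a = α ∧
      RdA (AA ξ) b m (minpoly (FF ξ ![x]) α).natDegree ι x' := by
  have i2 : NumberField (FF ξ ![x]) := h.nf_F
  have hαF : IsIntegral (FF ξ ![x]) α :=
    (Algebra.IsAlgebraic.isAlgebraic (R := ℚ) α).isIntegral.tower_top
  have i3 : FiniteDimensional (FF ξ ![x]) (FF ξ ![x])⟮α⟯ := adjoin.finiteDimensional hαF
  have i4 : FiniteDimensional ℚ (FF ξ ![x])⟮α⟯ :=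
    FiniteDimensional.trans ℚ (FF ξ ![x]) (FF ξ ![x])⟮α⟯
  have i5 : NumberField (FF ξ ![x])⟮α⟯ := {}
  have hdeg : Module.finrank (AA ξ) (FF ξ ![x]) = m := degG h
  have hdisc := discG h
  refine ⟨(FF ξ ![x])⟮α⟯, inferInstance, i5, inferInstance,
    algebraMap (FF ξ ![x]) (FF ξ ![x])⟮α⟯ (xF ξ ![x] 0), AdjoinSimple.gen (FF ξ ![x]) α,
    ((FF ξ ![x])⟮α⟯).val.restrictScalars (AA ξ), rfl, rfl, ?_⟩
  refine mnb_rd b m ?_ ?_ ι (xF ξ ![x] 0) ?_ (mnb_top ξ x) hdeg ?_ α hαF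
  · have h1 : 2 ≤ b := h.two
    omega
  · exact h.hm
  · have h1 : (algebraMap (FF ξ ![x]) Ω) (xF ξ ![x] 0 ^ m) = algebraMap (FF ξ ![x]) Ω (b : FF ξ ![x]) := by
      rw [map_pow, map_natCast]
      exact h.pow
    exact (algebraMap (FF ξ ![x]) Ω).injective h1
  · have h1 : (0 : ℝ) ≤ Module.finrank ℚ (AA ξ) := Nat.cast_nonneg _
    nlinarith [mul_le_mul_of_nonneg_left hι h1]

omit [Algebra.IsAlgebraic ℚ Ω] in
theorem orb_map {E : Type} [Field E] [Algebra (AA ξ) E] (f : E →ₐ[AA ξ] Ω) (u v : E) :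
    Module.finrank (AA ξ) (IntermediateField.adjoin (AA ξ) ({u, v} : Set E)) =
      Module.finrank (AA ξ) (IntermediateField.adjoin (AA ξ) ({f u, f v} : Set Ω)) := by
  have h1 : (IntermediateField.adjoin (AA ξ) ({u, v} : Set E)).map f =
      IntermediateField.adjoin (AA ξ) ({f u, f v} : Set Ω) := by
    rw [IntermediateField.adjoin_map, Set.image_pair]
  rw [← h1]
  exact (IntermediateField.equivMap
    (IntermediateField.adjoin (AA ξ) ({u, v} : Set E)) f).toLinearEquiv.finrank_eq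

theorem round_rel (hb : 2 ≤ b) (hm : 1 ≤ m) (hx : x ^ m = (b : Ω)) (α z : Ω)
    (hα : α ≠ 0) (hz : z ≠ 0) (h : Rel b α z) :
    ∃ i : ℤ, Rel b α (z * x ^ i) ∧
      absLogHeight₁ (z * x ^ i) ≤ absLogHeight₁ α + Real.log b / m := by
  obtain ⟨M, j, hM, hr⟩ := h
  have hb0 : (b : Ω) ≠ 0 := by
    have h1 : b ≠ 0 := by omega
    exact_mod_cast h1
  have hx0 : x ≠ 0 := by
    rintro rfl
    rw [zero_pow (by omega)] at hx
    exact hb0 hx.symm
  have hM0 : (0 : ℤ) < M := by exact_mod_cast hM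
  obtain ⟨i, hi⟩ : ∃ i : ℤ, i = (j * m) / M := ⟨_, rfl⟩
  obtain ⟨r, hrn, hrM⟩ : ∃ r : ℕ, j * m - i * M = r ∧ r ≤ M := by
    have h1 : (j * m) % M = j * m - i * M := by
      rw [hi, Int.emod_def]
      ring
    have h2 : 0 ≤ (j * m) % (M : ℤ) := Int.emod_nonneg _ hM0.ne'
    have h3 : (j * m) % (M : ℤ) < M := Int.emod_lt_of_pos _ hM0
    obtain ⟨r, hr⟩ := Int.eq_ofNat_of_zero_le h2
    refine ⟨r, by rw [← h1, hr], ?_⟩
    have h4 : (r : ℤ) < M := by rw [← hr]; exact h3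
    exact_mod_cast h4.le
  have hxi : (x ^ i) ^ (M * m) = (b : Ω) ^ (i * (M : ℤ)) := by
    rw [← zpow_natCast, ← zpow_mul, ← hx, ← zpow_natCast, ← zpow_mul]
    congr 1
    push_cast
    ring
  have hzp : (z * x ^ i) ^ (M * m) = z ^ (M * m) * (b : Ω) ^ (i * (M : ℤ)) := by
    rw [mul_pow, hxi]
  have hαp : α ^ (M * m) = (b : Ω) ^ (j * (m : ℤ)) * z ^ (M * m) := by
    rw [pow_mul, hr, mul_pow, ← pow_mul, ← zpow_natCast ((b : Ω) ^ j), ← zpow_mul]
  have hα2 : α ^ (M * m) = (b : Ω) ^ r * (z * x ^ i) ^ (M * m) := by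
    have h1 : (b : Ω) ^ (j * (m : ℤ)) = (b : Ω) ^ r * (b : Ω) ^ (i * (M : ℤ)) := by
      rw [← zpow_natCast (b : Ω) r, ← zpow_add₀ hb0, ← hrn]
      congr 1
      ring
    rw [hαp, h1, hzp]
    ring
  refine ⟨i, ⟨M * m, r, Nat.mul_pos hM hm, ?_⟩, ?_⟩
  · rw [hα2, zpow_natCast]
  · have hiα : IsIntegral ℚ α := (Algebra.IsAlgebraic.isAlgebraic (R := ℚ) α).isIntegral
    have hiz : IsIntegral ℚ (z * x ^ i) :=
      (Algebra.IsAlgebraic.isAlgebraic (R := ℚ) (z * x ^ i)).isIntegral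
    have hib : IsIntegral ℚ (((b : Ω) ^ r)⁻¹) :=
      (Algebra.IsAlgebraic.isAlgebraic (R := ℚ) (((b : Ω) ^ r)⁻¹)).isIntegral
    have h1 : (z * x ^ i) ^ (M * m) = α ^ (M * m) * ((b : Ω) ^ r)⁻¹ := by
      rw [hα2, mul_comm ((b : Ω) ^ r), mul_assoc, mul_inv_cancel₀ (pow_ne_zero r hb0), mul_one]
    have h2 := Pool.Agent.H4.RR.absLogHeight_mul_le Ω (α ^ (M * m)) _ (hiα.pow (M * m)) hib
    rw [← h1, Pool.Agent.H4.RR.absLogHeight_pow Ω _ hiz, Pool.Agent.H4.RR.absLogHeight_pow Ω _ hiα,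
      mnb_hb b hb r] at h2
    have hm0 : (0 : ℝ) < m := by exact_mod_cast hm
    have hMr : (0 : ℝ) < M := by exact_mod_cast hM
    have hlb : 0 ≤ Real.log b := Real.log_nonneg (by exact_mod_cast (by omega : 1 ≤ b))
    have h3 : (r : ℝ) * Real.log b ≤ M * Real.log b :=
      mul_le_mul_of_nonneg_right (by exact_mod_cast hrM) hlb
    push_cast at h2
    have h4 : (M : ℝ) * (m * absLogHeight₁ (z * x ^ i)) ≤
        M * (m * absLogHeight₁ α + Real.log b) := by nlinarith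
    have h5 := le_of_mul_le_mul_left h4 hMr
    have h6 : absLogHeight₁ (z * x ^ i) ≤ (m * absLogHeight₁ α + Real.log b) / m := by
      rw [le_div_iff₀ hm0]
      linarith
    refine h6.trans (le_of_eq ?_)
    field_simp

omit [Algebra.IsAlgebraic ℚ Ω] in
theorem adj_round (hx : x ≠ 0) (z : Ω) (i : ℤ) (q : ℕ) :
    IntermediateField.adjoin (AA ξ) ({x ^ q, (z * x ^ i) ^ q} : Set Ω) =
      IntermediateField.adjoin (AA ξ) ({x ^ q, z ^ q} : Set Ω) := by
  have hp : (z * x ^ i) ^ q = z ^ q * (x ^ q) ^ i := by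
    rw [mul_pow, ← zpow_natCast (x ^ i), ← zpow_mul, ← zpow_natCast x q, ← zpow_mul, mul_comm i]
  have hxq : x ^ q ≠ 0 := pow_ne_zero q hx
  apply le_antisymm
  · rw [IntermediateField.adjoin_le_iff]
    have h1 : x ^ q ∈ IntermediateField.adjoin (AA ξ) ({x ^ q, z ^ q} : Set Ω) :=
      IntermediateField.subset_adjoin _ _ (by simp)
    have h2 : z ^ q ∈ IntermediateField.adjoin (AA ξ) ({x ^ q, z ^ q} : Set Ω) :=
      IntermediateField.subset_adjoin _ _ (by simp)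
    intro y hy
    rcases hy with rfl | hy
    · exact h1
    · rw [Set.mem_singleton_iff] at hy
      rw [hy, hp]
      exact mul_mem h2 (zpow_mem h1 i)
  · rw [IntermediateField.adjoin_le_iff]
    have h1 : x ^ q ∈ IntermediateField.adjoin (AA ξ) ({x ^ q, (z * x ^ i) ^ q} : Set Ω) :=
      IntermediateField.subset_adjoin _ _ (by simp)
    have h2 : (z * x ^ i) ^ q ∈ IntermediateField.adjoin (AA ξ) ({x ^ q, (z * x ^ i) ^ q} : Set Ω) :=
      IntermediateField.subset_adjoin _ _ (by simp)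
    intro y hy
    rcases hy with rfl | hy
    · exact h1
    · rw [Set.mem_singleton_iff] at hy
      have h3 : z ^ q = (z * x ^ i) ^ q * (x ^ q) ^ (-i) := by
        rw [hp, mul_assoc, ← zpow_add₀ hxq, add_neg_cancel, zpow_zero, mul_one]
      rw [hy, h3]
      exact mul_mem h2 (zpow_mem h1 _)

theorem nd_round (hx : x ≠ 0) (z : Ω) (i : ℤ) :
    (minpoly (FF ξ ![x]) (z * x ^ i)).natDegree ≤ (minpoly (FF ξ ![x]) z).natDegree := by
  have hαF : IsIntegral (FF ξ ![x]) z :=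
    (Algebra.IsAlgebraic.isAlgebraic (R := ℚ) z).isIntegral.tower_top
  obtain ⟨p, hp⟩ : ∃ p, p = minpoly (FF ξ ![x]) z := ⟨_, rfl⟩
  have hc : algebraMap (FF ξ ![x]) Ω (xF ξ ![x] 0 ^ i) = x ^ i := by
    rw [map_zpow₀]
    rfl
  have h0 : Polynomial.aeval z p = 0 := by
    rw [hp]
    exact minpoly.aeval _ _
  have h1 : Polynomial.aeval (z * x ^ i) (p.scaleRoots (xF ξ ![x] 0 ^ i)) = 0 := by
    rw [← hc, mul_comm]
    exact Polynomial.scaleRoots_aeval_eq_zero h0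
  have hmon : (p.scaleRoots (xF ξ ![x] 0 ^ i)).Monic := by
    rw [Polynomial.monic_scaleRoots_iff, hp]
    exact minpoly.monic hαF
  have h2 := Polynomial.natDegree_le_of_dvd (minpoly.dvd _ _ h1) hmon.ne_zero
  rw [Polynomial.natDegree_scaleRoots, hp] at h2
  exact h2

end Pool.Agent.H36.LG
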