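import Pool.Agent.H36.LG.FcB
import Pool.Agent.H36.LG.MnB
import Pool.Agent.H36.LG.IdD
import Pool.Agent.H36.LF.GqD

/-!
# THEOREM L without s (MP_187c26_nt), the theorem in `Ω` (algebraic closure of `ℚ`)

Imports may be sorried (`thmLB`, `exists_min`, `rdA_over`, `orb_map`, `round_rel`, `adj_round`, `nd_round`, `idx_div`, `desc_allG`, `height_root`, `stepDA`).
PROOF. `c₀`, `N₀` of `thmLB`, `c₁`, `C` of `stepDA`. `K` := a natural number `≥ 300`, `N₀`, `C`, `2 log b/c₀`; `d ≥ 1` (minimal polynomials have positive degree), `N := K d`, `h := h(α) ≥ 0`. If `100 N^1200 h > 1`: `h > N^(-1200)/100`, done. Otherwise: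
(1) `desc_allG` with `T := N^32`, `M := N^1150`, `D := d` (`4 N^1150 d h + 2 log (2 d) < 32 log N`: `4 N^1151 h ≤ 4/(100 N^49)`, `2 log (2 d) ≤ 2 log N`): `n'`, `ξ'`, `η`; `α' := η α`, `h(α') = h` (`height_root`), no prime in `[N^32, N^1150]` divides `n'`; `α'^k ≠ b^j` (`k ≥ 1`).
(2) `exists_min` for `α'`, `D := d`: `r`, `z`, `m' := m/r`, `x' := x^r`, `DatG b m' n' ξ' x'`; `z^k ≠ b^j` (`k ≥ 1`, from `Rel`). `idx_div`: `r log idxZ x' ≤ log idxZ x ≤ ι m = ι r m'`: `log idxZ x' ≤ ι m'` (`r ≥ 1`).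
(3) Case `m' < N^380`: `z` has degree `≤ m' d ≤ N^381` over `A := AA ξ'` (`[A(x') : A] = m'`, `nd_FF`). `Rel`: `α'^M = b^j z^M`. `stepDA` (`A`, `Ω`, `ξA ξ'`, `adjoin_ξA`, `σ` by `frob_cyc`, `κ = z`, `N := N^381`: the primes are in `[N^381, C N^1143]`, so in `[N^32, N^1150]`): `c₁ M/N^1905 ≤ h(z^M b^j) = h(α'^M) = M h`. So `h ≥ c₁/N^1905`.
(4) Case `m' ≥ N^380`: `round_rel` for `x'`, `m'`: `z' := z x'^i`, `h(z') ≤ h + log b/m' ≤ h + N^(-380) log b`. `rdA_over` for `z'`: `E`, `x_E`, `a`, `f`, `RdA (AA ξ') b m' d' ι x_E`, `d' ≤ d` (`nd_round`). The orbit condition for primes `q` in `[N^32, N^52]` (`q > d`): `orb_map`, `adj_round`, `exists_min`. `thmLB`: `c₀ ≤ N^370 h(a)`, `h(a) = h(z')`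
(`absLogHeight_eq` for `f` and the identity). `N^370 N^(-380) log b ≤ log b/K ≤ c₀/2`, so `h ≥ c₀ N^(-370)/2`.
Finally `N^1905 = K^1905 d^1905 ≤ K^1905 d^2000`.
-/

set_option autoImplicit false

open Polynomial NumberField IntermediateField

namespace Pool.Agent.H36.LG

open Pool.Agent.H36.LE Pool.Agent.H36.LF Pool.Agent.H72.BE

private theorem fdb_nn {Ω : Type} [Field Ω] [CharZero Ω] (x : Ω) : 0 ≤ absLogHeight₁ x := by
  unfold absLogHeight₁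
  refine Real.log_nonneg ?_
  unfold absMulHeight₁
  split_ifs with hx
  · have : FiniteDimensional ℚ ℚ⟮x⟯ := adjoin.finiteDimensional hx
    have : NumberField ℚ⟮x⟯ := {}
    exact Real.one_le_rpow (Height.one_le_mulHeight₁ _) (by positivity)
  · exact le_rfl

private theorem fdb_height (E Ω : Type) [Field E] [NumberField E] [Field Ω] [CharZero Ω] (f : E →+* Ω) (a : E) :
    absLogHeight₁ (f a) = absLogHeight₁ a := by
  have h1 := Pool.Agent.H4.RR.absLogHeight_eq E Ω f a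
  have h2 := Pool.Agent.H4.RR.absLogHeight_eq E E (RingHom.id E) a
  rw [RingHom.id_apply] at h2
  rw [h1, h2]

private theorem fdb_adj {Ω : Type} [Field Ω] [CharZero Ω] (ξ : Ω) :
    IntermediateField.adjoin ℚ {ξA ξ} = ⊤ := by
  exact adjoin_ξA ξ

/-- the degree over the smaller field -/
private theorem fdb_deg {k E : Type} [Field k] [Field E] [Algebra k E]
    (x z : E) (hx : IsIntegral k x) (hz : IsIntegral k z) (m d : ℕ)
    (hm : Module.finrank k k⟮x⟯ ≤ m) (hd : (minpoly k⟮x⟯ z).natDegree ≤ d) :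
    Module.finrank k k⟮z⟯ ≤ m * d := by
  have i1 : FiniteDimensional k k⟮x⟯ := IntermediateField.adjoin.finiteDimensional hx
  have hz' : IsIntegral k⟮x⟯ z := hz.tower_top
  have i2 : FiniteDimensional k⟮x⟯ k⟮x⟯⟮z⟯ := IntermediateField.adjoin.finiteDimensional hz'
  have i3 : FiniteDimensional k k⟮x⟯⟮z⟯ := FiniteDimensional.trans k k⟮x⟯ k⟮x⟯⟮z⟯
  have i4 : FiniteDimensional k (k⟮x⟯⟮z⟯.restrictScalars k) := i3
  have h1 : Module.finrank k⟮x⟯ k⟮x⟯⟮z⟯ = (minpoly k⟮x⟯ z).natDegree :=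
    IntermediateField.adjoin.finrank hz'
  have h2 : Module.finrank k k⟮x⟯ * Module.finrank k⟮x⟯ k⟮x⟯⟮z⟯ = Module.finrank k k⟮x⟯⟮z⟯ :=
    Module.finrank_mul_finrank k k⟮x⟯ k⟮x⟯⟮z⟯
  have h3 : k⟮z⟯ ≤ k⟮x⟯⟮z⟯.restrictScalars k := by
    rw [IntermediateField.adjoin_simple_le_iff, IntermediateField.mem_restrictScalars]
    exact IntermediateField.mem_adjoin_simple_self _ _
  have h4 : Module.finrank k k⟮z⟯ ≤ Module.finrank k (k⟮x⟯⟮z⟯.restrictScalars k) :=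
    IntermediateField.finrank_le_of_le_right h3
  have h5 : Module.finrank k (k⟮x⟯⟮z⟯.restrictScalars k) = Module.finrank k k⟮x⟯⟮z⟯ := rfl
  rw [h5, ← h2, h1] at h4
  exact h4.trans (Nat.mul_le_mul hm hd)

section

variable {Ω : Type} [Field Ω] [CharZero Ω] [Algebra.IsAlgebraic ℚ Ω] {b m n : ℕ} {ξ x : Ω}

omit [Algebra.IsAlgebraic ℚ Ω] in
/-- the Frobenius lifts -/
private theorem fdb_frob (h : DatG b m n ξ x) [NumberField (AA ξ)] :
    ∃ σ : ℕ → (AA ξ →+* AA ξ), ∀ q : ℕ, q.Prime → ¬ q ∣ n → Frob (AA ξ) q (σ q) := by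
  classical
  have hξ : IsPrimitiveRoot (ξA ξ) n :=
    IsPrimitiveRoot.of_map_of_injective (f := (AA ξ).val) h.prim (AA ξ).val.injective
  refine ⟨fun q => if h1 : q.Prime ∧ ¬ q ∣ n then
    Classical.choose (frob_cyc n h.hn (ξA ξ) hξ (fdb_adj ξ) q h1.1 h1.2) else RingHom.id _, ?_⟩
  intro q hq hqn
  have h1 : q.Prime ∧ ¬ q ∣ n := ⟨hq, hqn⟩
  simp only [dif_pos h1]
  exact (Classical.choose_spec (frob_cyc n h.hn (ξA ξ) hξ (fdb_adj ξ) q h1.1 h1.2)).1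

omit [Algebra.IsAlgebraic ℚ Ω] in
/-- relations are transitive -/
private theorem fdb_rel (hb : 2 ≤ b) {α z : Ω} (hrel : Rel b α z)
    (hab : ∀ k : ℕ, 1 ≤ k → ∀ j : ℤ, α ^ k ≠ (b : Ω) ^ j) :
    ∀ k : ℕ, 1 ≤ k → ∀ j : ℤ, z ^ k ≠ (b : Ω) ^ j := by
  intro k hk j h1
  obtain ⟨M, j₀, hM, h2⟩ := hrel
  have hb0 : (b : Ω) ≠ 0 := Nat.cast_ne_zero.2 (by omega)
  refine hab (M * k) (Nat.mul_pos hM hk) (j₀ * k + j * M) ?_
  rw [pow_mul, h2, mul_pow, ← pow_mul, mul_comm M k, pow_mul, h1, ← zpow_natCast ((b : Ω) ^ j₀),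
    ← zpow_mul, ← zpow_natCast ((b : Ω) ^ j), ← zpow_mul, ← zpow_add₀ hb0]

/-- small `m` -/
private theorem fdb_small (hb : 2 ≤ b) {c₁ : ℝ} {C : ℕ}
    (hD : ∀ (A Ω : Type) [Field A] [NumberField A] [Field Ω] [CharZero Ω] [Algebra A Ω] (n : ℕ)
      (ξ : A), 1 ≤ n → IsPrimitiveRoot ξ n → IntermediateField.adjoin ℚ {ξ} = ⊤ → n.Coprime b →
      ∀ (σ : ℕ → (A →+* A)) (κ : Ω), IsIntegral A κ → κ ≠ 0 →
      (∀ k : ℕ, 1 ≤ k → ∀ j : ℤ, κ ^ k ≠ (b : Ω) ^ j) → ∀ N : ℕ, Module.finrank A A⟮κ⟯ ≤ N →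
      (∀ q : ℕ, q.Prime → N ≤ q → q ≤ C * N ^ 3 → Pool.Agent.H72.BE.Frob A q (σ q)) →
      ∀ (m : ℕ) (s : ℤ), 1 ≤ m →
        c₁ * m / (N : ℝ) ^ 5 ≤ absLogHeight₁ (κ ^ m * (b : Ω) ^ s))
    (h : DatG b m n ξ x) (α z : Ω) (hz0 : z ≠ 0) (hrel : Rel b α z)
    (hab : ∀ k : ℕ, 1 ≤ k → ∀ j : ℤ, α ^ k ≠ (b : Ω) ^ j) (N d : ℕ) (hN : 1 ≤ N) (hC : C ≤ N)
    (hdN : d ≤ N) (hzd : (minpoly (FF ξ ![x]) z).natDegree ≤ d) (hm : m < N ^ 380)
    (hpr : ∀ q : ℕ, q.Prime → N ^ 32 ≤ q → q ≤ N ^ 1150 → ¬ q ∣ n) :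
    c₁ ≤ (N : ℝ) ^ 1905 * absLogHeight₁ α := by
  have i1 : NumberField (AA ξ) := h.nf_A
  obtain ⟨σ, hσ⟩ := fdb_frob h
  have hξ : IsPrimitiveRoot (ξA ξ) n :=
    IsPrimitiveRoot.of_map_of_injective (f := (AA ξ).val) h.prim (AA ξ).val.injective
  have hcop : n.Coprime b := Nat.Coprime.coprime_mul_left_right h.cop
  have hzA : IsIntegral (AA ξ) z := (Algebra.IsIntegral.isIntegral (R := ℚ) z).tower_top
  have hxA : IsIntegral (AA ξ) x := (Algebra.IsIntegral.isIntegral (R := ℚ) x).tower_top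
  have hdx : Module.finrank (AA ξ) (AA ξ)⟮x⟯ ≤ m := by
    rw [IntermediateField.adjoin.finrank hxA]
    have h1 : minpoly (AA ξ) x ∣ Polynomial.X ^ m - Polynomial.C (b : AA ξ) := by
      refine minpoly.dvd _ _ ?_
      simp [h.pow]
    have h2 : (Polynomial.X ^ m - Polynomial.C (b : AA ξ)) ≠ 0 :=
      Polynomial.X_pow_sub_C_ne_zero (Nat.pos_of_ne_zero (by have := h.hm; omega)) _
    have h3 := Polynomial.natDegree_le_of_dvd h1 h2
    rwa [Polynomial.natDegree_X_pow_sub_C] at h3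
  have hdeg : Module.finrank (AA ξ) (AA ξ)⟮z⟯ ≤ N ^ 381 := by
    refine (fdb_deg x z hxA hzA m d hdx ?_).trans ?_
    · rw [nd_FF]
      exact hzd
    · calc m * d ≤ N ^ 380 * N := Nat.mul_le_mul hm.le hdN
        _ = N ^ 381 := by ring
  obtain ⟨M, j, hM, hMj⟩ := id hrel
  have h1 := hD (AA ξ) Ω n (ξA ξ) h.hn hξ (fdb_adj ξ) hcop σ z hzA hz0 (fdb_rel hb hrel hab)
    (N ^ 381) hdeg (fun q hq h5 h6 => hσ q hq (hpr q hq
      ((Nat.pow_le_pow_right hN (by norm_num)).trans h5) (h6.trans (by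
        calc C * (N ^ 381) ^ 3 ≤ N * (N ^ 381) ^ 3 := Nat.mul_le_mul_right _ hC
          _ = N ^ 1144 := by ring
          _ ≤ N ^ 1150 := Nat.pow_le_pow_right hN (by norm_num))))) M j hM
  have hNR : (0 : ℝ) < N := by exact_mod_cast hN
  have hMR : (0 : ℝ) < M := by exact_mod_cast hM
  rw [mul_comm (z ^ M), ← hMj, Pool.Agent.H4.RR.absLogHeight_pow Ω α (Algebra.IsIntegral.isIntegral α),
    div_le_iff₀ (by positivity)] at h1
  refine le_of_mul_le_mul_right ?_ hMR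
  calc c₁ * M ≤ M * absLogHeight₁ α * ((N ^ 381 : ℕ) : ℝ) ^ 5 := h1
    _ = (N : ℝ) ^ 1905 * absLogHeight₁ α * M := by
      push_cast
      rw [← pow_mul]
      ring

/-- large `m` -/
private theorem fdb_large (hb : 2 ≤ b) {ι c₀ : ℝ} {N₀ : ℕ}
    (hL : ∀ N : ℕ, N₀ ≤ N → ∀ (A E : Type) [Field A] [NumberField A] [Field E] [NumberField E]
      [Algebra A E] (n : ℕ) (ξ : A), 1 ≤ n → IsPrimitiveRoot ξ n →
      IntermediateField.adjoin ℚ {ξ} = ⊤ → n.Coprime b → ∀ (m d : ℕ) (x a : E),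
      RdA A b m d ι x → 300 * d ≤ N →
      (∀ q : ℕ, q.Prime → N ^ 32 ≤ q → q ≤ N ^ 200 → ¬ q ∣ n) →
      (∀ q : ℕ, q.Prime → N ^ 32 ≤ q → q ≤ N ^ 52 →
        m ≤ Module.finrank A (IntermediateField.adjoin A ({x ^ q, a ^ q} : Set E))) →
      N ^ 90 ≤ m → a ≠ 0 → (∀ k : ℕ, 1 ≤ k → ∀ j : ℤ, a ^ k ≠ (b : E) ^ j) →
      c₀ ≤ (N : ℝ) ^ 370 * absLogHeight₁ a)
    (h : DatG b m n ξ x) (hι : Real.log (Pool.Agent.H69.BD.idxZ x) ≤ ι * m) (α z : Ω)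
    (hα0 : α ≠ 0) (hz0 : z ≠ 0) (hrel : Rel b α z)
    (hab : ∀ k : ℕ, 1 ≤ k → ∀ j : ℤ, α ^ k ≠ (b : Ω) ^ j) (N d : ℕ) (hN : 1 ≤ N) (hN₀ : N₀ ≤ N)
    (h300 : 300 * d ≤ N) (hlog : 2 * Real.log b ≤ c₀ * N)
    (hzd : (minpoly (FF ξ ![x]) z).natDegree ≤ d) (hm : N ^ 380 ≤ m)
    (hpr : ∀ q : ℕ, q.Prime → N ^ 32 ≤ q → q ≤ N ^ 1150 → ¬ q ∣ n)
    (horb : ∀ q : ℕ, q.Prime → d < q → m ≤ Module.finrank (AA ξ)
        (IntermediateField.adjoin (AA ξ) ({x ^ q, z ^ q} : Set Ω))) :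
    c₀ / 2 ≤ (N : ℝ) ^ 370 * absLogHeight₁ α := by
  have i1 : NumberField (AA ξ) := h.nf_A
  have hξ : IsPrimitiveRoot (ξA ξ) n :=
    IsPrimitiveRoot.of_map_of_injective (f := (AA ξ).val) h.prim (AA ξ).val.injective
  have hcop : n.Coprime b := Nat.Coprime.coprime_mul_left_right h.cop
  have hm1 := h.hm
  have hb0 : (b : Ω) ≠ 0 := Nat.cast_ne_zero.2 (by omega)
  have hx0 : x ≠ 0 := by
    rintro rfl
    have h1 := h.pow
    rw [zero_pow (by omega)] at h1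
    exact hb0 h1.symm
  obtain ⟨i, hrel', hht⟩ := round_rel hb hm1 h.pow α z hα0 hz0 hrel
  have hz'0 : z * x ^ i ≠ 0 := mul_ne_zero hz0 (zpow_ne_zero _ hx0)
  obtain ⟨E, _, _, _, x', a, f, hfx, hfa, hRd⟩ := rdA_over h ι hι (z * x ^ i)
  have hd' : (minpoly (FF ξ ![x]) (z * x ^ i)).natDegree ≤ d := (nd_round hx0 z i).trans hzd
  have hNR : (1 : ℝ) ≤ N := by exact_mod_cast hN
  have hdlt : ∀ q : ℕ, N ^ 32 ≤ q → d < q := by
    intro q hq
    have h1 : N ≤ N ^ 32 := Nat.le_self_pow (by norm_num) N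
    omega
  have h1 := hL N hN₀ (AA ξ) E n (ξA ξ) h.hn hξ (fdb_adj ξ) hcop m _ x' a hRd (by omega)
    (fun q hq h1 h2 => hpr q hq h1 (h2.trans (Nat.pow_le_pow_right hN (by norm_num))))
    (fun q hq h1 h2 => by
      rw [orb_map f, map_pow, map_pow, hfx, hfa, adj_round hx0]
      exact horb q hq (hdlt q h1))
    ((Nat.pow_le_pow_right hN (by norm_num)).trans hm)
    (by
      rintro rfl
      rw [map_zero] at hfa
      exact hz'0 hfa.symm)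
    (fun k hk j h2 => by
      have h3 := congrArg f h2
      rw [map_pow, map_zpow₀, map_natCast, hfa] at h3
      exact fdb_rel hb hrel' hab k hk j h3)
  have h2 : absLogHeight₁ a = absLogHeight₁ (z * x ^ i) := by
    rw [← fdb_height E Ω (f : E →+* Ω) a]
    exact congrArg absLogHeight₁ hfa
  rw [h2] at h1
  have hmR : (0 : ℝ) < m := by exact_mod_cast hm1
  have h3 : (N : ℝ) ^ 370 * (Real.log b / m) ≤ c₀ / 2 := by
    have h4 : (N : ℝ) ^ 370 * N ≤ m := by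
      have h5 : N ^ 370 * N ≤ m := by
        refine le_trans ?_ hm
        rw [← pow_succ]
        exact Nat.pow_le_pow_right hN (by norm_num)
      exact_mod_cast h5
    have h5 : 0 ≤ Real.log b := Real.log_nonneg (by exact_mod_cast (by omega : 1 ≤ b))
    have h6 : (0 : ℝ) < N := by linarith
    rw [← mul_div_assoc, div_le_iff₀ hmR]
    have h7 : 0 ≤ c₀ := by
      by_contra h8
      push Not at h8
      nlinarith
    have h8 : (N : ℝ) ^ 370 * (2 * Real.log b) ≤ (N : ℝ) ^ 370 * (c₀ * N) :=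
      mul_le_mul_of_nonneg_left hlog (by positivity)
    have h9 : c₀ * ((N : ℝ) ^ 370 * N) ≤ c₀ * m := mul_le_mul_of_nonneg_left h4 h7
    nlinarith
  have h4 : (N : ℝ) ^ 370 * absLogHeight₁ (z * x ^ i) ≤
      (N : ℝ) ^ 370 * (absLogHeight₁ α + Real.log b / m) :=
    mul_le_mul_of_nonneg_left hht (by positivity)
  rw [mul_add] at h4
  linarith

end

theorem thmL_all0 (b : ℕ) (hb : 2 ≤ b) (ι : ℝ) (hι : 0 ≤ ι) : ∃ c : ℝ, 0 < c ∧
    ∀ (Ω : Type) [Field Ω] [CharZero Ω] [Algebra.IsAlgebraic ℚ Ω] [IsAlgClosed Ω]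
      (m n d : ℕ) (ξ x α : Ω), DatG b m n ξ x →
      Real.log (Pool.Agent.H69.BD.idxZ x) ≤ ι * m →
      (minpoly (FF ξ ![x]) α).natDegree ≤ d → α ≠ 0 →
      (∀ k : ℕ, 1 ≤ k → ∀ j : ℤ, α ^ k ≠ (b : Ω) ^ j) →
      c ≤ (d : ℝ) ^ 2000 * absLogHeight₁ α := by
  obtain ⟨c₀, hc₀, N₀, hL⟩ := thmLB b hb ι hι
  obtain ⟨c₁, hc₁, C, hD⟩ := stepDA b hb
  obtain ⟨K, hK⟩ : ∃ K : ℕ, K = 300 + N₀ + C + ⌈2 * Real.log b / c₀⌉₊ := ⟨_, rfl⟩
  have hK1 : (1 : ℝ) ≤ K := by exact_mod_cast (by omega : 1 ≤ K)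
  have hK0 : (0 : ℝ) < K := by linarith
  refine ⟨min (1 / 100) (min c₁ (c₀ / 2)) / (K : ℝ) ^ 1905,
    div_pos (lt_min (by norm_num) (lt_min hc₁ (by linarith))) (by positivity), ?_⟩
  intro Ω _ _ _ _ m n d ξ x α hDat hidx hmd hα0 hk
  have hαF : IsIntegral (FF ξ ![x]) α :=
    (Algebra.IsAlgebraic.isAlgebraic (R := ℚ) α).isIntegral.tower_top
  have hd1 : 1 ≤ d := (minpoly.natDegree_pos hαF).trans_le hmd
  have hh0 : 0 ≤ absLogHeight₁ α := fdb_nn α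
  have hd1' : (1 : ℝ) ≤ d := by exact_mod_cast hd1
  obtain ⟨N, hN⟩ : ∃ N : ℕ, N = K * d := ⟨_, rfl⟩
  have hKN : K ≤ N := by
    rw [hN]
    exact Nat.le_mul_of_pos_right K (by omega)
  have hNd : 300 * d ≤ N := by
    rw [hN]
    exact Nat.mul_le_mul_right _ (by omega)
  have hN1 : 1 ≤ N := by omega
  have hN1R : (1 : ℝ) ≤ N := by exact_mod_cast hN1
  have hNr : (N : ℝ) = K * d := by rw [hN]; push_cast; ring
  -- the reduction to a bound in terms of `N`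
  have hfin : ∀ k : ℕ, k ≤ 1905 → ∀ c : ℝ, c ≤ (N : ℝ) ^ k * absLogHeight₁ α →
      min (1 / 100) (min c₁ (c₀ / 2)) ≤ c →
      min (1 / 100) (min c₁ (c₀ / 2)) / (K : ℝ) ^ 1905 ≤ (d : ℝ) ^ 2000 * absLogHeight₁ α := by
    intro k hk1 c h1 h2
    rw [div_le_iff₀ (by positivity)]
    refine (h2.trans h1).trans ?_
    rw [hNr, mul_pow]
    have h3 : (K : ℝ) ^ k ≤ (K : ℝ) ^ 1905 := pow_le_pow_right₀ hK1 hk1
    have h4 : (d : ℝ) ^ k ≤ (d : ℝ) ^ 2000 := pow_le_pow_right₀ hd1' (by omega)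
    calc (K : ℝ) ^ k * (d : ℝ) ^ k * absLogHeight₁ α ≤
          (K : ℝ) ^ 1905 * (d : ℝ) ^ 2000 * absLogHeight₁ α :=
          mul_le_mul_of_nonneg_right (mul_le_mul h3 h4 (by positivity) (by positivity)) hh0
      _ = (d : ℝ) ^ 2000 * absLogHeight₁ α * (K : ℝ) ^ 1905 := by ring
  by_cases hcase : 1 / 100 < (N : ℝ) ^ 1200 * absLogHeight₁ α
  · exact hfin 1200 (by norm_num) (1 / 100) hcase.le (min_le_left _ _)
  push Not at hcase
  have hN300 : (300 : ℝ) * d ≤ N := by exact_mod_cast hNd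
  have hN300' : (300 : ℝ) ≤ N := by linarith
  have hlog : 1 ≤ Real.log N := by
    rw [Real.le_log_iff_exp_le (by linarith)]
    have := Real.exp_one_lt_three
    linarith
  have hT3 : 3 ≤ N ^ 32 := by
    have h1 : 300 ≤ N := by omega
    calc 3 ≤ N := by omega
      _ ≤ N ^ 32 := Nat.le_self_pow (by norm_num) N
  have hdT : d < N ^ 32 := by
    calc d < N := by omega
      _ ≤ N ^ 32 := Nat.le_self_pow (by norm_num) N
  have hhyp : 4 * ((N ^ 1150 : ℕ) : ℝ) * (d : ℝ) * absLogHeight₁ α + 2 * Real.log (2 * (d : ℝ)) <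
      Real.log ((N ^ 32 : ℕ) : ℝ) := by
    have h1 : 4 * ((N ^ 1150 : ℕ) : ℝ) * (d : ℝ) * absLogHeight₁ α ≤
        4 * ((N : ℝ) ^ 1200 * absLogHeight₁ α) := by
      have h2 : ((N ^ 1150 : ℕ) : ℝ) * (d : ℝ) ≤ (N : ℝ) ^ 1200 := by
        push_cast
        calc (N : ℝ) ^ 1150 * d ≤ (N : ℝ) ^ 1150 * N := by
              refine mul_le_mul_of_nonneg_left ?_ (by positivity)
              linarith
          _ = (N : ℝ) ^ 1151 := by ring
          _ ≤ (N : ℝ) ^ 1200 := pow_le_pow_right₀ (by linarith) (by norm_num)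
      have h3 := mul_le_mul_of_nonneg_right h2 hh0
      nlinarith
    have h4 : Real.log (2 * (d : ℝ)) ≤ Real.log N := Real.log_le_log (by linarith) (by linarith)
    have h5 : Real.log ((N ^ 32 : ℕ) : ℝ) = 32 * Real.log N := by
      push_cast
      rw [Real.log_pow]
      norm_num
    rw [h5]
    linarith
  obtain ⟨n', ξ', η, hD', ⟨k', hk', hη⟩, hpr, hmd'⟩ :=
    desc_allG hDat (N ^ 32) (N ^ 1150) d hT3 hdT α hmd hhyp
  have hη0 : η ≠ 0 := by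
    rintro rfl
    rw [zero_pow (by omega)] at hη
    exact zero_ne_one hη
  have hht : absLogHeight₁ (η * α) = absLogHeight₁ α := height_root η α k' hk' hη
  have hηα : ∀ k : ℕ, 1 ≤ k → ∀ j : ℤ, (η * α) ^ k ≠ (b : Ω) ^ j := by
    intro k hk1 j h3
    refine hk (k * k') (Nat.mul_pos hk1 hk') (j * k') ?_
    have h4 : (η * α) ^ (k * k') = α ^ (k * k') := by
      rw [mul_pow, mul_comm k k', pow_mul η, hη, one_pow, one_mul]
    rw [← h4, pow_mul, h3, zpow_mul, zpow_natCast]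
  obtain ⟨r, z, hr, hz0, hrel, hDr, hzd, horb⟩ := exists_min hD' (η * α) (mul_ne_zero hη0 hα0) d hmd'
  have hb1 : 1 ≤ b := by omega
  have hidx' : Real.log (Pool.Agent.H69.BD.idxZ (x ^ r)) ≤ ι * ((m / r : ℕ) : ℝ) := by
    have h1 := idx_div b m r hb1 hD'.hm x hD'.pow hD'.deg hr
    have hr1 : 1 ≤ r := Nat.pos_of_dvd_of_pos hr hD'.hm
    have h2 : (m : ℝ) = r * ((m / r : ℕ) : ℝ) := by
      rw [← Nat.cast_mul, Nat.mul_div_cancel' hr]
    have h3 : (r : ℝ) * Real.log (Pool.Agent.H69.BD.idxZ (x ^ r)) ≤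
        r * (ι * ((m / r : ℕ) : ℝ)) := by
      calc (r : ℝ) * Real.log (Pool.Agent.H69.BD.idxZ (x ^ r)) ≤ ι * m := h1.trans hidx
        _ = r * (ι * ((m / r : ℕ) : ℝ)) := by
          rw [h2]
          ring
    exact le_of_mul_le_mul_left h3 (by exact_mod_cast hr1)
  rcases Nat.lt_or_ge (m / r) (N ^ 380) with hcs | hcs
  · have h1 := fdb_small hb hD hDr (η * α) z hz0 hrel hηα N d hN1 (by omega) (by omega) hzd hcs hpr
    rw [hht] at h1
    exact hfin 1905 le_rfl c₁ h1 ((min_le_right _ _).trans (min_le_left _ _))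
  · have hlogb : 2 * Real.log b ≤ c₀ * N := by
      have h1 : 2 * Real.log b / c₀ ≤ N := by
        refine (Nat.le_ceil _).trans ?_
        have h2 : ⌈2 * Real.log b / c₀⌉₊ ≤ N := by omega
        exact_mod_cast h2
      rw [div_le_iff₀ hc₀] at h1
      linarith
    have h1 := fdb_large hb hL hDr hidx' (η * α) z (mul_ne_zero hη0 hα0) hz0 hrel hηα N d hN1
      (by omega) hNd hlogb hzd hcs hpr horb
    rw [hht] at h1
    exact hfin 370 (by norm_num) (c₀ / 2) h1 ((min_le_right _ _).trans (min_le_right _ _))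

end Pool.Agent.H36.LG
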