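import Pool.Agent.H36.LE.PbA
import Pool.Agent.H36.LE.PbB

/-!
# THEOREM L without s (MP_187c26_nt): Bezout for the dimension of the quotient

`P`, `Q ∈ k[X][Y]` not `0` without common factor, `J` an ideal with `P, Q ∈ J`: `dim_k k[X][Y]/J ≤ a₁ b₂ + a₂ b₁`, `a₁ = dX P`, `b₁ = natDegree P`, `a₂ = dX Q`, `b₂ = natDegree Q`.
PROOF. `C := a₁ b₂ + a₂ b₁`. (1) For every `N ≥ a₁ + a₂, b₁ + b₂`: `B := BS k N N`, `dim B = N^2` (`finrank_BS`). `ML P N N = B ⊓ {multiples of P}` has dimension `(N - a₁)(N - b₁)` (`finrank_ML`), the same for `Q`, and `ML P N N ⊓ ML Q N N = ML (P Q) N N` (`P`, `Q` relatively prime in a UFD: `IsRelPrime.mul_dvd`), of dimension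
`(N - a₁ - a₂)(N - b₁ - b₂)` (`dX_mul`, `natDegree_mul`). So `dim (ML P ⊔ ML Q) = (N - a₁)(N - b₁) + (N - a₂)(N - b₂) - (N - a₁ - a₂)(N - b₁ - b₂) = N^2 - C` (`Submodule.finrank_sup_add_finrank_inf_eq`; check: `a₁ b₂ + a₂ b₁` appears because `(a₁ + a₂)(b₁ + b₂) - a₁ b₁ - a₂ b₂ = C`). `ML P ⊔ ML Q ≤ B ⊓ J`.
So the image of `B` in `k[X][Y]/J` has dimension at most `C` (rank-nullity for the quotient map restricted to `B`).
(2) Any finite family of `k`-independent elements of the quotient lies in the image of `B` for large `N` (`mem_BS`), so its cardinality is at most `C`: the quotient is finite dimensional of dimension `≤ C` (`Module.rank_le`/`rank_le_of_...` then `Module.finite_of_rank_lt_aleph0`, or: the images of the `B_N` are an increasing sequence of subspaces of bounded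
dimension with union everything, so it is stationary: choose `N` with the image of maximal dimension).
-/

set_option autoImplicit false

open Polynomial
open scoped Polynomial.Bivariate

namespace Pool.Agent.H36.LG

open Pool.Agent.H36.LE

private theorem bz_ar (N a b c d : ℕ) (h1 : a + c ≤ N) (h2 : b + d ≤ N) :
    N * N + (N - (a + c)) * (N - (b + d)) = (N - a) * (N - b) + (N - c) * (N - d) + (a * d + c * b) := by
  obtain ⟨u, hu⟩ := Nat.exists_eq_add_of_le h1
  obtain ⟨v, hv⟩ := Nat.exists_eq_add_of_le h2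
  have e1 : N - (a + c) = u := by omega
  have e2 : N - (b + d) = v := by omega
  have e3 : N - a = c + u := by omega
  have e4 : N - b = d + v := by omega
  have e5 : N - c = a + u := by omega
  have e6 : N - d = b + v := by omega
  rw [e1, e2, e3, e4, e5, e6]
  have h3 : N * N = (a + c + u) * (b + d + v) := by rw [← hu, ← hv]
  rw [h3]
  ring

private theorem bz_rk {k V W : Type} [Field k] [AddCommGroup V] [Module k V] [AddCommGroup W]
    [Module k W] (g : V →ₗ[k] W) (B S : Submodule k V) [Module.Finite k B] (hSB : S ≤ B)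
    (hSk : ∀ R ∈ S, g R = 0) :
    Module.finrank k (B.map g) + Module.finrank k S ≤ Module.finrank k B := by
  set f : B →ₗ[k] W := g ∘ₗ B.subtype with hf
  have hr : LinearMap.range f = B.map g := by
    rw [hf, LinearMap.range_comp, Submodule.range_subtype]
  have hrk := LinearMap.finrank_range_add_finrank_ker f
  rw [hr] at hrk
  have hSk : S.comap B.subtype ≤ LinearMap.ker f := fun R hR => hSk R.1 hR
  have h5 := Submodule.finrank_mono hSk
  rw [(Submodule.comapSubtypeEquivOfLe hSB).finrank_eq] at h5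
  omega

private theorem bz_inf {k : Type} [Field k] (P Q : k[X][Y]) (h : IsRelPrime P Q) (N : ℕ) :
    ML P N N ⊓ ML Q N N = ML (P * Q) N N := by
  ext R
  constructor
  · rintro ⟨h1, h2⟩
    exact ⟨h1.1, h.mul_dvd h1.2 h2.2⟩
  · rintro ⟨h1, h2⟩
    exact ⟨⟨h1, (Dvd.intro _ rfl).trans h2⟩, ⟨h1, (Dvd.intro_left _ rfl).trans h2⟩⟩

private theorem bz_one {k : Type} [Field k] (P Q : k[X][Y]) (hP : P ≠ 0) (hQ : Q ≠ 0)
    (h : IsRelPrime P Q) (J : Ideal k[X][Y]) (hPJ : P ∈ J) (hQJ : Q ∈ J) (N : ℕ)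
    (h1 : dX P + dX Q ≤ N) (h2 : P.natDegree + Q.natDegree ≤ N) :
    Module.finrank k ((BS k N N).map (Ideal.Quotient.mkₐ k J).toLinearMap) ≤
      dX P * Q.natDegree + dX Q * P.natDegree := by
  have hnB : Module.Finite k (BS k N N) := inferInstance
  have hle : ∀ G : k[X][Y], ML G N N ≤ BS k N N := fun G R hR => hR.1
  have hno := isNoetherian_of_isNoetherianRing_of_finite k (BS k N N)
  have hfin : ∀ S : Submodule k k[X][Y], S ≤ BS k N N → Module.Finite k S := fun S hS =>
    Module.Finite.of_injective (Submodule.inclusion hS) (Submodule.inclusion_injective hS)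
  have hf1 := hfin _ (hle P)
  have hf2 := hfin _ (hle Q)
  have hs := Submodule.finrank_sup_add_finrank_inf_eq (ML P N N) (ML Q N N)
  rw [bz_inf P Q h N, finrank_ML P hP, finrank_ML Q hQ, finrank_ML (P * Q) (mul_ne_zero hP hQ),
    dX_mul P Q hP hQ, natDegree_mul hP hQ] at hs
  have har := bz_ar N (dX P) P.natDegree (dX Q) Q.natDegree h1 h2
  have hS : ML P N N ⊔ ML Q N N ≤ BS k N N := sup_le (hle P) (hle Q)
  have hSk : ∀ R ∈ ML P N N ⊔ ML Q N N, (Ideal.Quotient.mkₐ k J).toLinearMap R = 0 := by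
    intro R hR
    have h4 : ML P N N ⊔ ML Q N N ≤ J.restrictScalars k :=
      sup_le (fun T hT => J.mem_of_dvd hT.2 hPJ) (fun T hT => J.mem_of_dvd hT.2 hQJ)
    exact Ideal.Quotient.eq_zero_iff_mem.2 (h4 hR)
  have h5 := bz_rk (Ideal.Quotient.mkₐ k J).toLinearMap (BS k N N) (ML P N N ⊔ ML Q N N) hS hSk
  rw [finrank_BS] at h5
  omega

theorem bez {k : Type} [Field k] (P Q : k[X][Y]) (hP : P ≠ 0) (hQ : Q ≠ 0) (h : IsRelPrime P Q)
    (J : Ideal k[X][Y]) (hPJ : P ∈ J) (hQJ : Q ∈ J) :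
    Module.Finite k (k[X][Y] ⧸ J) ∧
      Module.finrank k (k[X][Y] ⧸ J) ≤ dX P * Q.natDegree + dX Q * P.natDegree := by
  classical
  set C := dX P * Q.natDegree + dX Q * P.natDegree with hC
  set W : ℕ → Submodule k (k[X][Y] ⧸ J) := fun N =>
    (BS k N N).map (Ideal.Quotient.mkₐ k J).toLinearMap with hW
  set N₁ := max (dX P + dX Q) (P.natDegree + Q.natDegree) with hN₁
  have hb : ∀ N, N₁ ≤ N → Module.finrank k (W N) ≤ C := fun N hN =>
    bz_one P Q hP hQ h J hPJ hQJ N ((le_max_left _ _).trans hN) ((le_max_right _ _).trans hN)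
  have hmono : ∀ N M, N ≤ M → W N ≤ W M := by
    intro N M hNM
    refine Submodule.map_mono fun R hR => ?_
    rw [mem_BS] at hR ⊢
    rcases hR with hR | ⟨h1, h2⟩
    · exact Or.inl hR
    · exact Or.inr ⟨h1.trans_le hNM, h2.trans_le hNM⟩
  have hWf : ∀ N, Module.Finite k (W N) := fun N => inferInstance
  have hex : ∃ d, ∃ N, N₁ ≤ N ∧ d = C - Module.finrank k (W N) := ⟨_, N₁, le_rfl, rfl⟩
  obtain ⟨N₀, hN₀, hd⟩ := Nat.find_spec hex
  have hmin : ∀ N, N₁ ≤ N → Module.finrank k (W N) ≤ Module.finrank k (W N₀) := by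
    intro N hN
    have h1 := Nat.find_min' hex ⟨N, hN, rfl⟩
    have h2 := hb N hN
    have h3 := hb N₀ hN₀
    omega
  have htop : W N₀ = ⊤ := by
    rw [eq_top_iff]
    rintro x -
    obtain ⟨R, rfl⟩ := Ideal.Quotient.mk_surjective x
    set M := max N₀ (max (R.natDegree + 1) (dX R + 1)) with hM
    have hMN : N₀ ≤ M := le_max_left _ _
    have h1 : W N₀ = W M := by
      have := hWf M
      exact Submodule.eq_of_le_of_finrank_le (hmono N₀ M hMN) (hmin M (hN₀.trans hMN))
    rw [h1]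
    refine ⟨R, ?_, rfl⟩
    rw [SetLike.mem_coe, mem_BS]
    right
    have h2 : max (R.natDegree + 1) (dX R + 1) ≤ M := le_max_right _ _
    exact ⟨Nat.lt_of_succ_le ((le_max_left _ _).trans h2),
      Nat.lt_of_succ_le ((le_max_right _ _).trans h2)⟩
  have hfin : Module.Finite k (k[X][Y] ⧸ J) := by
    rw [Module.finite_def, ← htop]
    exact (Submodule.fg_top _).1 (hWf N₀).fg_top
  refine ⟨hfin, ?_⟩
  have h1 := hb N₀ hN₀
  rw [htop, finrank_top] at h1
  exact h1

end Pool.Agent.H36.LG
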