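import Pool.Agent.H36.LG.BzA
import Pool.Agent.H36.LF.SaA

/-!
# THEOREM L without s (MP_187c26_nt): Bezout for several Galois orbits, twisted

Imports may be sorried (`bez`).
`pt σ u v P = P^σ(u, v)`, a ring homomorphism `k[X][Y] → E` (semilinear).
PROOFS. `pt_quot`: `pt σ u v` has the image `k[u, v] = k(u, v)` (`u`, `v` integral over `k`, `σ` surjective; `IntermediateField.adjoin` of algebraic elements is the subalgebra `Algebra.adjoin k {u, v}`, `IntermediateField.adjoin_toSubalgebra_of_isAlgebraic`-type lemma), a field, so the kernel is maximal, and `k[X][Y]/ker ≃ k(u, v)` as rings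
(`RingHom.quotientKerEquivRange`), semilinear with respect to `σ : k ≃ k`: equal dimensions (`Algebra.finrank_eq_of_equiv_equiv` or `rank_eq_of_equiv_equiv`).
`bez_orbits`: the ideals `I_q := ker (pt (σ q) (u q) (v q))`, `q ∈ S`, are maximal and pairwise different, so pairwise coprime; `J := ⨅ I_q`; `bez`: `dim k[X][Y]/J ≤ a₁ b₂ + a₂ b₁`; Chinese remainder theorem (`Ideal.quotientInfRingEquivPiQuotient`, it is `k`-linear): `dim k[X][Y]/J = ∑ dim k[X][Y]/I_q = ∑ [k(u_q, v_q) : k]`.
`small_pt`: if `G ∤ Q`, then `Q ≠ 0` and `G`, `Q` are relatively prime (`G` irreducible: `Irreducible.isRelPrime_iff_not_dvd`); `bez` for `J = ker (pt id u v)` and `pt_quot`: `[k(u, v) : k] ≤ dX G natDegree Q + dX Q natDegree G`, contradiction.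
-/

set_option autoImplicit false

open Polynomial IntermediateField
open scoped Polynomial.Bivariate

namespace Pool.Agent.H36.LG

open Pool.Agent.H36.LE Pool.Agent.H36.LF

variable {k E : Type} [Field k] [Field E] [Algebra k E]

/-- `P ↦ P^σ(u, v)`. -/
noncomputable def pt (σ : k →+* k) (u v : E) : k[X][Y] →+* E :=
  ((aevalAeval (R := k) u v : k[X][Y] →ₐ[k] E) : k[X][Y] →+* E).comp (tw σ)

theorem pt_apply (σ : k →+* k) (u v : E) (P : k[X][Y]) :
    pt σ u v P = aevalAeval (R := k) u v (tw σ P) := rfl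

private theorem aev_range (u v : E) (hu : IsIntegral k u) (hv : IsIntegral k v) (y : E) :
    y ∈ IntermediateField.adjoin k ({u, v} : Set E) ↔
      ∃ P : k[X][Y], aevalAeval (R := k) u v P = y := by
  have h1 : (IntermediateField.adjoin k ({u, v} : Set E)).toSubalgebra =
      Algebra.adjoin k ({u, v} : Set E) := by
    refine IntermediateField.adjoin_toSubalgebra_of_isAlgebraic ?_
    rintro x (rfl | hx)
    · exact hu.isAlgebraic
    · rw [Set.mem_singleton_iff] at hx
      rw [hx]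
      exact hv.isAlgebraic
  have h2 : Algebra.adjoin k ({u, v} : Set E) =
      (aevalAeval (R := k) u v : k[X][Y] →ₐ[k] E).range := by
    apply le_antisymm
    · rw [Algebra.adjoin_le_iff]
      rintro x (rfl | hx)
      · exact ⟨C X, aevalAeval_X _ _⟩
      · rw [Set.mem_singleton_iff] at hx
        rw [hx]
        exact ⟨Y, aevalAeval_Y _ _⟩
    · rintro _ ⟨P, rfl⟩
      induction P using Polynomial.induction_on' with
      | add P Q hP hQ =>
        have e1 : (aevalAeval (R := k) u v : k[X][Y] →ₐ[k] E).toRingHom (P + Q) =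
          (aevalAeval (R := k) u v : k[X][Y] →ₐ[k] E).toRingHom P +
          (aevalAeval (R := k) u v : k[X][Y] →ₐ[k] E).toRingHom Q := map_add _ _ _
        rw [e1]
        exact add_mem hP hQ
      | monomial n f =>
        have e1 : (aevalAeval (R := k) u v : k[X][Y] →ₐ[k] E).toRingHom (monomial n f) =
            aeval u f * v ^ n := by
          change aevalAeval (R := k) u v (monomial n f) = _
          rw [← C_mul_X_pow_eq_monomial, map_mul, map_pow, aevalAeval_C, aevalAeval_Y]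
        rw [e1]
        have e3 : v ∈ Algebra.adjoin k ({u, v} : Set E) :=
          Algebra.subset_adjoin (Or.inr (Set.mem_singleton v))
        refine mul_mem ?_ (pow_mem e3 _)
        have e2 : Algebra.adjoin k ({u} : Set E) ≤ Algebra.adjoin k ({u, v} : Set E) :=
          Algebra.adjoin_mono (by rw [Set.singleton_subset_iff]; exact Or.inl rfl)
        exact e2 (aeval_mem_adjoin_singleton k u)
  rw [← IntermediateField.mem_toSubalgebra, h1, h2]
  rfl

private theorem tw_id (P : k[X][Y]) : tw (RingHom.id k) P = P := by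
  unfold tw
  rw [mapRingHom_id, mapRingHom_id]
  rfl

private theorem tw_surj (σ : k →+* k) (hσ : Function.Bijective σ) (P : k[X][Y]) :
    ∃ Q, tw σ Q = P := by
  unfold tw
  exact map_surjective _ (map_surjective _ hσ.2) P

theorem pt_quot (σ : k →+* k) (hσ : Function.Bijective σ) (u v : E) (hu : IsIntegral k u)
    (hv : IsIntegral k v) : (RingHom.ker (pt σ u v)).IsMaximal ∧
      Module.finrank k (k[X][Y] ⧸ RingHom.ker (pt σ u v)) =
        Module.finrank k (IntermediateField.adjoin k ({u, v} : Set E)) := by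
  have hmem : ∀ P, pt σ u v P ∈ IntermediateField.adjoin k ({u, v} : Set E) := by
    intro P
    rw [aev_range u v hu hv]
    exact ⟨tw σ P, rfl⟩
  obtain ⟨ψ, hψ⟩ : ∃ ψ : k[X][Y] →+* IntermediateField.adjoin k ({u, v} : Set E),
      ∀ P, (ψ P : E) = pt σ u v P := ⟨(pt σ u v).codRestrict _ hmem, fun P => rfl⟩
  have hs : Function.Surjective ψ := by
    intro y
    obtain ⟨P, hP⟩ := (aev_range u v hu hv y).1 y.2
    obtain ⟨Q, hQ⟩ := tw_surj σ hσ P
    refine ⟨Q, Subtype.ext ?_⟩
    rw [hψ, pt_apply, hQ, hP]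
  have hk : RingHom.ker ψ = RingHom.ker (pt σ u v) := by
    ext P
    rw [RingHom.mem_ker, RingHom.mem_ker, ← hψ, ZeroMemClass.coe_eq_zero]
  rw [← hk]
  refine ⟨RingHom.ker_isMaximal_of_surjective ψ hs, ?_⟩
  refine Algebra.finrank_eq_of_equiv_equiv (RingEquiv.ofBijective σ hσ)
    (RingHom.quotientKerEquivOfSurjective hs) ?_
  ext a
  change algebraMap k E (σ a) = ((ψ (C (C a)) : IntermediateField.adjoin k ({u, v} : Set E)) : E)
  rw [hψ, pt_apply]
  have h1 : tw σ (C (C a)) = C (C (σ a)) := by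
    simp [tw]
  rw [h1, aevalAeval_C, aeval_C]

theorem bez_orbits (P Q : k[X][Y]) (hP : P ≠ 0) (hQ : Q ≠ 0) (h : IsRelPrime P Q) (S : Finset ℕ)
    (σ : ℕ → (k →+* k)) (hσ : ∀ q ∈ S, Function.Bijective (σ q)) (u v : ℕ → E)
    (hu : ∀ q ∈ S, IsIntegral k (u q)) (hv : ∀ q ∈ S, IsIntegral k (v q))
    (hne : ∀ q ∈ S, ∀ q' ∈ S, q ≠ q' →
      RingHom.ker (pt (σ q) (u q) (v q)) ≠ RingHom.ker (pt (σ q') (u q') (v q')))
    (hP0 : ∀ q ∈ S, pt (σ q) (u q) (v q) P = 0) (hQ0 : ∀ q ∈ S, pt (σ q) (u q) (v q) Q = 0) :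
    ∑ q ∈ S, Module.finrank k (IntermediateField.adjoin k ({u q, v q} : Set E)) ≤
      dX P * Q.natDegree + dX Q * P.natDegree := by
  classical
  have hI : ∀ q : {q // q ∈ S}, Module.Finite k (k[X][Y] ⧸ RingHom.ker (pt (σ q) (u q) (v q))) :=
    fun q => (bez P Q hP hQ h _ (RingHom.mem_ker.2 (hP0 q q.2)) (RingHom.mem_ker.2 (hQ0 q q.2))).1
  have hF : ∀ q : {q // q ∈ S}, Module.Free k (k[X][Y] ⧸ RingHom.ker (pt (σ q) (u q) (v q))) :=
    fun q => Module.Free.of_divisionRing k _
  have hJ := (bez P Q hP hQ h (⨅ q : {q // q ∈ S}, RingHom.ker (pt (σ q) (u q) (v q)))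
    (by rw [Ideal.mem_iInf]; exact fun q => RingHom.mem_ker.2 (hP0 q q.2))
    (by rw [Ideal.mem_iInf]; exact fun q => RingHom.mem_ker.2 (hQ0 q q.2))).2
  refine le_trans (le_of_eq ?_) hJ
  have hco : Pairwise (Function.onFun IsCoprime
      fun q : {q // q ∈ S} => RingHom.ker (pt (σ q) (u q) (v q))) := by
    intro q q' hqq
    have hm := (pt_quot (σ q) (hσ q q.2) (u q) (v q) (hu q q.2) (hv q q.2)).1
    have hm' := (pt_quot (σ q') (hσ q' q'.2) (u q') (v q') (hu q' q'.2) (hv q' q'.2)).1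
    exact Ideal.isCoprime_of_isMaximal (hne q q.2 q' q'.2 fun h1 => hqq (Subtype.ext h1))
  rw [Algebra.finrank_eq_of_equiv_equiv (RingEquiv.refl k)
    (Ideal.quotientInfRingEquivPiQuotient _ hco) (by ext a; rfl)]
  refine Eq.trans ?_ (Module.finrank_pi_fintype k
    (M := fun q : {q // q ∈ S} => k[X][Y] ⧸ RingHom.ker (pt (σ q) (u q) (v q)))).symm
  rw [← Finset.sum_coe_sort S]
  refine Finset.sum_congr rfl fun q _ => ?_
  exact (pt_quot (σ q) (hσ q q.2) (u q) (v q) (hu q q.2) (hv q q.2)).2.symm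

theorem small_pt (u v : E) (hu : IsIntegral k u) (hv : IsIntegral k v) (G Q : k[X][Y])
    (hG : Irreducible G) (hQ : Q ≠ 0) (hG0 : aevalAeval (R := k) u v G = 0)
    (hQ0 : aevalAeval (R := k) u v Q = 0)
    (hlt : dX G * Q.natDegree + dX Q * G.natDegree <
      Module.finrank k (IntermediateField.adjoin k ({u, v} : Set E))) : G ∣ Q := by
  by_contra hd
  have h1 : IsRelPrime G Q := hG.isRelPrime_iff_not_dvd.2 hd
  have h2 : ∀ P, pt (RingHom.id k) u v P = aevalAeval (R := k) u v P := by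
    intro P
    rw [pt_apply, tw_id]
  have h3 := (bez G Q hG.ne_zero hQ h1 (RingHom.ker (pt (RingHom.id k) u v))
    (RingHom.mem_ker.2 (by rw [h2, hG0])) (RingHom.mem_ker.2 (by rw [h2, hQ0]))).2
  rw [(pt_quot (RingHom.id k) Function.bijective_id u v hu hv).2] at h3
  exact absurd hlt (not_lt.2 h3)

end Pool.Agent.H36.LG
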