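import Pool.Agent.H36.LG.BzB
import Pool.Agent.H36.LE.PbD

/-!
# THEOREM L without s (MP_187c26_nt), step A with orbits

MODEL: `stepAA` in `Pool/Agent/H36/LF/SaA.lean` (copy and change). Imports may be sorried (`bez_orbits`, `gcd_two`, `finrank_le_of_dvd`, `natDegree_tw`, `dX_tw`, `sig_bij`).
PROOF. `V := VsA A σ x a n L 1 𝒬`, `G`, `P₁`, `P₂` of `gcd_two`; `dX G < n`, `natDegree G < L`, `dX G L + (n - dX G) natDegree G ≤ D` as in the model; `dX P_i ≤ n - 1`, `natDegree P_i ≤ L - 1`. Suppose `(tw (σ q) G)(x^q, a^q) ≠ 0` for all `q ∈ 𝒬`. Then `pt (σ q) (x^q) (a^q) P_i = 0`. The kernels are pairwise different: `R_q := X^m - b^q` (as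
`C (X ^ m - C (b^q))`) is in the kernel for `q` (`tw σ` fixes it, `x^(q m) = b^q`); if the kernels for `q ≠ q'` were equal, the nonzero constant `b^q - b^(q')` would be in it. `bez_orbits`: `m #𝒬 ≤ ∑ [A(x^q, a^q) : A] ≤ 2 (n - 1)(L - 1) < 2 n L ≤ m #𝒬`: contradiction. So `(tw (σ q) G)(x^q, a^q) = 0` for some `q`; `G₀` an irreducible factor of `tw (σ q) G`
vanishing at the point. `natDegree G₀ ≥ 1`: otherwise `G₀ = C f`, `f ≠ 0`, `f(x^q) = 0`, `natDegree f ≤ n - 1`, but `[A(x^q) : A] ≥ m/q` (`A(x)` is generated over `A(x^q)` by `x`, a root of `X^q - x^q`: `m = [A(x) : A] ≤ q [A(x^q) : A]`), so `m ≤ q (n - 1) < m`.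
-/

set_option autoImplicit false

open Polynomial NumberField IntermediateField
open scoped Polynomial.Bivariate

namespace Pool.Agent.H36.LG

open Pool.Agent.H36.LE Pool.Agent.H36.LF

theorem stepAB {A E : Type} [Field A] [NumberField A] [Field E] [Algebra A E] {b m : ℕ} {x : E}
    (hb : 2 ≤ b) (hm : 1 ≤ m) (hx : x ^ m = (b : E)) (hdeg : Module.finrank A A⟮x⟯ = m)
    (σ : ℕ → (A →+* A)) (a : E) (ha : IsIntegral A a) (n L D : ℕ) (𝒬 : Finset ℕ)
    (h𝒬 : ∀ q ∈ 𝒬, 1 ≤ q ∧ (n - 1) * q < m ∧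
      m ≤ Module.finrank A (IntermediateField.adjoin A ({x ^ q, a ^ q} : Set E)))
    (hD : n * L - Module.finrank A (VsA A σ x a n L 1 𝒬) ≤ D) (hDn : D < n * L)
    (hc : 2 * n * L ≤ m * 𝒬.card) :
    ∃ q ∈ 𝒬, ∃ G : A[X][Y], Irreducible G ∧ aevalAeval (R := A) (x ^ q) (a ^ q) G = 0 ∧
      dX G < n ∧ G.natDegree < L ∧ 1 ≤ G.natDegree ∧
      dX G * L + (n - dX G) * G.natDegree ≤ D := by
  classical
  obtain ⟨V, hV⟩ : ∃ V, V = VsA A σ x a n L 1 𝒬 := ⟨_, rfl⟩
  rw [← hV] at hD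
  have hVB : V ≤ BS A n L := by
    rw [hV]
    exact fun P hP => hP.1
  have := isNoetherian_of_isNoetherianRing_of_finite A (BS A n L)
  have hfin : Module.Finite A V :=
    Module.Finite.of_injective (Submodule.inclusion hVB) (Submodule.inclusion_injective hVB)
  have hVne : V ≠ ⊥ := by
    intro h
    rw [h, finrank_bot] at hD
    omega
  obtain ⟨G, P₁, P₂, hG0, hGd, hG1, hG2, h1, h2, hrel⟩ := gcd_two V hVne
  have hle := finrank_le_of_dvd G hG0 n L V hVB hGd
  have hD' : n * L ≤ D + Module.finrank A V := by omega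
  have hpos : 0 < (n - dX G) * (L - G.natDegree) := by omega
  have hn1 : dX G < n := by
    by_contra h
    rw [Nat.sub_eq_zero_of_le (not_lt.1 h), zero_mul] at hpos
    exact lt_irrefl _ hpos
  have hL1 : G.natDegree < L := by
    by_contra h
    rw [Nat.sub_eq_zero_of_le (not_lt.1 h), mul_zero] at hpos
    exact lt_irrefl _ hpos
  have hGD : dX G * L + (n - dX G) * G.natDegree ≤ D := by
    obtain ⟨n', hn'⟩ := Nat.exists_eq_add_of_le hn1.le
    obtain ⟨L', hL'⟩ := Nat.exists_eq_add_of_le hL1.le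
    have e1 : n - dX G = n' := by omega
    have e2 : L - G.natDegree = L' := by omega
    rw [e1, e2] at hle
    rw [e1]
    have e3 : n * L = dX G * L + n' * G.natDegree + n' * L' := by
      conv_lhs => rw [hn', add_mul]
      rw [add_assoc, ← mul_add, ← hL']
    omega
  have hbd : ∀ P, P ≠ 0 → G * P ∈ V → P.natDegree < L ∧ dX P < n := by
    intro P hP hPV
    rcases (mem_BS _ _ _).1 (hVB hPV) with h | ⟨h3, h4⟩
    · exact absurd h (mul_ne_zero hG0 hP)
    · rw [natDegree_mul hG0 hP] at h3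
      rw [dX_mul G P hG0 hP] at h4
      omega
  obtain ⟨a1, a2⟩ := hbd P₁ h1 hG1
  obtain ⟨a3, a4⟩ := hbd P₂ h2 hG2
  have hE0 : CharZero E := charZero_of_injective_algebraMap (algebraMap A E).injective
  have hq : ∃ q ∈ 𝒬, aevalAeval (R := A) (x ^ q) (a ^ q) (tw (σ q) G) = 0 := by
    by_contra hcon
    push Not at hcon
    have hP : ∀ q ∈ 𝒬, ∀ P, G * P ∈ V → pt (σ q) (x ^ q) (a ^ q) P = 0 := by
      intro q hq P hP
      rw [hV] at hP
      have h4 := hP.2.2 q hq
      rw [one_mul, map_mul, map_mul, mul_eq_zero] at h4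
      exact h4.resolve_left (hcon q hq)
    have hval : ∀ q q' : ℕ, pt (σ q) (x ^ q) (a ^ q) (C (X ^ m - C ((b : A) ^ q'))) =
        (b : E) ^ q - (b : E) ^ q' := by
      intro q q'
      rw [pt_apply, tw_C, aevalAeval_C, Polynomial.map_sub, Polynomial.map_pow, map_X, map_C, map_pow,
        map_natCast, map_sub, map_pow, aeval_X, aeval_C, map_pow, map_natCast, ← pow_mul, mul_comm q m,
        pow_mul, hx]
    have hne : ∀ q ∈ 𝒬, ∀ q' ∈ 𝒬, q ≠ q' →
        RingHom.ker (pt (σ q) (x ^ q) (a ^ q)) ≠ RingHom.ker (pt (σ q') (x ^ q') (a ^ q')) := by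
      intro q _ q' _ hqq hker
      have h5 : C (X ^ m - C ((b : A) ^ q')) ∈ RingHom.ker (pt (σ q') (x ^ q') (a ^ q')) := by
        rw [RingHom.mem_ker, hval, sub_self]
      rw [← hker, RingHom.mem_ker, hval, sub_eq_zero] at h5
      have h6 : b ^ q = b ^ q' := by exact_mod_cast h5
      exact hqq (Nat.pow_right_injective hb h6)
    have h5 := bez_orbits P₁ P₂ h1 h2 hrel 𝒬 σ (fun q _ => sig_bij (σ q)) (fun q => x ^ q)
      (fun q => a ^ q) (fun q _ => isIntegral_xA hm hx q) (fun q _ => ha.pow q) hne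
      (fun q hq => hP q hq _ hG1) (fun q hq => hP q hq _ hG2)
    have h6 : 𝒬.card * m ≤ ∑ q ∈ 𝒬, Module.finrank A
        (IntermediateField.adjoin A ({x ^ q, a ^ q} : Set E)) := by
      rw [← smul_eq_mul]
      exact Finset.card_nsmul_le_sum _ _ _ fun q hq => (h𝒬 q hq).2.2
    have b1 : dX P₁ * P₂.natDegree ≤ dX P₁ * L := Nat.mul_le_mul_left _ a3.le
    have b2 : dX P₂ * P₁.natDegree ≤ dX P₂ * L := Nat.mul_le_mul_left _ a1.le
    have b3 : (dX P₁ + 1) * L ≤ n * L := Nat.mul_le_mul_right _ a2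
    have b4 : (dX P₂ + 1) * L ≤ n * L := Nat.mul_le_mul_right _ a4
    rw [add_mul, one_mul] at b3 b4
    have b5 : 2 * n * L = n * L + n * L := by ring
    have b6 : m * 𝒬.card = 𝒬.card * m := Nat.mul_comm _ _
    omega
  obtain ⟨q, hq, hq0⟩ := hq
  have hT0 : tw (σ q) G ≠ 0 := tw_ne_zero _ _ hG0
  obtain ⟨G₀, hirr, hdvd, hG₀⟩ : ∃ G₀ : A[X][Y], Irreducible G₀ ∧ G₀ ∣ tw (σ q) G ∧
      aevalAeval (R := A) (x ^ q) (a ^ q) G₀ = 0 := by
    have h3 : aevalAeval (R := A) (x ^ q) (a ^ q)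
        (UniqueFactorizationMonoid.factors (tw (σ q) G)).prod = 0 := by
      obtain ⟨w, hw⟩ := UniqueFactorizationMonoid.factors_prod hT0
      have h4 := congrArg (aevalAeval (R := A) (x ^ q) (a ^ q)) hw
      rw [map_mul, hq0, mul_eq_zero] at h4
      exact h4.resolve_right (w.isUnit.map (aevalAeval (R := A) (x ^ q) (a ^ q))).ne_zero
    rw [map_multiset_prod, Multiset.prod_eq_zero_iff, Multiset.mem_map] at h3
    obtain ⟨G₀, hm0, h4⟩ := h3
    exact ⟨G₀, UniqueFactorizationMonoid.irreducible_of_factor G₀ hm0,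
      UniqueFactorizationMonoid.dvd_of_mem_factors hm0, h4⟩
  have hG₀0 : G₀ ≠ 0 := hirr.ne_zero
  obtain ⟨R, hR⟩ := hdvd
  have hR0 : R ≠ 0 := by
    rintro rfl
    rw [mul_zero] at hR
    exact hT0 hR
  have hn2 : dX G = dX G₀ + dX R := by rw [← dX_tw (σ q) G, hR, dX_mul G₀ R hG₀0 hR0]
  have hL2 : G.natDegree = G₀.natDegree + R.natDegree := by
    rw [← natDegree_tw (σ q) G, hR, natDegree_mul hG₀0 hR0]
  refine ⟨q, hq, G₀, hirr, hG₀, by omega, by omega, ?_, ?_⟩
  · by_contra hcon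
    have h3 : G₀.natDegree = 0 := by omega
    have h4 := eq_C_of_natDegree_eq_zero h3
    obtain ⟨f, hf⟩ : ∃ f : A[X], G₀ = C f := ⟨_, h4⟩
    have hf0 : f ≠ 0 := by
      rintro rfl
      rw [C_0] at hf
      exact hG₀0 hf
    rw [hf, aevalAeval_C] at hG₀
    obtain ⟨hq1, hq2, -⟩ := h𝒬 q hq
    have hx1 : IsIntegral A x := by
      have h5 := isIntegral_xA (A := A) hm hx 1
      rwa [pow_one] at h5
    have h5 : expand A q f ≠ 0 := (expand_ne_zero (by omega)).2 hf0
    have h6 : aeval x (expand A q f) = 0 := by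
      rw [expand_aeval]
      exact hG₀
    have h7 := natDegree_le_of_dvd (minpoly.dvd A x h6) h5
    rw [natDegree_expand, ← adjoin.finrank hx1, hdeg] at h7
    have h8 : dX G₀ = f.natDegree := by rw [hf, dX_C]
    have h9 : f.natDegree * q ≤ (n - 1) * q := Nat.mul_le_mul_right _ (by omega)
    omega
  · refine le_trans ?_ hGD
    have e1 : n - dX G₀ = (n - dX G) + dX R := by omega
    rw [e1, hn2, hL2]
    have e2 : dX R * G₀.natDegree ≤ dX R * L := Nat.mul_le_mul_left _ (by omega)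
    have e3 : n - (dX G₀ + dX R) = n - dX G := by rw [hn2]
    rw [e3]
    have e4 : (n - dX G + dX R) * G₀.natDegree = (n - dX G) * G₀.natDegree + dX R * G₀.natDegree := by ring
    have e5 : (dX G₀ + dX R) * L = dX G₀ * L + dX R * L := by ring
    have e6 : (n - dX G) * (G₀.natDegree + R.natDegree) =
      (n - dX G) * G₀.natDegree + (n - dX G) * R.natDegree := by ring
    rw [hn2] at e4 e6
    rw [hn2]
    omega

end Pool.Agent.H36.LG
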