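import Pool.Agent.H36.LG.BzB

/-!
# THEOREM L without s (MP_187c26_nt), step B with orbits

MODEL: `stepBA` in `Pool/Agent/H36/LF/SbA.lean` (copy and change; `small_pt` in the place of `small_root`: `G(x^q, a^q) = 0`, `(ex l (tw (σ l) P))(x^q, a^q) = 0`, and `dX G natDegree (ex l ..) + dX (ex l ..) natDegree G < m ≤ [A(x^q, a^q) : A]`). Imports may be sorried.
-/

set_option autoImplicit false

open Polynomial NumberField IntermediateField
open scoped Polynomial.Bivariate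

namespace Pool.Agent.H36.LG

open Pool.Agent.H36.LE Pool.Agent.H36.LF

theorem stepBB {A E : Type} [Field A] [NumberField A] [Field E] [Algebra A E] {b m : ℕ} {x : E}
    (hb : 1 ≤ b) (hm : 1 ≤ m) (hx : x ^ m = (b : E)) (σ : ℕ → (A →+* A)) (a : E)
    (ha : IsIntegral A a) (q : ℕ)
    (hq : m ≤ Module.finrank A (IntermediateField.adjoin A ({x ^ q, a ^ q} : Set E)))
    (G : A[X][Y]) (hG : Irreducible G)
    (h0 : aevalAeval (R := A) (x ^ q) (a ^ q) G = 0) (ℛ : Finset ℕ)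
    (hℛ : ∀ l ∈ ℛ, 1 ≤ l ∧ 35 * l * ((dX G + 1) * (G.natDegree + 1)) < m)
    (hcor : 17 * (dX G + 1) * (17 * (G.natDegree + 1)) - Module.finrank A
        (VsA A σ x a (17 * (dX G + 1)) (17 * (G.natDegree + 1)) q ℛ) ≤
      8 * (17 * (dX G + 1) * (17 * (G.natDegree + 1)) - Module.finrank A
        (VsA A σ x a (17 * (dX G + 1)) (17 * (G.natDegree + 1)) q ∅))) :
    ∃ P : A[X][Y], P ≠ 0 ∧ P.natDegree < 17 * (G.natDegree + 1) ∧
      ∀ l ∈ ℛ, G ∣ ex l (tw (σ l) P) := by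
  classical
  obtain ⟨n₀, hn₀⟩ : ∃ n₀, n₀ = dX G := ⟨_, rfl⟩
  obtain ⟨L₀, hL₀⟩ : ∃ L₀, L₀ = G.natDegree := ⟨_, rfl⟩
  rw [← hn₀, ← hL₀] at hcor hℛ
  rw [← hL₀]
  obtain ⟨n, hn⟩ : ∃ n, n = 17 * (n₀ + 1) := ⟨_, rfl⟩
  obtain ⟨L, hL⟩ : ∃ L, L = 17 * (L₀ + 1) := ⟨_, rfl⟩
  rw [← hn, ← hL] at hcor
  rw [← hL]
  have := isNoetherian_of_isNoetherianRing_of_finite A (BS A n L)
  have hfin : ∀ V : Submodule A A[X][Y], V ≤ BS A n L → Module.Finite A V := fun V h =>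
    Module.Finite.of_injective (Submodule.inclusion h) (Submodule.inclusion_injective h)
  have h1 : (n - n₀) * (L - L₀) ≤ Module.finrank A (VsA A σ x a n L q ∅) := by
    have h2 := finrank_ML G hG.ne_zero n L
    rw [← hn₀, ← hL₀] at h2
    rw [← h2]
    have h3 := hfin (VsA A σ x a n L q ∅) (fun P hP => hP.1)
    refine Submodule.finrank_mono ?_
    intro P hP
    refine ⟨hP.1, ?_, ?_⟩
    · obtain ⟨R, hR⟩ := hP.2
      rw [hR, map_mul, h0, zero_mul]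
    · intro q hq
      simp at hq
  have h2 : 0 < Module.finrank A (VsA A σ x a n L q ℛ) := by
    have e1 : n - n₀ = 16 * n₀ + 17 := by omega
    have e2 : L - L₀ = 16 * L₀ + 17 := by omega
    rw [e1, e2] at h1
    have e3 : (16 * n₀ + 17) * (16 * L₀ + 17) = 256 * (n₀ * L₀) + 272 * n₀ + 272 * L₀ + 289 := by ring
    have e4 : n * L = 289 * (n₀ * L₀) + 289 * n₀ + 289 * L₀ + 289 := by
      rw [hn, hL]
      ring
    omega
  have h3 : VsA A σ x a n L q ℛ ≠ ⊥ := by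
    intro h
    rw [h, finrank_bot] at h2
    exact lt_irrefl _ h2
  obtain ⟨P, hP, hP0⟩ := Submodule.exists_mem_ne_zero_of_ne_bot h3
  have hbd : P.natDegree < L ∧ dX P < n := ((mem_BS _ _ _).1 hP.1).resolve_left hP0
  refine ⟨P, hP0, hbd.1, fun l hl => ?_⟩
  have h5 : aevalAeval (R := A) (x ^ (q * l)) (a ^ (q * l)) (tw (σ l) P) = 0 := hP.2.2 l hl
  have hl1 := (hℛ l hl).1
  have hl2 := (hℛ l hl).2
  have h6 : aevalAeval (R := A) (x ^ q) (a ^ q) (ex l (tw (σ l) P)) = 0 := by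
    rw [ex_eval, ← pow_mul, ← pow_mul]
    exact h5
  refine small_pt (x ^ q) (a ^ q) (isIntegral_xA hm hx q) (ha.pow q) G (ex l (tw (σ l) P)) hG
    (ex_ne_zero l hl1 _ (tw_ne_zero (σ l) P hP0)) h0 h6 (lt_of_lt_of_le ?_ hq)
  rw [natDegree_ex l hl1, dX_ex l hl1, natDegree_tw, dX_tw, ← hn₀, ← hL₀]
  refine lt_of_le_of_lt ?_ hl2
  have b1 : l * P.natDegree + 1 ≤ 17 * l * (L₀ + 1) := by
    have : l * (P.natDegree + 1) ≤ l * (17 * (L₀ + 1)) := Nat.mul_le_mul_left _ (by omega)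
    nlinarith
  have b2 : n₀ * (l * P.natDegree + 1) ≤ n₀ * (17 * l * (L₀ + 1)) := Nat.mul_le_mul_left _ b1
  have b3 : l * dX P * (L₀ + 1) ≤ l * (17 * (n₀ + 1)) * (L₀ + 1) :=
    Nat.mul_le_mul_right _ (Nat.mul_le_mul_left _ (by omega))
  nlinarith [Nat.zero_le (l * (L₀ + 1)), Nat.zero_le (l * ((n₀ + 1) * (L₀ + 1)))]

end Pool.Agent.H36.LG
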