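import Pool.Agent.H36.LG.FaB
import Pool.Agent.H36.LG.SbB
import Pool.Agent.H36.LF.ScI

/-!
# THEOREM L without s (MP_187c26_nt), parameters, part 2

MODEL: `finBA` in `Pool/Agent/H36/LF/FbA.lean` (copy and change: `finAB`, `corB`, `stepBB`, `stepCA` (used unchanged); `ℛ := {l ∈ [1, N^33] prime, N^33 < 4 l}`, all primes, `many_primes`; the inequalities `(n - 1) q < m`, `(n - 1) q l < m` are strict). Imports may be sorried.
-/

set_option autoImplicit false

open Polynomial NumberField IntermediateField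
open scoped Polynomial.Bivariate

namespace Pool.Agent.H36.LG

open Pool.Agent.H36.LE Pool.Agent.H36.LF

private theorem ht_nn {Ω : Type} [Field Ω] [CharZero Ω] (x : Ω) : 0 ≤ absLogHeight₁ x := by
  unfold absLogHeight₁
  refine Real.log_nonneg ?_
  unfold absMulHeight₁
  split_ifs with hx
  · have : FiniteDimensional ℚ ℚ⟮x⟯ := adjoin.finiteDimensional hx
    have : NumberField ℚ⟮x⟯ := {}
    exact Real.one_le_rpow (Height.one_le_mulHeight₁ _) (by positivity)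
  · exact le_rfl

/-- sizes, in natural numbers -/
private theorem szn {N m n₀ : ℕ} (hN : 1000 ≤ N) (hm : N ^ 90 ≤ m) (hn : n₀ * N ^ 88 ≤ 8 * m) :
    17 * (n₀ + 1) * N ^ 85 ≤ m ∧ 70 * (n₀ + 1) * N ^ 86 < m := by
  have h0 : 0 < N := by omega
  have hm0 : 0 < m := lt_of_lt_of_le (pow_pos h0 90) hm
  have h88 : 1000 * N ^ 88 ≤ m := by
    refine le_trans ?_ hm
    calc 1000 * N ^ 88 ≤ N ^ 2 * N ^ 88 := Nat.mul_le_mul_right _ (by nlinarith)
      _ = N ^ 90 := by ring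
  constructor
  · refine Nat.le_of_mul_le_mul_left (?_ : N ^ 3 * _ ≤ N ^ 3 * _) (pow_pos h0 3)
    calc N ^ 3 * (17 * (n₀ + 1) * N ^ 85) = 17 * (n₀ * N ^ 88) + 17 * N ^ 88 := by ring
      _ ≤ 1000 * m := by omega
      _ ≤ N ^ 3 * m := Nat.mul_le_mul_right _ (by
          calc 1000 ≤ N := hN
            _ ≤ N ^ 3 := Nat.le_self_pow (by norm_num) N)
  · refine Nat.lt_of_mul_lt_mul_left (a := N ^ 2) ?_
    calc N ^ 2 * (70 * (n₀ + 1) * N ^ 86) = 70 * (n₀ * N ^ 88) + 70 * N ^ 88 := by ring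
      _ < 1000 * m := by omega
      _ ≤ N ^ 2 * m := Nat.mul_le_mul_right _ (by
          calc 1000 ≤ N := hN
            _ ≤ N ^ 2 := Nat.le_self_pow (by norm_num) N)

/-- the logarithmic condition -/
private theorem lgc {b N L d l : ℕ} {ι : ℝ} (hN : 1000 ≤ N)
    (hbig : 16 * Real.log b + 8 * ι + 8 + 7 * Real.log 4 ≤ 15 * Real.log N)
    (hL : L ≤ 34 * N ^ 53) (hd : 300 * d ≤ N) (hl : N ^ 33 < 4 * l) :
    8 * (2 * Real.log b + ι + Real.log ((L : ℝ) * d) / 2 + 1) ≤ 7 * Real.log l := by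
  have hN0 : (0 : ℝ) < N := by
    have : 0 < N := by omega
    exact_mod_cast this
  have hN1 : (1 : ℝ) ≤ N := by
    have : 1 ≤ N := by omega
    exact_mod_cast this
  have h1 : Real.log ((L : ℝ) * d) ≤ 54 * Real.log N := by
    have h2 : L * d ≤ N ^ 54 := by
      have h3 : 300 * (L * d) ≤ 34 * N ^ 54 := by
        calc 300 * (L * d) = L * (300 * d) := by ring
          _ ≤ (34 * N ^ 53) * N := Nat.mul_le_mul hL hd
          _ = 34 * N ^ 54 := by ring
      omega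
    have h4 : ((L : ℝ) * d) ≤ (N : ℝ) ^ 54 := by exact_mod_cast h2
    rcases eq_or_lt_of_le (show (0 : ℝ) ≤ (L : ℝ) * d by positivity) with h5 | h5
    · rw [← h5, Real.log_zero]
      have := Real.log_nonneg hN1
      positivity
    · have h6 := Real.log_le_log h5 h4
      rw [Real.log_pow] at h6
      exact_mod_cast h6
  have h7 : 33 * Real.log N - Real.log 4 ≤ Real.log l := by
    have h8 : ((N : ℝ) ^ 33) ≤ 4 * l := by exact_mod_cast hl.le
    have h9 := Real.log_le_log (by positivity) h8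
    have hl0 : (0 : ℝ) < l := by
      have : 0 < l := by
        have := pow_pos (show 0 < N by omega) 33
        omega
      exact_mod_cast this
    rw [Real.log_pow, Real.log_mul (by norm_num) hl0.ne'] at h9
    push_cast at h9
    linarith
  linarith

theorem finBB (b : ℕ) (hb : 2 ≤ b) (ι : ℝ) (hι : 0 ≤ ι) : ∃ N₀ : ℕ, ∀ N : ℕ, N₀ ≤ N →
    ∀ (A E : Type) [Field A] [NumberField A] [Field E] [NumberField E] [Algebra A E]
      (m d : ℕ) (x a : E) (σ : ℕ → (A →+* A)), RdA A b m d ι x →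
      (∀ q : ℕ, q.Prime → N ^ 32 ≤ q → q ≤ N ^ 52 → Pool.Agent.H72.BE.Frob A q (σ q)) →
      (∀ q : ℕ, q.Prime → N ^ 32 ≤ q → q ≤ N ^ 52 →
        m ≤ Module.finrank A (IntermediateField.adjoin A ({x ^ q, a ^ q} : Set E))) →
      300 * d ≤ N → N ^ 90 ≤ m → (N : ℝ) ^ 141 * absLogHeight₁ a ≤ 1 → a ≠ 0 →
      ∃ (q β : ℕ) (w : ℤ), 1 ≤ q ∧ q ≤ N ^ 52 ∧ 1 ≤ β ∧ β ≤ N ^ 53 ∧
        IsIntegral A ((a ^ q) ^ β * (x ^ q) ^ w) ∧
        Module.finrank A A⟮(a ^ q) ^ β * (x ^ q) ^ w⟯ ≤ N ^ 53 := by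
  classical
  obtain ⟨NA, hA⟩ := finAB b hb ι hι
  obtain ⟨T₀, hT₀⟩ := many_primes
  refine ⟨NA + T₀ + 1000 + ⌈Real.exp ((16 * Real.log b + 8 * ι + 8 + 7 * Real.log 4) / 15)⌉₊,
    fun N hN A E _ _ _ _ _ m d x a σ hx hσ hdg hd hm hh ha => ?_⟩
  have hN1000 : 1000 ≤ N := by omega
  have hN0 : 0 < N := by omega
  have hbig : 16 * Real.log b + 8 * ι + 8 + 7 * Real.log 4 ≤ 15 * Real.log N := by
    have h1 : Real.exp ((16 * Real.log b + 8 * ι + 8 + 7 * Real.log 4) / 15) ≤ N := by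
      refine (Nat.le_ceil _).trans ?_
      have h2 : ⌈Real.exp ((16 * Real.log b + 8 * ι + 8 + 7 * Real.log 4) / 15)⌉₊ ≤ N := by omega
      exact_mod_cast h2
    have h3 := Real.log_le_log (Real.exp_pos _) h1
    rw [Real.log_exp] at h3
    linarith
  have : Module.Finite A E := Module.Finite.of_restrictScalars_finite ℚ A E
  obtain ⟨q, G, hqp, hqlo, hqN, hG, h0, hG1, hGN, hdX⟩ :=
    hA N (by omega) A E m d x a σ hx hσ hdg hd hm hh
  have hq1 : 1 ≤ q := hqp.one_lt.le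
  have hm1 : 1 ≤ m := hx.m1
  have hx0 : x ≠ 0 := by
    rintro rfl
    have h1 := hx.pow
    rw [zero_pow (by omega)] at h1
    have h2 : (b : E) ≠ 0 := Nat.cast_ne_zero.2 (by omega)
    exact h2 h1.symm
  obtain ⟨ℛ, hℛ⟩ : ∃ ℛ : Finset ℕ, ℛ = (Finset.Icc 1 (N ^ 33)).filter
    fun p => p.Prime ∧ N ^ 33 < 4 * p := ⟨_, rfl⟩
  have hmem : ∀ l ∈ ℛ, 1 ≤ l ∧ l ≤ N ^ 33 ∧ l.Prime ∧ N ^ 33 < 4 * l := by
    intro l hl
    rw [hℛ, Finset.mem_filter, Finset.mem_Icc] at hl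
    exact ⟨hl.1.1, hl.1.2, hl.2.1, hl.2.2⟩
  have hcard : 35 + Nat.log 2 G.natDegree ≤ ℛ.card := by
    have h1 := hT₀ (N ^ 33) (by
      have : N ≤ N ^ 33 := Nat.le_self_pow (by norm_num) N
      omega)
    rw [← hℛ] at h1
    have h2 : N ^ 24 ≤ ℛ.card := by
      by_contra hcon
      push Not at hcon
      have h3 : ℛ.card ^ 4 < (N ^ 24) ^ 4 := Nat.pow_lt_pow_left hcon (by norm_num)
      have h4 : (N ^ 24) ^ 4 ≤ (N ^ 33) ^ 3 := by
        rw [← pow_mul, ← pow_mul]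
        exact Nat.pow_le_pow_right hN0 (by norm_num)
      omega
    have h5 : Nat.log 2 G.natDegree < 53 * N := by
      refine Nat.log_lt_of_lt_pow (by omega) ?_
      calc G.natDegree ≤ N ^ 53 := hGN
        _ < (2 ^ N) ^ 53 := Nat.pow_lt_pow_left Nat.lt_two_pow_self (by norm_num)
        _ = 2 ^ (53 * N) := by rw [← pow_mul, mul_comm]
    have h6 : 1000 * N ≤ N ^ 24 := by
      calc 1000 * N ≤ N ^ 23 * N := Nat.mul_le_mul_right _ (by
            calc 1000 ≤ N := hN1000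
              _ ≤ N ^ 23 := Nat.le_self_pow (by norm_num) N)
        _ = N ^ 24 := by ring
    omega
  obtain ⟨hs1, hs2⟩ := szn hN1000 hm hdX
  have hL34 : 17 * (G.natDegree + 1) ≤ 34 * N ^ 53 := by
    have : 1 ≤ N ^ 53 := Nat.one_le_pow _ _ hN0
    omega
  have hnm : 17 * (dX G + 1) ≤ m := by
    refine le_trans ?_ hs1
    exact Nat.le_mul_of_pos_right _ (pow_pos hN0 85)
  have hstr : ∀ k : ℕ, k ≤ N ^ 85 → (17 * (dX G + 1) - 1) * k < m := by
    intro k hk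
    have hp : 0 < N ^ 85 := pow_pos hN0 85
    calc (17 * (dX G + 1) - 1) * k ≤ (17 * (dX G + 1) - 1) * N ^ 85 := Nat.mul_le_mul_left _ hk
      _ < 17 * (dX G + 1) * N ^ 85 := Nat.mul_lt_mul_of_pos_right (by omega) hp
      _ ≤ m := hs1
  have hcor := corB hx hι σ a (17 * (dX G + 1)) (17 * (G.natDegree + 1)) q (by omega) (by omega)
    hq1 (hstr q (hqN.trans (Nat.pow_le_pow_right hN0 (by norm_num)))) ℛ (by
      intro l hl
      obtain ⟨h1, h2, h3, h4⟩ := hmem l hl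
      refine ⟨h3, ?_, ?_, ?_, ?_⟩
      · refine hσ l h3 ?_ (h2.trans (Nat.pow_le_pow_right hN0 (by norm_num)))
        have h6 : 4 * N ^ 32 ≤ N ^ 33 := by
          calc 4 * N ^ 32 ≤ N * N ^ 32 := Nat.mul_le_mul_right _ (by omega)
            _ = N ^ 33 := by ring
        omega
      · refine hstr _ ?_
        calc q * l ≤ N ^ 52 * N ^ 33 := Nat.mul_le_mul hqN h2
          _ = N ^ 85 := by ring
      · exact lgc hN1000 hbig hL34 hd h4
      · have h6 : q * l * (17 * (G.natDegree + 1)) ≤ N ^ 141 := by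
          calc q * l * (17 * (G.natDegree + 1)) ≤ N ^ 52 * N ^ 33 * (34 * N ^ 53) :=
                Nat.mul_le_mul (Nat.mul_le_mul hqN h2) hL34
            _ = 34 * N ^ 138 := by ring
            _ ≤ N ^ 3 * N ^ 138 := Nat.mul_le_mul_right _ (by
                calc 34 ≤ N := by omega
                  _ ≤ N ^ 3 := Nat.le_self_pow (by norm_num) N)
            _ = N ^ 141 := by ring
        have h7 : ((q : ℝ) * l * ((17 * (G.natDegree + 1) : ℕ) : ℝ)) ≤ (N : ℝ) ^ 141 := by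
          exact_mod_cast h6
        exact (mul_le_mul_of_nonneg_right h7 (ht_nn a)).trans hh)
  obtain ⟨P, hP, hPd, hGP⟩ := stepBB (by omega) hm1 hx.pow σ a (IsIntegral.of_finite A a) q
    (hdg q hqp hqlo hqN) G hG h0 ℛ (by
      intro l hl
      obtain ⟨h1, h2, h3, h4⟩ := hmem l hl
      refine ⟨h1, lt_of_le_of_lt ?_ hs2⟩
      calc 35 * l * ((dX G + 1) * (G.natDegree + 1)) ≤
            35 * N ^ 33 * ((dX G + 1) * (2 * N ^ 53)) := by
              refine Nat.mul_le_mul (Nat.mul_le_mul_left _ h2) (Nat.mul_le_mul_left _ ?_)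
              have : 1 ≤ N ^ 53 := Nat.one_le_pow _ _ hN0
              omega
        _ = 70 * (dX G + 1) * N ^ 86 := by ring) hcor
  obtain ⟨β, w, hβ1, hβ, hint, hfin⟩ := stepCA σ G P hG hG1 hP hPd ℛ
    (fun l hl => ⟨(hmem l hl).2.2.1, hGP l hl⟩) hcard (x ^ q) (a ^ q) (pow_ne_zero _ hx0)
    (pow_ne_zero _ ha) h0
  exact ⟨q, β, w, hq1, hqN, hβ1, hβ.trans hGN, hint, hfin.trans hGN⟩

end Pool.Agent.H36.LG
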