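import Pool.Agent.H36.LG.FbB
import Pool.Agent.H36.LF.SdB

/-!
# THEOREM L without s (MP_187c26_nt), number fields `A = ℚ(ξ) ≤ E`, large `m`

MODEL: case (3) of `thmLA` in `Pool/Agent/H36/LF/FcA.lean` (copy and change). Imports may be sorried (`finBB`, `stepDA`).
PROOF. `σ q` := the Frobenius lift of `frob_cyc` for the primes `q ∤ n` (choice). `N₀` = the maximum of the `N₀` of `finBB`, the constant `C` of `stepDA` and `300`. (1) If `N^141 h > 1`: done (`c ≤ 1`). (2) Otherwise `finBB`: `κ := (a^q)^β (x^q)^w`, `κ^m = a^(q β m) b^(q w)`, `stepDA` with `N^53`: the primes in `[N^53, C N^159]` are in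
`[N^32, N^200]`, so they do not divide `n`; `κ^k = b^j` is impossible; `q β m h(a) = h(κ^m b^(-q w)) ≥ c m/(N^53)^5`: `h ≥ c/(N^52 N^53 N^265) = c/N^370`.
-/

set_option autoImplicit false

open Polynomial NumberField IntermediateField
open scoped Polynomial.Bivariate

namespace Pool.Agent.H36.LG

open Pool.Agent.H36.LE Pool.Agent.H36.LF

/-- the Frobenius lifts for all the primes which do not divide `n` -/
private theorem fcb_frob {A : Type} [Field A] [NumberField A] (n : ℕ) (hn : 1 ≤ n) (ξ : A)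
    (hξ : IsPrimitiveRoot ξ n) (hgen : IntermediateField.adjoin ℚ {ξ} = ⊤) :
    ∃ σ : ℕ → (A →+* A), ∀ q : ℕ, q.Prime → ¬ q ∣ n → Pool.Agent.H72.BE.Frob A q (σ q) := by
  classical
  refine ⟨fun q => if h : q.Prime ∧ ¬ q ∣ n then
    Classical.choose (Pool.Agent.H72.BE.frob_cyc n hn ξ hξ hgen q h.1 h.2) else RingHom.id A, ?_⟩
  intro q hq hqn
  have h : q.Prime ∧ ¬ q ∣ n := ⟨hq, hqn⟩
  simp only [dif_pos h]
  exact (Classical.choose_spec (Pool.Agent.H72.BE.frob_cyc n hn ξ hξ hgen q h.1 h.2)).1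

/-- the third case: the auxiliary number of small degree -/
private theorem fcb_three {A E : Type} [Field A] [NumberField A] [Field E] [NumberField E]
    [Algebra A E] {b : ℕ} {cD : ℝ} (hb : 2 ≤ b) {N m q β : ℕ} {w : ℤ} {x a : E}
    (hD : ∀ (κ : E), IsIntegral A κ → κ ≠ 0 → (∀ k : ℕ, 1 ≤ k → ∀ j : ℤ, κ ^ k ≠ (b : E) ^ j) →
      Module.finrank A A⟮κ⟯ ≤ N ^ 53 → ∀ (m : ℕ) (s : ℤ), 1 ≤ m →
        cD * m / ((N ^ 53 : ℕ) : ℝ) ^ 5 ≤ absLogHeight₁ (κ ^ m * (b : E) ^ s))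
    (hN : 1 ≤ N) (hm : 1 ≤ m) (hx : x ^ m = (b : E)) (ha : a ≠ 0)
    (hab : ∀ k : ℕ, 1 ≤ k → ∀ j : ℤ, a ^ k ≠ (b : E) ^ j) (hh : 0 ≤ absLogHeight₁ a)
    (hq : 1 ≤ q) (hqN : q ≤ N ^ 52) (hβ : 1 ≤ β) (hβN : β ≤ N ^ 53)
    (hint : IsIntegral A ((a ^ q) ^ β * (x ^ q) ^ w))
    (hdeg : Module.finrank A A⟮(a ^ q) ^ β * (x ^ q) ^ w⟯ ≤ N ^ 53) :
    cD ≤ (N : ℝ) ^ 370 * absLogHeight₁ a := by
  have hb0 : (b : E) ≠ 0 := by
    rw [Nat.cast_ne_zero]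
    omega
  have hx0 : x ≠ 0 := by
    rintro rfl
    rw [zero_pow (by omega)] at hx
    exact hb0 hx.symm
  have hxq : x ^ q ≠ 0 := pow_ne_zero _ hx0
  have hpow : ∀ k : ℕ, ((a ^ q) ^ β * (x ^ q) ^ w) ^ (m * k) = a ^ (q * β * m * k) * (b : E) ^ ((q : ℤ) * w * k) := by
    intro k
    have e1 : ((a ^ q) ^ β) ^ (m * k) = a ^ (q * β * m * k) := by
      rw [← pow_mul, ← pow_mul]
      congr 1
      ring
    have e2 : ((x ^ q) ^ w) ^ (m * k) = (b : E) ^ ((q : ℤ) * w * k) := by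
      rw [← zpow_natCast ((x ^ q) ^ w), ← zpow_mul, ← zpow_natCast x q, ← zpow_mul, ← hx, ← zpow_natCast x m,
        ← zpow_mul]
      congr 1
      push_cast
      ring
    rw [mul_pow, e1, e2]
  have h1 := hD ((a ^ q) ^ β * (x ^ q) ^ w) hint (mul_ne_zero (pow_ne_zero _ (pow_ne_zero _ ha)) (zpow_ne_zero _ hxq))
    (fun k hk j h => by
      have h2 := hpow k
      rw [mul_comm m k, pow_mul, h, ← zpow_natCast ((b : E) ^ j), ← zpow_mul] at h2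
      have h3 : a ^ (q * β * m * k) = (b : E) ^ (j * (m : ℤ) - (q : ℤ) * w * k) := by
        rw [zpow_sub₀ hb0, h2, mul_div_cancel_right₀ _ (zpow_ne_zero _ hb0)]
      exact hab _ (Nat.one_le_iff_ne_zero.2 (by positivity)) _ h3) hdeg m (-((q : ℤ) * w)) hm
  have h2 : ((a ^ q) ^ β * (x ^ q) ^ w) ^ m * (b : E) ^ (-((q : ℤ) * w)) = a ^ (q * β * m) := by
    have h3 := hpow 1
    rw [mul_one, mul_one, Nat.cast_one, mul_one] at h3
    rw [h3, mul_assoc, ← zpow_add₀ hb0, add_neg_cancel, zpow_zero, mul_one]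
  rw [h2, Pool.Agent.H4.RR.absLogHeight_pow E a (Algebra.IsIntegral.isIntegral a)] at h1
  have hN1 : (1 : ℝ) ≤ N := by exact_mod_cast hN
  have hm1 : (0 : ℝ) < m := by exact_mod_cast hm
  rw [div_le_iff₀ (by positivity)] at h1
  have hq' : (q : ℝ) ≤ (N : ℝ) ^ 52 := by exact_mod_cast hqN
  have hβ' : (β : ℝ) ≤ (N : ℝ) ^ 53 := by exact_mod_cast hβN
  have h4 : cD * m ≤ ((N : ℝ) ^ 370 * absLogHeight₁ a) * m := by
    calc cD * m ≤ ((q * β * m : ℕ) : ℝ) * absLogHeight₁ a * ((N ^ 53 : ℕ) : ℝ) ^ 5 := h1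
      _ = (q * β : ℝ) * (m * absLogHeight₁ a * (N : ℝ) ^ 265) := by
          push_cast
          ring
      _ ≤ ((N : ℝ) ^ 52 * (N : ℝ) ^ 53) * (m * absLogHeight₁ a * (N : ℝ) ^ 265) := by
          refine mul_le_mul_of_nonneg_right (mul_le_mul hq' hβ' (by positivity) (by positivity)) (by positivity)
      _ = ((N : ℝ) ^ 370 * absLogHeight₁ a) * m := by ring
  exact le_of_mul_le_mul_right h4 hm1

theorem thmLB (b : ℕ) (hb : 2 ≤ b) (ι : ℝ) (hι : 0 ≤ ι) : ∃ c : ℝ, 0 < c ∧ ∃ N₀ : ℕ,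
    ∀ N : ℕ, N₀ ≤ N → ∀ (A E : Type) [Field A] [NumberField A] [Field E] [NumberField E]
      [Algebra A E] (n : ℕ) (ξ : A), 1 ≤ n → IsPrimitiveRoot ξ n →
      IntermediateField.adjoin ℚ {ξ} = ⊤ → n.Coprime b → ∀ (m d : ℕ) (x a : E),
      RdA A b m d ι x → 300 * d ≤ N →
      (∀ q : ℕ, q.Prime → N ^ 32 ≤ q → q ≤ N ^ 200 → ¬ q ∣ n) →
      (∀ q : ℕ, q.Prime → N ^ 32 ≤ q → q ≤ N ^ 52 →
        m ≤ Module.finrank A (IntermediateField.adjoin A ({x ^ q, a ^ q} : Set E))) →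
      N ^ 90 ≤ m → a ≠ 0 → (∀ k : ℕ, 1 ≤ k → ∀ j : ℤ, a ^ k ≠ (b : E) ^ j) →
      c ≤ (N : ℝ) ^ 370 * absLogHeight₁ a := by
  obtain ⟨N₁, hN₁⟩ := finBB b hb ι hι
  obtain ⟨cD, hcD, C₂, hD⟩ := stepDA b hb
  refine ⟨min 1 cD, lt_min one_pos hcD, N₁ + C₂ + 300, ?_⟩
  intro N hN A E _ _ _ _ _ n ξ hn hξ hgen hnb m d x a hR hNd hprime horb hm90 ha hab
  have hh : 0 ≤ absLogHeight₁ a := Pool.Agent.H72.PL.absHeight_nonneg a
  have hN1 : 1 ≤ N := by omega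
  have hN1R : (1 : ℝ) ≤ N := by exact_mod_cast hN1
  obtain ⟨σ, hσ⟩ := fcb_frob n hn ξ hξ hgen
  by_cases hc1 : (N : ℝ) ^ 141 * absLogHeight₁ a ≤ 1
  · obtain ⟨q, β, w, hq, hqN, hβ, hβN, hint, hdeg⟩ := hN₁ N (by omega) A E m d x a σ hR
        (fun q hq h1 h2 => hσ q hq (hprime q hq h1 (h2.trans (Nat.pow_le_pow_right hN1 (by norm_num)))))
        horb hNd hm90 hc1 ha
    refine (min_le_right _ _).trans
        (fcb_three (A := A) (m := m) hb ?_ hN1 hR.m1 hR.pow ha hab hh hq hqN hβ hβN hint hdeg)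
    intro κ h1 h2 h3 h4 m' s' hm'
    refine hD A E n ξ hn hξ hgen hnb σ κ h1 h2 h3 (N ^ 53) h4 (fun q hq h5 h6 => hσ q hq (hprime q hq ?_ ?_))
        m' s' hm'
    · exact (Nat.pow_le_pow_right hN1 (by norm_num)).trans h5
    · refine h6.trans ?_
      calc C₂ * (N ^ 53) ^ 3 ≤ N * (N ^ 53) ^ 3 := Nat.mul_le_mul_right _ (by omega)
        _ = N ^ 160 := by ring
        _ ≤ N ^ 200 := Nat.pow_le_pow_right hN1 (by norm_num)
  · push Not at hc1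
    refine (min_le_left _ _).trans (hc1.le.trans ?_)
    exact mul_le_mul_of_nonneg_right (pow_le_pow_right₀ hN1R (by norm_num)) hh

end Pool.Agent.H36.LG
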