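import Mathlib

/-!
# THEOREM L without s (MP_187c26_nt): descent at a prime dividing `m`

PROOFS (characteristic 0).
`kum`: `H ≤ E` fields, `q` prime, `x, y ∈ E`, `x^q = c ∈ H`, `x ≠ 0`, `c` not a `q`-th power in `H` (so `X^q - c` is irreducible: `X_pow_sub_C_irreducible_of_prime`), `y ∈ H(x)`, `y^q ∈ H`, `y ≠ 0`. Then `y^q = (x^j z)^q` with `z ∈ H`. Proof: let `M` be an algebraic closure of `E`, `ζ ∈ M` a primitive `q`-th root of unity, `H' = H(ζ)`, `f = [H' : H]`, prime to `q`
(`f ≤ q - 1`). `X^q - c` is irreducible over `H'` (a root in `H'` has degree `q` over `H`, `q ∣ f`: contradiction), so there is an `H'`-embedding `τ` of `H'(x)` with `τ x = ζ x`. `(τ y)^q = y^q`, `τ y = ζ^j y`; the element `y x^(-j)` is fixed by `τ`, and the fixed elements of `τ` in `H'(x)` are `H'` (write in the basis `x^i`, `i < q`: `τ` multiplies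
the coordinate of `x^i` by `ζ^i`). So `w := y^q c^(-j) ∈ H` is a `q`-th power in `H'`; norm to `H`: `w^f = N^q`, `N ∈ H`; Bezout `f u + q v = 1`: `w = (N^u w^v)^q`. Choose `0 ≤ j`. (Alternative without `M`: `w` is a `q`-th power in `H'` and `[H' : H] < q`, so `X^q - w` is reducible over `H`, hence `w` is a `q`-th power in `H`.)
`desc_m`: `F₀ := k⟮x^q⟯`, `F := k⟮x⟯`, `[F : k] = q [F₀ : k]`, so `[F : F₀] = q` (`F = F₀(x)`) and `X^q - x^q` is irreducible over `F₀`. `H := adjoin k {x^q, a^q} = F₀(a^q)`, `[H : k] < [F : k]`, so `D := [H : F₀] < q`. (i) `x^q` is not a `q`-th power in `H`: `y^q = x^q`, `y ∈ H`, then `y` is a root of the irreducible `X^q - x^q` over `F₀`, so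
`q = [F₀(y) : F₀]` divides `D`, contradiction. (ii) `[H(x) : H] = q`. `E' := k(x, a)`, `[E' : F₀] = [E' : F] q ≤ d q`, `[E' : H] ≥ q` and `[E' : H] D = [E' : F₀]`: `D ≤ d`. (iii) `[E' : H(x)] ≤ [E' : F] ≤ d < q` (`E' = H(x)(a)`, `F ≤ H(x)`), `a` is a root of `X^q - a^q ∈ H(x)[X]`; if `a^q` were not a `q`-th power in `H(x)` this polynomial would be
irreducible and `[H(x)(a) : H(x)] = q`, contradiction. So `a^q = y^q`, `y ∈ H(x)`. (iv) `kum`: `a^q = (x^j z)^q`, `z ∈ H`. The degree of `z` over `F₀` is at most `D ≤ d`.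
-/

set_option autoImplicit false

open Polynomial IntermediateField

namespace Pool.Agent.H36.LG

private theorem trz {H L : Type} [Field H] [CharZero H] [Field L] [Algebra H L]
    [FiniteDimensional H L] (q : ℕ) (hq : q.Prime) (u : L) (w : H)
    (hu : u ^ q = algebraMap H L w) (hw : ∀ z : H, z ^ q ≠ w) : Algebra.trace H L u = 0 := by
  have hirr : Irreducible (X ^ q - C w : H[X]) := X_pow_sub_C_irreducible_of_prime hq hw
  have hmon : (X ^ q - C w : H[X]).Monic := monic_X_pow_sub_C w hq.ne_zero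
  have hmp : X ^ q - C w = minpoly H u :=
    minpoly.eq_of_irreducible_of_monic hirr (by simp [hu]) hmon
  have hint : IsIntegral H u := Algebra.IsIntegral.isIntegral u
  have h1 : Algebra.trace H H⟮u⟯ (AdjoinSimple.gen H u) = 0 := by
    have h2 := (IntermediateField.adjoin.powerBasis hint).trace_gen_eq_nextCoeff_minpoly
    rw [IntermediateField.adjoin.powerBasis_gen] at h2
    rw [h2, IntermediateField.minpoly_gen, ← hmp]
    have hq2 : 2 ≤ q := hq.two_le
    have hdeg : (X ^ q - C w : H[X]).natDegree = q := natDegree_X_pow_sub_C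
    rw [Polynomial.nextCoeff, if_neg (by rw [hdeg]; omega), hdeg]
    simp only [coeff_sub, coeff_X_pow, coeff_C]
    rw [if_neg (by omega), if_neg (by omega)]
    simp
  rw [trace_eq_trace_adjoin, h1, smul_zero]

theorem kum {H E : Type} [Field H] [CharZero H] [Field E] [Algebra H E] (q : ℕ) (hq : q.Prime)
    (c : H) (x y : E) (hx : x ^ q = algebraMap H E c) (hc : ∀ z : H, z ^ q ≠ c)
    (hy : y ∈ H⟮x⟯) (hy0 : y ≠ 0) (e : H) (hye : y ^ q = algebraMap H E e) :
    ∃ (j : ℕ) (z : H), y ^ q = (x ^ j * algebraMap H E z) ^ q := by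
  classical
  have hq0 : q ≠ 0 := hq.ne_zero
  have hc0 : c ≠ 0 := by
    intro h0
    apply hc 0
    rw [h0, zero_pow hq0]
  have hint : IsIntegral H x := ⟨X ^ q - C c, monic_X_pow_sub_C c hq0, by simp [hx]⟩
  haveI : FiniteDimensional H H⟮x⟯ := IntermediateField.adjoin.finiteDimensional hint
  by_contra hno
  push Not at hno
  have hone : ∀ (j : ℕ), ∀ z : H, z ^ q ≠ e * c ^ j := by
    intro j z hz
    apply hno ((q - 1) * j) (c⁻¹ ^ j * z)
    have hc0' : algebraMap H E c ≠ 0 := by
      rw [Ne, map_eq_zero]; exact hc0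
    have h1 : (x ^ ((q - 1) * j) * algebraMap H E (c⁻¹ ^ j * z)) ^ q =
        (x ^ q) ^ ((q - 1) * j) * algebraMap H E (c⁻¹ ^ (j * q) * z ^ q) := by
      rw [mul_pow, ← map_pow, mul_pow, ← pow_mul, ← pow_mul, ← pow_mul]
      congr 2
      ring
    rw [h1, hx, hz, hye, ← map_pow, ← map_mul]
    congr 1
    have h2 : j * q = (q - 1) * j + j := by
      obtain ⟨t, rfl⟩ : ∃ t, q = t + 1 := ⟨q - 1, by omega⟩
      simp only [Nat.add_sub_cancel]
      ring
    rw [h2, pow_add, inv_pow, inv_pow]
    field_simp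
  set g : H⟮x⟯ := AdjoinSimple.gen H x with hg
  have hgx : algebraMap H⟮x⟯ E g = x := AdjoinSimple.algebraMap_gen H x
  have hyq : ((⟨y, hy⟩ : H⟮x⟯)) ^ q = algebraMap H H⟮x⟯ e := by
    apply Subtype.ext
    show y ^ q = _
    rw [hye]
    rfl
  have hgq : g ^ q = algebraMap H H⟮x⟯ c := by
    apply Subtype.ext
    show x ^ q = _
    rw [hx]
    rfl
  have hmon : ∀ j : ℕ, Algebra.trace H H⟮x⟯ ((⟨y, hy⟩ : H⟮x⟯) * g ^ j) = 0 := by
    intro j
    apply trz q hq _ (e * c ^ j)
    · rw [mul_pow, hyq, ← pow_mul, mul_comm j q, pow_mul, hgq, map_mul, map_pow]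
    · exact hone j
  have hpoly : ∀ p : H[X], Algebra.trace H H⟮x⟯ ((⟨y, hy⟩ : H⟮x⟯) * aeval g p) = 0 := by
    intro p
    induction p using Polynomial.induction_on' with
    | add p r hp hr => rw [map_add, mul_add, map_add, hp, hr, add_zero]
    | monomial n b =>
      rw [aeval_monomial, mul_left_comm, ← Algebra.smul_def, map_smul, hmon, smul_zero]
  have hyinv : (y⁻¹) ∈ H⟮x⟯ := inv_mem hy
  have hsurj : ∃ p : H[X], aeval g p = (⟨y, hy⟩ : H⟮x⟯)⁻¹ := by
    have h3 := (IntermediateField.adjoin.powerBasis hint).exists_eq_aeval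
      ((⟨y, hy⟩ : H⟮x⟯)⁻¹)
    obtain ⟨f, -, hf⟩ := h3
    exact ⟨f, by rw [hf, IntermediateField.adjoin.powerBasis_gen]⟩
  obtain ⟨p, hp⟩ := hsurj
  have h4 := hpoly p
  have hyn : (⟨y, hy⟩ : H⟮x⟯) ≠ 0 := by
    intro h
    exact hy0 (congrArg Subtype.val h)
  rw [hp, mul_inv_cancel₀ hyn] at h4
  have h5 : Algebra.trace H H⟮x⟯ (1 : H⟮x⟯) = (Module.finrank H H⟮x⟯ : H) := by
    have := Algebra.trace_algebraMap (R := H) (S := H⟮x⟯) (1 : H)
    rw [map_one] at this
    rw [this]
    simp
  rw [h5] at h4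
  have h6 : 0 < Module.finrank H H⟮x⟯ := Module.finrank_pos
  have h7 : Module.finrank H H⟮x⟯ = 0 := by exact_mod_cast h4
  omega

private theorem fin_adj {k E : Type} [Field k] [Field E] [Algebra k E]
    (F : IntermediateField k E) [FiniteDimensional k F] (z : E) (hz : IsIntegral F z) :
    Module.finrank k (F⟮z⟯.restrictScalars k) =
      Module.finrank k F * (minpoly F z).natDegree := by
  have h1 : Module.finrank F F⟮z⟯ = (minpoly F z).natDegree :=
    IntermediateField.adjoin.finrank hz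
  have h2 : Module.finrank k F * Module.finrank F F⟮z⟯ = Module.finrank k F⟮z⟯ :=
    Module.finrank_mul_finrank k F F⟮z⟯
  rw [h1] at h2
  rw [h2]
  rfl

private theorem fin_mono {k E : Type} [Field k] [Field E] [Algebra k E]
    (A B : IntermediateField k E) (h : A ≤ B) [FiniteDimensional k B] :
    Module.finrank k A ≤ Module.finrank k B :=
  IntermediateField.finrank_le_of_le_right h

private theorem fd_adj {k E : Type} [Field k] [Field E] [Algebra k E]
    (F : IntermediateField k E) [FiniteDimensional k F] (z : E) (hz : IsIntegral F z) :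
    FiniteDimensional k (F⟮z⟯.restrictScalars k) := by
  haveI : FiniteDimensional F F⟮z⟯ := IntermediateField.adjoin.finiteDimensional hz
  have : FiniteDimensional k F⟮z⟯ := FiniteDimensional.trans k F F⟮z⟯
  exact this

theorem desc_m {k E : Type} [Field k] [CharZero k] [Field E] [Algebra k E] (q : ℕ)
    (hq : q.Prime) (x a : E) (hx0 : x ≠ 0) (ha0 : a ≠ 0) (hx : IsIntegral k x)
    (ha : IsIntegral k a) (d : ℕ) (hd : (minpoly k⟮x⟯ a).natDegree ≤ d) (hdq : d < q)
    (hqx : Module.finrank k k⟮x⟯ = q * Module.finrank k k⟮x ^ q⟯)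
    (hs : Module.finrank k (IntermediateField.adjoin k ({x ^ q, a ^ q} : Set E)) <
      Module.finrank k k⟮x⟯) :
    ∃ (j : ℕ) (z : E), a ^ q = (x ^ j * z) ^ q ∧ (minpoly k⟮x ^ q⟯ z).natDegree ≤ d := by
  classical
  have hq0 : q ≠ 0 := hq.ne_zero
  set F0 : IntermediateField k E := k⟮x ^ q⟯ with hF0
  set F : IntermediateField k E := k⟮x⟯ with hF
  set H : IntermediateField k E := IntermediateField.adjoin k ({x ^ q, a ^ q} : Set E) with hH
  have hF0fd : FiniteDimensional k F0 := IntermediateField.adjoin.finiteDimensional (hx.pow q)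
  have hFfd : FiniteDimensional k F := IntermediateField.adjoin.finiteDimensional hx
  have hHfd : FiniteDimensional k H := by
    apply IntermediateField.finiteDimensional_adjoin
    intro y hy
    simp only [Set.mem_insert_iff, Set.mem_singleton_iff] at hy
    rcases hy with rfl | rfl
    · exact hx.pow q
    · exact ha.pow q
  have hN0 : 0 < Module.finrank k F0 := Module.finrank_pos
  have hxF0 : x ^ q ∈ F0 := IntermediateField.mem_adjoin_simple_self k (x ^ q)
  have hxF : x ∈ F := IntermediateField.mem_adjoin_simple_self k x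
  have hxH : x ^ q ∈ H := IntermediateField.subset_adjoin _ _ (by simp)
  have haH : a ^ q ∈ H := IntermediateField.subset_adjoin _ _ (by simp)
  have hF0H : F0 ≤ H := by
    rw [hF0, IntermediateField.adjoin_simple_le_iff]
    exact hxH
  have intF0 : ∀ z : E, IsIntegral k z → IsIntegral F0 z := fun z hz => hz.tower_top
  have intH : ∀ z : E, IsIntegral k z → IsIntegral H z := fun z hz => hz.tower_top
  have intF : ∀ z : E, IsIntegral k z → IsIntegral F z := fun z hz => hz.tower_top
  -- `X^q - x^q` over `F0`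
  have hroot : ∀ y : E, y ^ q = x ^ q →
      aeval y (X ^ q - C (⟨x ^ q, hxF0⟩ : F0) : F0[X]) = 0 := by
    intro y hy
    rw [map_sub, map_pow, aeval_X, aeval_C, hy]
    exact sub_self _
  have hmon0 : (X ^ q - C (⟨x ^ q, hxF0⟩ : F0) : F0[X]).Monic := monic_X_pow_sub_C _ hq0
  have hdeg0 : (X ^ q - C (⟨x ^ q, hxF0⟩ : F0) : F0[X]).natDegree = q := natDegree_X_pow_sub_C
  have hge : q ≤ (minpoly F0 x).natDegree := by
    have h1 := fin_adj F0 x (intF0 x hx)
    haveI := fd_adj F0 x (intF0 x hx)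
    have h2 : F ≤ F0⟮x⟯.restrictScalars k := by
      rw [hF, IntermediateField.adjoin_simple_le_iff]
      exact IntermediateField.mem_adjoin_simple_self F0 x
    have h3 := fin_mono F _ h2
    rw [h1, hqx, mul_comm] at h3
    exact Nat.le_of_mul_le_mul_left h3 hN0
  have hmpx : minpoly F0 x = X ^ q - C (⟨x ^ q, hxF0⟩ : F0) := by
    have h1 : minpoly F0 x ∣ X ^ q - C (⟨x ^ q, hxF0⟩ : F0) := minpoly.dvd F0 x (hroot x rfl)
    exact (Polynomial.eq_of_monic_of_dvd_of_natDegree_le (minpoly.monic (intF0 x hx)) hmon0 h1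
      (by rw [hdeg0]; exact hge)).symm
  have hirr0 : Irreducible (X ^ q - C (⟨x ^ q, hxF0⟩ : F0) : F0[X]) := by
    rw [← hmpx]
    exact minpoly.irreducible (intF0 x hx)
  -- (i)
  have hi : ∀ z : H, z ^ q ≠ (⟨x ^ q, hxH⟩ : H) := by
    intro z hz
    have hz' : (z : E) ^ q = x ^ q := congrArg Subtype.val hz
    have hzi : IsIntegral k (z : E) := by
      have : IsIntegral k z := Algebra.IsIntegral.isIntegral z
      exact this.map H.val
    have h1 : minpoly F0 (z : E) = X ^ q - C (⟨x ^ q, hxF0⟩ : F0) :=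
      (minpoly.eq_of_irreducible_of_monic hirr0 (hroot _ hz') hmon0).symm
    have h2 := fin_adj F0 (z : E) (intF0 _ hzi)
    have h3 : F0⟮(z : E)⟯.restrictScalars k ≤ H := by
      intro w hw
      have h4 : F0⟮(z : E)⟯ ≤ IntermediateField.extendScalars hF0H := by
        rw [IntermediateField.adjoin_simple_le_iff]
        exact z.2
      exact h4 hw
    have h5 := fin_mono _ _ h3
    rw [h2, h1, hdeg0] at h5
    rw [hqx, mul_comm] at hs
    omega
  -- (ii)
  have hirrH : Irreducible (X ^ q - C (⟨x ^ q, hxH⟩ : H) : H[X]) :=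
    X_pow_sub_C_irreducible_of_prime hq hi
  have hmpH : minpoly H x = X ^ q - C (⟨x ^ q, hxH⟩ : H) := by
    refine (minpoly.eq_of_irreducible_of_monic hirrH ?_ (monic_X_pow_sub_C _ hq0)).symm
    rw [map_sub, map_pow, aeval_X, aeval_C]
    exact sub_self _
  have hii : Module.finrank k H ≤ Module.finrank k F0 * d := by
    have h1 := fin_adj H x (intH x hx)
    rw [hmpH, natDegree_X_pow_sub_C] at h1
    have h2 := fin_adj F a (intF a ha)
    haveI := fd_adj F a (intF a ha)
    have h3 : H⟮x⟯.restrictScalars k ≤ F⟮a⟯.restrictScalars k := by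
      have hxA : x ∈ F⟮a⟯.restrictScalars k := by
        have : algebraMap F E ⟨x, hxF⟩ ∈ F⟮a⟯ := IntermediateField.algebraMap_mem _ _
        exact this
      have haA : a ∈ F⟮a⟯.restrictScalars k := IntermediateField.mem_adjoin_simple_self F a
      have hHA : H ≤ F⟮a⟯.restrictScalars k := by
        rw [hH, IntermediateField.adjoin_le_iff]
        intro y hy
        simp only [Set.mem_insert_iff, Set.mem_singleton_iff] at hy
        rcases hy with rfl | rfl
        · exact pow_mem hxA q
        · exact pow_mem haA q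
      intro w hw
      have h4 : H⟮x⟯ ≤ IntermediateField.extendScalars hHA := by
        rw [IntermediateField.adjoin_simple_le_iff]
        exact hxA
      exact h4 hw
    have h5 := fin_mono _ _ h3
    rw [h1, h2, hqx] at h5
    have h6 : Module.finrank k H * q ≤ (Module.finrank k F0 * d) * q := by
      calc Module.finrank k H * q ≤ q * Module.finrank k F0 * (minpoly F a).natDegree := h5
        _ ≤ q * Module.finrank k F0 * d := Nat.mul_le_mul_left _ hd
        _ = (Module.finrank k F0 * d) * q := by ring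
    exact Nat.le_of_mul_le_mul_right h6 hq.pos
  -- (iii)
  have hiii : ∃ y ∈ H⟮x⟯, y ^ q = a ^ q := by
    by_contra hno
    push Not at hno
    have haG : a ^ q ∈ H⟮x⟯ := by
      have : algebraMap H E ⟨a ^ q, haH⟩ ∈ H⟮x⟯ := IntermediateField.algebraMap_mem _ _
      exact this
    have hirrG : Irreducible (X ^ q - C (⟨a ^ q, haG⟩ : H⟮x⟯) : (H⟮x⟯)[X]) := by
      apply X_pow_sub_C_irreducible_of_prime hq
      intro z hz
      exact hno (z : E) z.2 (congrArg Subtype.val hz)
    have hmpG : minpoly H⟮x⟯ a = X ^ q - C (⟨a ^ q, haG⟩ : H⟮x⟯) := by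
      refine (minpoly.eq_of_irreducible_of_monic hirrG ?_ (monic_X_pow_sub_C _ hq0)).symm
      rw [map_sub, map_pow, aeval_X, aeval_C]
      exact sub_self _
    -- minimal polynomial over `F` pushes to `H(x)`
    have hFG : F ≤ H⟮x⟯.restrictScalars k := by
      rw [hF, IntermediateField.adjoin_simple_le_iff]
      exact IntermediateField.mem_adjoin_simple_self H x
    let ι : F →+* H⟮x⟯ := (IntermediateField.inclusion hFG).toRingHom
    have hι : ∀ w : F, ((ι w : H⟮x⟯) : E) = (w : E) := fun w => rfl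
    have h1 : aeval a ((minpoly F a).map ι) = 0 := by
      have h2 : eval₂ (algebraMap H⟮x⟯ E) a ((minpoly F a).map ι) =
          eval₂ (algebraMap F E) a (minpoly F a) := by
        rw [eval₂_map]
        rfl
      rw [aeval_def, h2, ← aeval_def]
      exact minpoly.aeval F a
    have h3 : minpoly H⟮x⟯ a ∣ (minpoly F a).map ι := minpoly.dvd _ _ h1
    have hne : (minpoly F a).map ι ≠ 0 := by
      apply Polynomial.Monic.ne_zero
      exact (minpoly.monic (intF a ha)).map ι
    have h4 := Polynomial.natDegree_le_of_dvd h3 hne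
    rw [hmpG, natDegree_X_pow_sub_C] at h4
    have h5 := Polynomial.natDegree_map_le (f := ι) (p := minpoly F a)
    omega
  obtain ⟨y, hy, hyq⟩ := hiii
  have hy0 : y ≠ 0 := by
    intro h0
    rw [h0, zero_pow hq0] at hyq
    exact pow_ne_zero q ha0 hyq.symm
  haveI : CharZero H := charZero_of_injective_algebraMap (algebraMap k H).injective
  obtain ⟨j, z, hz⟩ := kum (H := H) (E := E) q hq (⟨x ^ q, hxH⟩ : H) x y rfl hi hy hy0
    (⟨a ^ q, haH⟩ : H) hyq
  refine ⟨j, (z : E), by rw [← hyq, hz]; rfl, ?_⟩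
  have hzi : IsIntegral k (z : E) := by
    have : IsIntegral k z := Algebra.IsIntegral.isIntegral z
    exact this.map H.val
  have h2 := fin_adj F0 (z : E) (intF0 _ hzi)
  have h3 : F0⟮(z : E)⟯.restrictScalars k ≤ H := by
    intro w hw
    have h4 : F0⟮(z : E)⟯ ≤ IntermediateField.extendScalars hF0H := by
      rw [IntermediateField.adjoin_simple_le_iff]
      exact z.2
    exact h4 hw
  have h5 := fin_mono _ _ h3
  rw [h2] at h5
  exact Nat.le_of_mul_le_mul_left (h5.trans hii) hN0

end Pool.Agent.H36.LG
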