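import Pool.Agent.H36.LF.McA

/-!
# THEOREM L without s (MP_187c26_nt): orthogonality over one embedding of `A`, all exponents `γ`

MODEL: `sum_embA` in `Pool/Agent/H36/LF/McA.lean` (copy and change: there `γ` is prime to `m`; here `γ ≥ 1` is arbitrary and `(n - 1) γ < m`: for `j ≠ j' < n` the difference `γ (j - j')` is not divisible by `m` because `0 < γ |j - j'| < m`; this is the only use).
-/

set_option autoImplicit false

open Polynomial NumberField IntermediateField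

namespace Pool.Agent.H36.LG

open Pool.Agent.H36.LE Pool.Agent.H36.LF

section

variable {A E : Type} [Field A] [NumberField A] [Field E] [NumberField E] [Algebra A E] {b m d : ℕ} {ι : ℝ} {x : E}

private theorem rho_powB (hb : 1 ≤ b) (hm : 1 ≤ m) : rho b m ^ m = b := by
  unfold rho
  exact Real.rpow_inv_natCast_pow (Nat.cast_nonneg _) (by omega)

private theorem rho_posB (hb : 1 ≤ b) : 0 < rho b m := by
  unfold rho
  exact Real.rpow_pos_of_pos (by exact_mod_cast hb) _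

private theorem norm_embB (hx : RdA A b m d ι x) (τ : E →+* ℂ) : ‖τ x‖ = rho b m := by
  have h1 : ‖τ x‖ ^ m = rho b m ^ m := by
    rw [rho_powB hx.b1 hx.m1, ← norm_pow, ← map_pow, hx.pow, map_natCast]
    simp
  exact (pow_left_inj₀ (norm_nonneg _) (rho_posB hx.b1).le (by have := hx.m1; omega)).1 h1

private theorem mic_minpolyB (hx : RdA A b m d ι x) : minpoly A x = X ^ m - C (b : A) := by
  have hm : m ≠ 0 := by have := hx.m1; omega
  have hint : IsIntegral A x := Algebra.IsIntegral.isIntegral x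
  have h1 : minpoly A x ∣ X ^ m - C (b : A) := by
    apply minpoly.dvd
    rw [map_sub, map_pow, aeval_X, aeval_C, hx.pow]
    simp
  have h2 : (X ^ m - C (b : A)).natDegree ≤ (minpoly A x).natDegree := by
    rw [natDegree_X_pow_sub_C, ← IntermediateField.adjoin.finrank hint, hx.deg]
  exact (eq_of_monic_of_dvd_of_natDegree_le (minpoly.monic hint) (monic_X_pow_sub_C _ hm) h1 h2).symm

private theorem mic_FB (hx : RdA A b m d ι x) [Algebra A ℂ] (e : ℤ) (he : ¬ (m : ℤ) ∣ e) :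
    ∑ τ : A⟮x⟯ →ₐ[A] ℂ, (τ (AdjoinSimple.gen A x)) ^ e = 0 := by
  have hm : m ≠ 0 := by have := hx.m1; omega
  have hint : IsIntegral A x := Algebra.IsIntegral.isIntegral x
  obtain ⟨ζ, hζ⟩ : ∃ ζ : ℂ, IsPrimitiveRoot ζ m := ⟨_, Complex.isPrimitiveRoot_exp m hm⟩
  have hζ0 : ζ ≠ 0 := hζ.ne_zero hm
  have hg0 : (AdjoinSimple.gen A x) ^ m = (b : A⟮x⟯) := by
    apply (algebraMap A⟮x⟯ E).injective
    rw [map_pow, AdjoinSimple.algebraMap_gen, hx.pow, map_natCast]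
  have htw : ∀ τ : A⟮x⟯ →ₐ[A] ℂ, ∃ τ' : A⟮x⟯ →ₐ[A] ℂ,
      τ' (AdjoinSimple.gen A x) = ζ * τ (AdjoinSimple.gen A x) := by
    intro τ
    have hmem : ζ * τ (AdjoinSimple.gen A x) ∈ (minpoly A x).aroots ℂ := by
      rw [mem_aroots]
      refine ⟨minpoly.ne_zero hint, ?_⟩
      rw [mic_minpolyB hx, map_sub, map_pow, aeval_X, aeval_C, mul_pow, hζ.pow_eq_one, one_mul, ← map_pow, hg0,
        map_natCast]
      simp
    exact ⟨(algHomAdjoinIntegralEquiv A hint).symm ⟨_, hmem⟩,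
      algHomAdjoinIntegralEquiv_symm_apply_gen A hint ⟨_, hmem⟩⟩
  have hext : ∀ τ τ' : A⟮x⟯ →ₐ[A] ℂ, τ (AdjoinSimple.gen A x) = τ' (AdjoinSimple.gen A x) → τ = τ' := by
    intro τ τ' h
    apply (adjoin.powerBasis hint).algHom_ext
    rw [adjoin.powerBasis_gen]
    exact h
  choose g hg using htw
  have hinj : Function.Injective g := by
    intro τ τ' h
    apply hext
    have h1 := hg τ
    rw [h, hg τ'] at h1
    exact (mul_left_cancel₀ hζ0 h1).symm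
  have hbij : Function.Bijective g := Finite.injective_iff_bijective.1 hinj
  have h1 : ∑ τ : A⟮x⟯ →ₐ[A] ℂ, (τ (AdjoinSimple.gen A x)) ^ e =
      ∑ τ : A⟮x⟯ →ₐ[A] ℂ, (g τ (AdjoinSimple.gen A x)) ^ e :=
    (Function.Bijective.sum_comp hbij (fun τ => (τ (AdjoinSimple.gen A x)) ^ e)).symm
  have h2 : ∑ τ : A⟮x⟯ →ₐ[A] ℂ, (g τ (AdjoinSimple.gen A x)) ^ e =
      ζ ^ e * ∑ τ : A⟮x⟯ →ₐ[A] ℂ, (τ (AdjoinSimple.gen A x)) ^ e := by
    rw [Finset.mul_sum]
    refine Finset.sum_congr rfl fun τ _ => ?_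
    rw [hg, mul_zpow]
  rw [h2] at h1
  have h3 : ζ ^ e ≠ 1 := fun h => he ((hζ.zpow_eq_one_iff_dvd e).1 h)
  have h4 : (1 - ζ ^ e) * ∑ τ : A⟮x⟯ →ₐ[A] ℂ, (τ (AdjoinSimple.gen A x)) ^ e = 0 := by
    rw [sub_mul, one_mul, ← h1, sub_self]
  rcases mul_eq_zero.1 h4 with h5 | h5
  · exact absurd (sub_eq_zero.1 h5).symm h3
  · exact h5

open Classical in
private theorem sum_pow_embB (hx : RdA A b m d ι x) (t : A →+* ℂ) (e : ℤ) (he : ¬ (m : ℤ) ∣ e) :
    ∑ τ ∈ Finset.univ.filter (fun τ : E →+* ℂ => τ.comp (algebraMap A E) = t), (τ x) ^ e = 0 := by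
  -- the sum over the embeddings of `A(x)`
  have hF : ∑ σ ∈ Finset.univ.filter (fun σ : A⟮x⟯ →+* ℂ => σ.comp (algebraMap A A⟮x⟯) = t),
      (σ (AdjoinSimple.gen A x)) ^ e = 0 := by
    let _ : Algebra A ℂ := t.toAlgebra
    rw [← mic_FB hx e he]
    refine (Finset.sum_bij' (fun (σ : A⟮x⟯ →+* ℂ) hσ => ({ σ with
        commutes' := fun r => congrArg (fun g : A →+* ℂ => g r) (Finset.mem_filter.1 hσ).2 } : A⟮x⟯ →ₐ[A] ℂ))
      (fun σ _ => σ.toRingHom) ?_ ?_ ?_ ?_ ?_)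
    · intro σ _
      exact Finset.mem_univ _
    · intro σ _
      rw [Finset.mem_filter]
      refine ⟨Finset.mem_univ _, ?_⟩
      ext r
      exact σ.commutes r
    · intro σ _
      rfl
    · intro σ _
      rfl
    · intro σ _
      rfl
  have hmaps : ∀ τ ∈ Finset.univ.filter (fun τ : E →+* ℂ => τ.comp (algebraMap A E) = t),
      τ.comp (algebraMap A⟮x⟯ E) ∈
        Finset.univ.filter (fun σ : A⟮x⟯ →+* ℂ => σ.comp (algebraMap A A⟮x⟯) = t) := by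
    intro τ hτ
    rw [Finset.mem_filter] at hτ ⊢
    refine ⟨Finset.mem_univ _, ?_⟩
    rw [RingHom.comp_assoc, ← IsScalarTower.algebraMap_eq]
    exact hτ.2
  rw [← Finset.sum_fiberwise_of_maps_to hmaps]
  have h1 : ∀ σ ∈ Finset.univ.filter (fun σ : A⟮x⟯ →+* ℂ => σ.comp (algebraMap A A⟮x⟯) = t),
      ∑ τ ∈ (Finset.univ.filter (fun τ : E →+* ℂ => τ.comp (algebraMap A E) = t)).filter
        (fun τ => τ.comp (algebraMap A⟮x⟯ E) = σ), (τ x) ^ e =
      (Module.finrank A⟮x⟯ E : ℂ) * (σ (AdjoinSimple.gen A x)) ^ e := by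
    intro σ hσ
    have hσ2 := (Finset.mem_filter.1 hσ).2
    have h2 : (Finset.univ.filter (fun τ : E →+* ℂ => τ.comp (algebraMap A E) = t)).filter
        (fun τ => τ.comp (algebraMap A⟮x⟯ E) = σ) =
        Finset.univ.filter (fun τ : E →+* ℂ => τ.comp (algebraMap A⟮x⟯ E) = σ) := by
      ext τ
      rw [Finset.mem_filter, Finset.mem_filter, Finset.mem_filter]
      constructor
      · rintro ⟨-, h⟩
        exact ⟨Finset.mem_univ _, h⟩
      · rintro ⟨-, h⟩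
        refine ⟨⟨Finset.mem_univ _, ?_⟩, h⟩
        rw [IsScalarTower.algebraMap_eq A A⟮x⟯ E, ← RingHom.comp_assoc, h]
        exact hσ2
    rw [h2]
    have h3 : ∀ τ ∈ Finset.univ.filter (fun τ : E →+* ℂ => τ.comp (algebraMap A⟮x⟯ E) = σ),
        (τ x) ^ e = (σ (AdjoinSimple.gen A x)) ^ e := by
      intro τ hτ
      rw [← (Finset.mem_filter.1 hτ).2, RingHom.comp_apply, AdjoinSimple.algebraMap_gen]
    rw [Finset.sum_congr rfl h3, Finset.sum_const, nsmul_eq_mul]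
    congr 2
    exact Pool.Agent.H4.RR.card_fiber_comp A⟮x⟯ E σ
  rw [Finset.sum_congr rfl h1, ← Finset.mul_sum, hF, mul_zero]

end

open Classical in
theorem sum_embB {A E : Type} [Field A] [NumberField A] [Field E] [NumberField E] [Algebra A E]
    {b m d : ℕ} {ι : ℝ} {x : E} (hx : RdA A b m d ι x) (n γ : ℕ) (hγ : 1 ≤ γ)
    (hn : (n - 1) * γ < m) (t : A →+* ℂ) (h : Fin n → ℂ) :
    ∑ τ ∈ Finset.univ.filter (fun τ : E →+* ℂ => τ.comp (algebraMap A E) = t),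
        ‖∑ j : Fin n, h j * τ x ^ (γ * (j : ℕ))‖ ^ 2 =
      (m * d : ℝ) * ∑ j : Fin n, rho b m ^ (2 * (γ * (j : ℕ))) * ‖h j‖ ^ 2 := by
  obtain ⟨S, hS⟩ : ∃ S, S = Finset.univ.filter (fun τ : E →+* ℂ => τ.comp (algebraMap A E) = t) := ⟨_, rfl⟩
  rw [← hS]
  have hρ : 0 < rho b m := rho_posB hx.b1
  have hu : ∀ τ : E →+* ℂ, τ x ≠ 0 := by
    intro τ h0
    have h1 := norm_embB hx τ
    rw [h0, norm_zero] at h1
    exact hρ.ne h1
  have hconj : ∀ τ : E →+* ℂ, (starRingEnd ℂ) (τ x) = ((rho b m : ℝ) : ℂ) ^ 2 * (τ x)⁻¹ := by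
    intro τ
    rw [eq_mul_inv_iff_mul_eq₀ (hu τ), mul_comm, Complex.mul_conj, Complex.normSq_eq_norm_sq, norm_embB hx]
    push_cast
    rfl
  have hterm : ∀ τ : E →+* ℂ, ((‖∑ j : Fin n, h j * τ x ^ (γ * (j : ℕ))‖ ^ 2 : ℝ) : ℂ) =
      ∑ j : Fin n, ∑ j' : Fin n, (h j * (starRingEnd ℂ) (h j') * ((rho b m : ℝ) : ℂ) ^ (2 * (γ * (j' : ℕ)))) *
        τ x ^ ((γ : ℤ) * ((j : ℕ) - (j' : ℕ) : ℤ)) := by
    intro τ
    have h1 : ((‖∑ j : Fin n, h j * τ x ^ (γ * (j : ℕ))‖ ^ 2 : ℝ) : ℂ) =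
        (∑ j : Fin n, h j * τ x ^ (γ * (j : ℕ))) *
          (starRingEnd ℂ) (∑ j : Fin n, h j * τ x ^ (γ * (j : ℕ))) := by
      rw [Complex.mul_conj, Complex.normSq_eq_norm_sq]
    rw [h1, map_sum, Finset.sum_mul_sum]
    refine Finset.sum_congr rfl fun j _ => Finset.sum_congr rfl fun j' _ => ?_
    rw [map_mul, map_pow, hconj, mul_pow, ← pow_mul, mul_sub, zpow_sub₀ (hu τ), inv_pow]
    have h2 : (τ x) ^ ((γ : ℤ) * ((j : ℕ) : ℤ)) = (τ x) ^ (γ * (j : ℕ)) := by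
      rw [← zpow_natCast]
      push_cast
      rfl
    have h3 : (τ x) ^ ((γ : ℤ) * ((j' : ℕ) : ℤ)) = (τ x) ^ (γ * (j' : ℕ)) := by
      rw [← zpow_natCast]
      push_cast
      rfl
    rw [h2, h3]
    field_simp
  have hcard : (S.card : ℂ) = (m * d : ℂ) := by
    have h1 : S.card = Module.finrank A E := by
      rw [hS]
      exact Pool.Agent.H4.RR.card_fiber_comp A E t
    rw [h1, hx.fin]
    push_cast
    rfl
  have hsum : ∀ j j' : Fin n, ∑ τ ∈ S, τ x ^ ((γ : ℤ) * ((j : ℕ) - (j' : ℕ) : ℤ)) =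
      if j = j' then (m * d : ℂ) else 0 := by
    intro j j'
    split_ifs with hj
    · rw [hj, sub_self, mul_zero]
      simp only [zpow_zero, Finset.sum_const, nsmul_eq_mul, mul_one]
      exact hcard
    · rw [hS]
      apply sum_pow_embB hx
      intro hd
      have h2 : (j : ℕ) < n := j.2
      have h3 : (j' : ℕ) < n := j'.2
      have h4 : ((j : ℕ) : ℤ) - ((j' : ℕ) : ℤ) ≠ 0 := by
        intro h5
        apply hj
        apply Fin.ext
        omega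
      have hγ0 : (γ : ℤ) ≠ 0 := by
        have : γ ≠ 0 := by omega
        exact_mod_cast this
      have h5 := Int.le_of_dvd (abs_pos.2 (mul_ne_zero hγ0 h4)) ((dvd_abs _ _).2 hd)
      rw [abs_mul, Nat.abs_cast] at h5
      have h6 : |((j : ℕ) : ℤ) - ((j' : ℕ) : ℤ)| ≤ ((n - 1 : ℕ) : ℤ) := by
        rcases abs_cases (((j : ℕ) : ℤ) - ((j' : ℕ) : ℤ)) with h6 | h6 <;> omega
      have h7 : (γ : ℤ) * |((j : ℕ) : ℤ) - ((j' : ℕ) : ℤ)| ≤ (γ : ℤ) * ((n - 1 : ℕ) : ℤ) :=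
        mul_le_mul_of_nonneg_left h6 (Int.natCast_nonneg γ)
      have h8 : (γ : ℤ) * ((n - 1 : ℕ) : ℤ) < (m : ℤ) := by
        rw [mul_comm]
        exact_mod_cast hn
      omega
  have key : ((∑ τ ∈ S, ‖∑ j : Fin n, h j * τ x ^ (γ * (j : ℕ))‖ ^ 2 : ℝ) : ℂ) =
      (((m * d : ℝ) * ∑ j : Fin n, rho b m ^ (2 * (γ * (j : ℕ))) * ‖h j‖ ^ 2 : ℝ) : ℂ) := by
    rw [Complex.ofReal_sum, Finset.sum_congr rfl fun τ _ => hterm τ, Finset.sum_comm]
    have h1 : ∀ j : Fin n, ∑ τ ∈ S, ∑ j' : Fin n,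
        (h j * (starRingEnd ℂ) (h j') * ((rho b m : ℝ) : ℂ) ^ (2 * (γ * (j' : ℕ)))) *
        τ x ^ ((γ : ℤ) * ((j : ℕ) - (j' : ℕ) : ℤ)) =
        (m * d : ℂ) * (((rho b m : ℝ) : ℂ) ^ (2 * (γ * (j : ℕ))) * ((‖h j‖ : ℝ) : ℂ) ^ 2) := by
      intro j
      rw [Finset.sum_comm]
      have h2 : ∀ j' : Fin n, ∑ τ ∈ S,
          (h j * (starRingEnd ℂ) (h j') * ((rho b m : ℝ) : ℂ) ^ (2 * (γ * (j' : ℕ)))) *
          τ x ^ ((γ : ℤ) * ((j : ℕ) - (j' : ℕ) : ℤ)) =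
          if j = j' then (h j * (starRingEnd ℂ) (h j') * ((rho b m : ℝ) : ℂ) ^ (2 * (γ * (j' : ℕ)))) *
            (m * d : ℂ) else 0 := by
        intro j'
        rw [← Finset.mul_sum, hsum]
        split_ifs <;> simp
      rw [Finset.sum_congr rfl fun j' _ => h2 j', Finset.sum_ite_eq]
      simp only [Finset.mem_univ, if_true]
      rw [Complex.mul_conj, Complex.normSq_eq_norm_sq]
      push_cast
      ring
    rw [Finset.sum_congr rfl fun j _ => h1 j, ← Finset.mul_sum]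
    push_cast
    rfl
  exact_mod_cast key

end Pool.Agent.H36.LG
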