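import Pool.Agent.H36.LG.KmA
import Pool.Agent.H36.LF.GqB
import Pool.Agent.H36.LF.MpA

/-!
# THEOREM L without s (MP_187c26_nt): the minimal field of definition up to radicals

`Rel b α z`: `α^M = b^j z^M` for some `M ≥ 1`, `j ∈ ℤ`.
PROOFS. Imports may be sorried (`desc_m`, `degG`). `nd_FF`: `adjoin (AA ξ) {y}` and `FF ξ ![y] = adjoin ℚ ({ξ} ∪ range ![y])` are the same subfield of `Ω` (`IntermediateField.adjoin_adjoin_left`/`restrictScalars`), so the minimal polynomials correspond (see `nd_equiv` in `Pool/Agent/H72/BE/DesS.lean`).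
`exists_min`: let `r` be the largest divisor of `m` such that there is `z ≠ 0` with `Rel b α z` and `natDegree (minpoly (FF ξ ![x^r]) z) ≤ D` (`r = 1`, `z = α` is possible). Put `x' := x^r`, `m' := m/r`, `x'^(m') = b`, `A := AA ξ`; `DatG b m' n ξ x'` (degree: `m = [ℚ(x) : ℚ] ≤ r [ℚ(x') : ℚ] ≤ r m'`), so `[A(x') : A] = m'` (`degG`, `FF ξ ![x']` and `A⟮x'⟯`). Let `q > D` be a prime.
If `q ∤ m'`: `q` prime to `m'`, `[A(x'^q) : A] = m'` (`minpoly_powA` or directly `x' ∈ A(x'^q)` by Bezout), and `A(x'^q) ≤ A(x'^q, z^q)`. (Finite dimensional: `z` is algebraic.) If `q ∣ m'` and `[A(x'^q, z^q) : A] < m'`: `desc_m` (`k = A`, `E = Ω`, `[A(x') : A] = m' = q [A(x'^q) : A]`, degrees by `DatG` for `x'^q`, `m'/q`) gives `j`, `z'` with `z^q = (x'^j z')^q` and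
`natDegree (minpoly A⟮x'^q⟯ z') ≤ D`, `x'^q = x^(r q)`, `r q ∣ m`, `z' ≠ 0`, and `Rel b α z'`: `α^(M q m') = b^(j₀ q m') z^(q M m') = b^(j₀ q m' + j q M) z'^(q M m')`. This contradicts the choice of `r` (`nd_FF`).
-/

set_option autoImplicit false

open NumberField IntermediateField

namespace Pool.Agent.H36.LG

open Pool.Agent.H36.LE Pool.Agent.H36.LF Pool.Agent.H72.BE

/-- `α^M = b^j z^M` for some `M ≥ 1`. -/
def Rel {Ω : Type} [Field Ω] (b : ℕ) (α z : Ω) : Prop :=
  ∃ (M : ℕ) (j : ℤ), 1 ≤ M ∧ α ^ M = (b : Ω) ^ j * z ^ M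

variable {Ω : Type} [Field Ω] [CharZero Ω] [Algebra.IsAlgebraic ℚ Ω] {b m n : ℕ} {ξ x : Ω}

private theorem nd_equiv {K K' T : Type} [Field K] [Field K'] [Field T] [Algebra K T]
    [Algebra K' T] (f : K ≃+* K') (h : ∀ y, algebraMap K' T (f y) = algebraMap K T y) (a : T) :
    (minpoly K' a).natDegree = (minpoly K a).natDegree := by
  have hc : (algebraMap K' T).comp (f : K →+* K') = algebraMap K T := RingHom.ext h
  by_cases ha : IsIntegral K a
  · have h1 : (minpoly K a).map (f : K →+* K') = minpoly K' a := by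
      refine minpoly.eq_of_irreducible_of_monic ?_ ?_ ((minpoly.monic ha).map _)
      · rw [← Polynomial.mapEquiv_apply, MulEquiv.irreducible_iff]
        exact minpoly.irreducible ha
      · rw [Polynomial.aeval_def, Polynomial.eval₂_map, hc, ← Polynomial.aeval_def]
        exact minpoly.aeval K a
    rw [← h1, Polynomial.natDegree_map_eq_of_injective f.injective]
  · have ha' : ¬ IsIntegral K' a := by
      rintro ⟨P, hP, hP0⟩
      refine ha ⟨P.map (f.symm : K' →+* K), hP.map _, ?_⟩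
      rw [Polynomial.eval₂_map]
      have h2 : (algebraMap K T).comp (f.symm : K' →+* K) = algebraMap K' T := by
        refine RingHom.ext fun y => ?_
        have h3 := h (f.symm y)
        rw [f.apply_symm_apply] at h3
        exact h3.symm
      rw [h2]
      exact hP0
    rw [minpoly.eq_zero ha, minpoly.eq_zero ha', Polynomial.natDegree_zero,
      Polynomial.natDegree_zero]

omit [Algebra.IsAlgebraic ℚ Ω] in
private theorem rs_eq (ξ y : Ω) : (IntermediateField.adjoin (AA ξ) ({y} : Set Ω)).restrictScalars ℚ =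
    FF ξ ![y] := by
  refine (IntermediateField.adjoin_adjoin_left ℚ ({ξ} : Set Ω) ({y} : Set Ω)).trans ?_
  unfold FF
  congr 1
  ext w
  simp

omit [CharZero Ω] [Algebra.IsAlgebraic ℚ Ω] in
private theorem powlem (w z' : Ω) (j q M s : ℕ) :
    ((w ^ j * z') ^ q) ^ (M * s) = (w ^ s) ^ (j * q * M) * z' ^ (M * q * s) := by
  rw [← pow_mul, mul_pow, ← pow_mul, ← pow_mul]
  congr 2 <;> ring

omit [Algebra.IsAlgebraic ℚ Ω] in
private theorem dat_pow (h : DatG b m n ξ x) (r : ℕ) (hr : r ∣ m) :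
    DatG b (m / r) n ξ (x ^ r) := by
  obtain ⟨s, rfl⟩ := hr
  have hm1 := h.hm
  have hr0 : 0 < r := Nat.pos_of_ne_zero (by rintro rfl; simp at hm1)
  have hs0 : 0 < s := Nat.pos_of_ne_zero (by rintro rfl; simp at hm1)
  rw [Nat.mul_div_cancel_left s hr0]
  have hpow : (x ^ r) ^ s = (b : Ω) := by rw [← pow_mul]; exact h.pow
  refine ⟨h.two, hs0, h.hn, ?_, h.prim, hpow, ?_⟩
  · refine Nat.Coprime.coprime_dvd_right ?_ h.cop
    rw [mul_assoc]
    exact dvd_mul_left _ _
  · have hxi : IsIntegral ℚ x := h.integral_x.tower_top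
    have hyi : IsIntegral ℚ (x ^ r) := hxi.pow r
    have hF0 : FiniteDimensional ℚ ℚ⟮x ^ r⟯ := IntermediateField.adjoin.finiteDimensional hyi
    have h1 : Module.finrank ℚ ℚ⟮x ^ r⟯ ≤ s := by
      rw [IntermediateField.adjoin.finrank hyi]
      have h2 : minpoly ℚ (x ^ r) ∣ Polynomial.X ^ s - Polynomial.C (b : ℚ) :=
        minpoly.dvd ℚ _ (by simp [hpow])
      have h3 := Polynomial.natDegree_le_of_dvd h2 (Polynomial.X_pow_sub_C_ne_zero hs0 _)
      rwa [Polynomial.natDegree_X_pow_sub_C] at h3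
    have hxF : IsIntegral ℚ⟮x ^ r⟯ x := hxi.tower_top
    have h4 : (minpoly ℚ⟮x ^ r⟯ x).natDegree ≤ r := by
      have h5 : minpoly ℚ⟮x ^ r⟯ x ∣ Polynomial.X ^ r -
          Polynomial.C (IntermediateField.AdjoinSimple.gen ℚ (x ^ r)) :=
        minpoly.dvd _ _ (by simp [IntermediateField.AdjoinSimple.algebraMap_gen])
      have h6 := Polynomial.natDegree_le_of_dvd h5 (Polynomial.X_pow_sub_C_ne_zero hr0 _)
      rwa [Polynomial.natDegree_X_pow_sub_C] at h6
    have hF1 : FiniteDimensional ℚ⟮x ^ r⟯ (ℚ⟮x ^ r⟯)⟮x⟯ :=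
      IntermediateField.adjoin.finiteDimensional hxF
    have hF2 : FiniteDimensional ℚ (ℚ⟮x ^ r⟯)⟮x⟯ := FiniteDimensional.trans ℚ ℚ⟮x ^ r⟯ _
    have h7 : Module.finrank ℚ ℚ⟮x ^ r⟯ * Module.finrank ℚ⟮x ^ r⟯ (ℚ⟮x ^ r⟯)⟮x⟯ =
        Module.finrank ℚ (ℚ⟮x ^ r⟯)⟮x⟯ := Module.finrank_mul_finrank _ _ _
    rw [IntermediateField.adjoin.finrank hxF] at h7
    have h8 : Module.finrank ℚ ℚ⟮x⟯ ≤ Module.finrank ℚ (ℚ⟮x ^ r⟯)⟮x⟯ := by
      have h9 : ℚ⟮x⟯ ≤ ((ℚ⟮x ^ r⟯)⟮x⟯).restrictScalars ℚ := by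
        rw [IntermediateField.adjoin_simple_le_iff]
        exact IntermediateField.mem_adjoin_simple_self _ x
      haveI : FiniteDimensional ℚ (((ℚ⟮x ^ r⟯)⟮x⟯).restrictScalars ℚ) := hF2
      exact IntermediateField.finrank_le_of_le_right h9
    rw [h.deg, ← h7] at h8
    have h10 : r * s ≤ r * Module.finrank ℚ ℚ⟮x ^ r⟯ := by
      refine h8.trans ?_
      rw [mul_comm r]
      exact Nat.mul_le_mul_left _ h4
    have h11 := Nat.le_of_mul_le_mul_left h10 hr0
    omega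

omit [Algebra.IsAlgebraic ℚ Ω] in
private theorem degA (h : DatG b m n ξ x) :
    Module.finrank (AA ξ) (IntermediateField.adjoin (AA ξ) ({x} : Set Ω)) = m := by
  haveI := h.nf_A
  haveI := h.nf_F
  have h1 := degG h
  have h2 := Module.finrank_mul_finrank ℚ (AA ξ) (FF ξ ![x])
  have hxi : IsIntegral (AA ξ) x := h.integral_x.tower_top
  have h3 := Module.finrank_mul_finrank ℚ (AA ξ) (IntermediateField.adjoin (AA ξ) ({x} : Set Ω))
  have h4 : Module.finrank ℚ (IntermediateField.adjoin (AA ξ) ({x} : Set Ω)) =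
      Module.finrank ℚ (FF ξ ![x]) := by
    have h5 := congrArg (fun K : IntermediateField ℚ Ω => Module.finrank ℚ K) (rs_eq ξ x)
    exact h5
  rw [h4, ← h2, h1] at h3
  exact Nat.eq_of_mul_eq_mul_left Module.finrank_pos h3

theorem nd_FF (ξ y z : Ω) : (minpoly (IntermediateField.adjoin (AA ξ) ({y} : Set Ω)) z).natDegree =
    (minpoly (FF ξ ![y]) z).natDegree := by
  have e := IntermediateField.equivOfEq (rs_eq ξ y)
  refine (nd_equiv (K := (IntermediateField.adjoin (AA ξ) ({y} : Set Ω)).restrictScalars ℚ)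
    (K' := FF ξ ![y]) (T := Ω) (IntermediateField.equivOfEq (rs_eq ξ y)).toRingEquiv
    (fun w => rfl) z).symm

theorem exists_min (h : DatG b m n ξ x) (α : Ω) (hα : α ≠ 0) (D : ℕ)
    (hD : (minpoly (FF ξ ![x]) α).natDegree ≤ D) :
    ∃ (r : ℕ) (z : Ω), r ∣ m ∧ z ≠ 0 ∧ Rel b α z ∧ DatG b (m / r) n ξ (x ^ r) ∧
      (minpoly (FF ξ ![x ^ r]) z).natDegree ≤ D ∧
      ∀ q : ℕ, q.Prime → D < q → m / r ≤ Module.finrank (AA ξ)
        (IntermediateField.adjoin (AA ξ) ({(x ^ r) ^ q, z ^ q} : Set Ω)) := by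
  classical
  have hm0 : m ≠ 0 := by have := h.hm; omega
  obtain ⟨S, hS⟩ : ∃ S : Finset ℕ, S = m.divisors.filter (fun r => ∃ z : Ω, z ≠ 0 ∧ Rel b α z ∧
      (minpoly (FF ξ ![x ^ r]) z).natDegree ≤ D) := ⟨_, rfl⟩
  have h1S : 1 ∈ S := by
    rw [hS, Finset.mem_filter, Nat.mem_divisors]
    refine ⟨⟨one_dvd _, hm0⟩, α, hα, ⟨1, 0, le_rfl, by simp⟩, ?_⟩
    rw [pow_one]
    exact hD
  obtain ⟨r, hrS, hmax⟩ := S.exists_max_image id ⟨1, h1S⟩
  have hrS' := hrS
  rw [hS, Finset.mem_filter, Nat.mem_divisors] at hrS'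
  obtain ⟨⟨hrm, -⟩, z, hz, hrel, hdeg⟩ := hrS'
  have hd : DatG b (m / r) n ξ (x ^ r) := dat_pow h r hrm
  refine ⟨r, z, hrm, hz, hrel, hd, hdeg, ?_⟩
  intro q hq hDq
  by_contra hlt
  push Not at hlt
  haveI := h.nf_A
  have hr0 : 0 < r := Nat.pos_of_dvd_of_pos hrm (Nat.pos_of_ne_zero hm0)
  have hb0 : (b : Ω) ≠ 0 := Nat.cast_ne_zero.2 (by have := h.two; omega)
  have hx0 : x ≠ 0 := by
    rintro rfl
    have h2 := h.pow
    rw [zero_pow hm0] at h2
    exact hb0 h2.symm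
  have hx'0 : x ^ r ≠ 0 := pow_ne_zero _ hx0
  have hdA := degA hd
  have hxi : IsIntegral (AA ξ) (x ^ r) := hd.integral_x.tower_top
  have hzi : IsIntegral (AA ξ) z := (Algebra.IsIntegral.isIntegral (R := ℚ) z).tower_top
  by_cases hqm : q ∣ m / r
  · -- descent
    have hd2 : DatG b (m / r / q) n ξ ((x ^ r) ^ q) := dat_pow hd q hqm
    have hdA2 := degA hd2
    have hqx : Module.finrank (AA ξ) (AA ξ)⟮x ^ r⟯ = q * Module.finrank (AA ξ) (AA ξ)⟮(x ^ r) ^ q⟯ := by
      rw [hdA, hdA2, Nat.mul_div_cancel' hqm]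
    have hnd : (minpoly (AA ξ)⟮x ^ r⟯ z).natDegree ≤ D := by
      rw [nd_FF]
      exact hdeg
    obtain ⟨j, z', hzz, hz'd⟩ := desc_m (k := AA ξ) (E := Ω) q hq (x ^ r) z hx'0 hz hxi hzi D hnd
      hDq hqx (by rw [hdA]; exact hlt)
    have hz'0 : z' ≠ 0 := by
      rintro rfl
      rw [mul_zero, zero_pow hq.ne_zero] at hzz
      exact hz (pow_eq_zero_iff hq.ne_zero |>.1 hzz)
    have hmem : r * q ∈ S := by
      rw [hS, Finset.mem_filter, Nat.mem_divisors]
      refine ⟨⟨?_, hm0⟩, z', hz'0, ?_, ?_⟩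
      · have h2 := Nat.mul_dvd_mul_left r hqm
        rwa [Nat.mul_div_cancel' hrm] at h2
      · obtain ⟨M, j₀, hM, hrelM⟩ := hrel
        refine ⟨M * q * (m / r), j₀ * q * ((m / r : ℕ) : ℤ) + j * q * M, ?_, ?_⟩
        · exact Nat.mul_pos (Nat.mul_pos hM hq.pos) hd.hm
        · have e1 : α ^ (M * q * (m / r)) = ((b : Ω) ^ j₀) ^ (q * (m / r)) *
              (z ^ q) ^ (M * (m / r)) := by
            rw [mul_assoc, pow_mul, hrelM, mul_pow]
            congr 1
            rw [← pow_mul, ← pow_mul]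
            congr 1
            ring
          have e2 : (z ^ q) ^ (M * (m / r)) = (b : Ω) ^ (j * q * M) * z' ^ (M * q * (m / r)) := by
            rw [hzz, powlem, hd.pow]
          rw [e1, e2, zpow_add₀ hb0, ← mul_assoc]
          congr 2
          · rw [← zpow_natCast, ← zpow_mul]
            congr 1
            push_cast
            ring
          · rw [← zpow_natCast]
            congr 1
      · rw [nd_FF] at hz'd
        rw [pow_mul]
        exact hz'd
    have h3 := hmax _ hmem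
    simp only [id] at h3
    have h4 : r * 2 ≤ r * q := Nat.mul_le_mul_left r hq.two_le
    omega
  · have hcop : q.Coprime (m / r) := (Nat.Prime.coprime_iff_not_dvd hq).2 hqm
    have hmp := minpoly_powA (A := AA ξ) (E := Ω) (b := b) (m := m / r) (x := x ^ r)
      (by have := h.two; omega) hd.hm hd.pow hdA q hcop
    have hi : IsIntegral (AA ξ) ((x ^ r) ^ q) := hxi.pow q
    have hf : Module.finrank (AA ξ) (AA ξ)⟮(x ^ r) ^ q⟯ = m / r := by
      rw [IntermediateField.adjoin.finrank hi, hmp, Polynomial.natDegree_X_pow_sub_C]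
    haveI : FiniteDimensional (AA ξ)
        (IntermediateField.adjoin (AA ξ) ({(x ^ r) ^ q, z ^ q} : Set Ω)) := by
      apply IntermediateField.finiteDimensional_adjoin
      intro y hy
      simp only [Set.mem_insert_iff, Set.mem_singleton_iff] at hy
      rcases hy with rfl | rfl
      · exact hi
      · exact hzi.pow q
    have hle : (AA ξ)⟮(x ^ r) ^ q⟯ ≤
        IntermediateField.adjoin (AA ξ) ({(x ^ r) ^ q, z ^ q} : Set Ω) := by
      rw [IntermediateField.adjoin_simple_le_iff]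
      exact IntermediateField.subset_adjoin _ _ (by simp)
    have h5 := IntermediateField.finrank_le_of_le_right hle
    rw [hf] at h5
    omega

end Pool.Agent.H36.LG
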